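import Mathlib

/-!
# Collisions between sums of multinomial coefficients: definitions of the statement
-/

namespace Pool.H24.MV.Diverge

open Filter Finset

/-- `mult n` is the set `M_n` of distinct values of the multinomial coefficients
`n! / (p_1! ⋯ p_t!)` with upper entry `n`, over all integer partitions `(p_1, …, p_t)` of `n`. -/
def mult (n : ℕ) : Finset ℕ :=
  Finset.univ.image (fun p : n.Partition => n.factorial / (p.parts.map Nat.factorial).prod)

/-- `rep n t` is `r_n(t)`, the number of pairs `(x, y)` of elements of `M_n` with `x ≤ y` and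
`x + y = t`. -/
def rep (n t : ℕ) : ℕ :=
  ((mult n ×ˢ mult n).filter (fun z => z.1 ≤ z.2 ∧ z.1 + z.2 = t)).card

/-- The collision excess `C(n) = ∑_t max (r_n(t) - 1, 0)`. -/
noncomputable def C (n : ℕ) : ℤ := ∑ᶠ t : ℕ, max ((rep n t : ℤ) - 1) 0

/-- The number `D(n)` of sums `t` with more than one representation. -/
noncomputable def D (n : ℕ) : ℕ := Set.ncard {t : ℕ | 2 ≤ rep n t}

/-- `a(n) = C(n) / (n^2 log n)`. -/
noncomputable def a (n : ℕ) : ℝ := (C n : ℝ) / ((n : ℝ) ^ 2 * Real.log n)

/-- `b(n) = D(n) / (n^(3/2) sqrt (log n))`. -/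
noncomputable def b (n : ℕ) : ℝ := (D n : ℝ) / ((n : ℝ) ^ (3 / 2 : ℝ) * √(Real.log n))

end Pool.H24.MV.Diverge
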