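import Mathlib
import Pool.Agent.H24.MV.DivergeDefs

/-!
# Membership in `mult n`: the proof
-/

namespace Pool.H24.MV.Diverge

open Filter Finset

lemma mem_mult {n : ℕ} (s : Multiset ℕ) (hpos : ∀ i ∈ s, 0 < i) (hsum : s.sum = n) :
    n.factorial / (s.map Nat.factorial).prod ∈ mult n := by
  unfold mult
  rw [Finset.mem_image]
  exact ⟨⟨s, fun {i} hi => hpos i hi, hsum⟩, Finset.mem_univ _, rfl⟩

lemma prod_dvd (s : Multiset ℕ) : (s.map Nat.factorial).prod ∣ s.sum.factorial := by
  induction s using Multiset.induction_on with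
  | empty => simp
  | cons x s ih =>
    rw [Multiset.map_cons, Multiset.prod_cons, Multiset.sum_cons]
    exact (mul_dvd_mul_left _ ih).trans (Nat.factorial_mul_factorial_dvd_factorial_add _ _)

/-- If `12 * q = ∏ i!` over a multiset `{1,2,3} + s` of positive integers with sum `n`, then
`d, 2 d, 3 d` all lie in `mult n` for `d = n! / (12 q)`. -/
lemma three_mem {n : ℕ} (s : Multiset ℕ) (hpos : ∀ i ∈ s, 0 < i) (hsum : s.sum + 6 = n)
    (d : ℕ) (hd : d * (12 * (s.map Nat.factorial).prod) = n.factorial) :
    d ∈ mult n ∧ 2 * d ∈ mult n ∧ 3 * d ∈ mult n := by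
  set q := (s.map Nat.factorial).prod with hq
  have hqpos : 0 < q := by
    rcases Nat.eq_zero_or_pos q with h | h
    · rw [h] at hd
      simp at hd
      exact absurd hd.symm (Nat.factorial_ne_zero n)
    · exact h
  refine ⟨?_, ?_, ?_⟩
  · have h := mem_mult (n := n) (s + {1, 2, 3})
      (by
        intro i hi
        rw [Multiset.mem_add] at hi
        rcases hi with hi | hi
        · exact hpos i hi
        · simp at hi
          omega)
      (by
        rw [Multiset.sum_add]
        simpa using hsum)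
    have hp : ((s + {1, 2, 3}).map Nat.factorial).prod = 12 * q := by
      rw [Multiset.map_add, Multiset.prod_add, ← hq]
      have : ((({1, 2, 3} : Multiset ℕ)).map Nat.factorial).prod = 12 := by decide
      rw [this]; ring
    rw [hp] at h
    have h2 : n.factorial / (12 * q) = d := by
      rw [← hd]
      exact Nat.mul_div_cancel _ (by positivity)
    rwa [h2] at h
  · have h := mem_mult (n := n) (s + {1, 1, 1, 3})
      (by
        intro i hi
        rw [Multiset.mem_add] at hi
        rcases hi with hi | hi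
        · exact hpos i hi
        · simp at hi
          omega)
      (by
        rw [Multiset.sum_add]
        simpa using hsum)
    have hp : ((s + {1, 1, 1, 3}).map Nat.factorial).prod = 6 * q := by
      rw [Multiset.map_add, Multiset.prod_add, ← hq]
      have : ((({1, 1, 1, 3} : Multiset ℕ)).map Nat.factorial).prod = 6 := by decide
      rw [this]; ring
    rw [hp] at h
    have h2 : n.factorial / (6 * q) = 2 * d := by
      rw [← hd]
      have : d * (12 * q) = (2 * d) * (6 * q) := by ring
      rw [this]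
      exact Nat.mul_div_cancel _ (by positivity)
    rwa [h2] at h
  · have h := mem_mult (n := n) (s + {1, 2, 2, 1})
      (by
        intro i hi
        rw [Multiset.mem_add] at hi
        rcases hi with hi | hi
        · exact hpos i hi
        · simp at hi
          omega)
      (by
        rw [Multiset.sum_add]
        simpa using hsum)
    have hp : ((s + {1, 2, 2, 1}).map Nat.factorial).prod = 4 * q := by
      rw [Multiset.map_add, Multiset.prod_add, ← hq]
      have : ((({1, 2, 2, 1} : Multiset ℕ)).map Nat.factorial).prod = 4 := by decide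
      rw [this]; ring
    rw [hp] at h
    have h2 : n.factorial / (4 * q) = 3 * d := by
      rw [← hd]
      have : d * (12 * q) = (3 * d) * (4 * q) := by ring
      rw [this]
      exact Nat.mul_div_cancel _ (by positivity)
    rwa [h2] at h

/-- The value `4 d` has at least two representations. -/
lemma two_le_rep {n : ℕ} (d : ℕ) (hd0 : 0 < d)
    (h : d ∈ mult n ∧ 2 * d ∈ mult n ∧ 3 * d ∈ mult n) : 2 ≤ rep n (4 * d) := by
  unfold rep
  have hsub : ({(d, 3 * d), (2 * d, 2 * d)} : Finset (ℕ × ℕ)) ⊆
      ((mult n ×ˢ mult n).filter (fun z => z.1 ≤ z.2 ∧ z.1 + z.2 = 4 * d)) := by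
    intro z hz
    simp only [Finset.mem_insert, Finset.mem_singleton] at hz
    rw [Finset.mem_filter, Finset.mem_product]
    rcases hz with rfl | rfl
    · exact ⟨⟨h.1, h.2.2⟩, by simp only; omega, by simp only; omega⟩
    · exact ⟨⟨h.2.1, h.2.1⟩, by simp only; omega, by simp only; omega⟩
  have hcard : ({(d, 3 * d), (2 * d, 2 * d)} : Finset (ℕ × ℕ)).card = 2 := by
    rw [Finset.card_pair]
    intro hne
    rw [Prod.mk.injEq] at hne
    omega
  rw [← hcard]
  exact Finset.card_le_card hsub

/-- the `i`-th prime number -/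
noncomputable def pr (i : ℕ) : ℕ := Nat.nth Nat.Prime i

lemma pr_prime (i : ℕ) : (pr i).Prime := Nat.prime_nth_prime i

lemma pr_strictMono : StrictMono pr := Nat.nth_strictMono Nat.infinite_setOfPred_prime

/-- `∏_{i<k} (p_i !)^(e i)` -/
noncomputable def q (k : ℕ) (e : ℕ → ℕ) : ℕ := ∏ i ∈ range k, ((pr i).factorial) ^ (e i)

lemma q_pos (k : ℕ) (e : ℕ → ℕ) : 0 < q k e :=
  Finset.prod_pos fun i _ => pow_pos (Nat.factorial_pos _) _

lemma factorization_pr_factorial (k : ℕ) : ((pr k).factorial).factorization (pr k) = 1 := by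
  have hp := pr_prime k
  obtain ⟨m, hm⟩ : ∃ m, pr k = m + 1 := ⟨pr k - 1, by have := hp.pos; omega⟩
  have h1 : (pr k).factorial = pr k * (pr k - 1).factorial := by
    rw [hm, Nat.factorial_succ]; simp
  rw [h1, Nat.factorization_mul hp.ne_zero (Nat.factorial_ne_zero _)]
  have h2 : ((pr k - 1).factorial).factorization (pr k) = 0 := by
    apply Nat.factorization_eq_zero_of_not_dvd
    rw [hp.dvd_factorial]
    have := hp.pos
    omega
  rw [Finsupp.add_apply, h2, hp.factorization_self]

lemma factorization_q (k j : ℕ) (hkj : k ≤ j) (e : ℕ → ℕ) : (q k e).factorization (pr j) = 0 := by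
  apply Nat.factorization_eq_zero_of_not_dvd
  intro hdvd
  unfold q at hdvd
  rw [(pr_prime j).prime.dvd_finsetProd_iff] at hdvd
  obtain ⟨i, hi, hdi⟩ := hdvd
  have h1 := (pr_prime j).dvd_of_dvd_pow hdi
  rw [(pr_prime j).dvd_factorial] at h1
  have h2 : i < k := Finset.mem_range.mp hi
  have h3 := pr_strictMono (lt_of_lt_of_le h2 hkj)
  omega

lemma q_inj (k : ℕ) : ∀ e f : ℕ → ℕ, q k e = q k f → ∀ i < k, e i = f i := by
  induction k with
  | zero => intro e f _ i hi; omega
  | succ k ih =>
    intro e f hef i hi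
    have he : q (k + 1) e = q k e * ((pr k).factorial) ^ (e k) := by
      unfold q; rw [Finset.prod_range_succ]
    have hf : q (k + 1) f = q k f * ((pr k).factorial) ^ (f k) := by
      unfold q; rw [Finset.prod_range_succ]
    have key : ∀ g : ℕ → ℕ, (q (k + 1) g).factorization (pr k) = g k := by
      intro g
      have hg : q (k + 1) g = q k g * ((pr k).factorial) ^ (g k) := by
        unfold q; rw [Finset.prod_range_succ]
      rw [hg, Nat.factorization_mul (q_pos k g).ne' (pow_pos (Nat.factorial_pos _) _).ne',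
        Finsupp.add_apply, factorization_q k k le_rfl g, Nat.factorization_pow, Finsupp.smul_apply,
        factorization_pr_factorial]
      simp
    have hk : e k = f k := by rw [← key e, ← key f, hef]
    rcases Nat.lt_succ_iff_lt_or_eq.mp hi with h | h
    · apply ih e f _ i h
      rw [he, hf, hk] at hef
      exact Nat.eq_of_mul_eq_mul_right (pow_pos (Nat.factorial_pos _) _) hef
    · rw [h]; exact hk

/-- `e i` copies of the `i`-th prime, `i < k`, and `c` copies of `1`. -/
noncomputable def ms (k : ℕ) (e : ℕ → ℕ) (c : ℕ) : Multiset ℕ :=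
  (∑ i ∈ range k, Multiset.replicate (e i) (pr i)) + Multiset.replicate c 1

lemma ms_sum (k : ℕ) (e : ℕ → ℕ) (c : ℕ) :
    (ms k e c).sum = (∑ i ∈ range k, e i * pr i) + c := by
  unfold ms
  rw [Multiset.sum_add]
  congr 1
  · induction k with
    | zero => simp
    | succ k ih =>
      rw [Finset.sum_range_succ, Finset.sum_range_succ, Multiset.sum_add, ih]
      simp
  · simp

lemma ms_prod (k : ℕ) (e : ℕ → ℕ) (c : ℕ) :
    ((ms k e c).map Nat.factorial).prod = q k e := by
  unfold ms q
  rw [Multiset.map_add, Multiset.prod_add]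
  have h1 : ((Multiset.replicate c 1).map Nat.factorial).prod = 1 := by simp
  rw [h1, mul_one]
  induction k with
  | zero => simp
  | succ k ih =>
    rw [Finset.sum_range_succ, Finset.prod_range_succ, Multiset.map_add, Multiset.prod_add, ih]
    simp

lemma ms_pos (k : ℕ) (e : ℕ → ℕ) (c : ℕ) : ∀ i ∈ ms k e c, 0 < i := by
  unfold ms
  intro i hi
  rw [Multiset.mem_add] at hi
  rcases hi with hi | hi
  · induction k with
    | zero => simp at hi
    | succ k ih =>
      rw [Finset.sum_range_succ, Multiset.mem_add] at hi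
      rcases hi with hi | hi
      · exact ih hi
      · rw [Multiset.mem_replicate] at hi
        rw [hi.2]
        exact (pr_prime k).pos
  · rw [Multiset.mem_replicate] at hi
    omega

lemma finite_rep (n : ℕ) : {t : ℕ | 2 ≤ rep n t}.Finite := by
  apply Set.Finite.subset (Finset.finite_toSet ((mult n ×ˢ mult n).image (fun z => z.1 + z.2)))
  intro t ht
  rw [Set.mem_ofPred_eq] at ht
  have hpos : 0 < rep n t := by omega
  unfold rep at hpos
  rw [Finset.card_pos] at hpos
  obtain ⟨z, hz⟩ := hpos
  rw [Finset.mem_filter] at hz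
  rw [Finset.coe_image]
  exact ⟨z, Finset.mem_coe.mpr hz.1, hz.2.2⟩

/-- The main lower bound: if `m * (p_0 + ⋯ + p_{k-1}) + 6 ≤ n` then `D n ≥ (m+1)^k`. -/
lemma D_ge (k m n : ℕ) (h : m * (∑ i ∈ range k, pr i) + 6 ≤ n) : (m + 1) ^ k ≤ D n := by
  classical
  -- extension of an exponent vector by zero
  let ext : (Fin k → Fin (m + 1)) → ℕ → ℕ := fun e i => if hi : i < k then (e ⟨i, hi⟩ : ℕ) else 0
  have ext_le : ∀ e i, ext e i ≤ m := by
    intro e i
    simp only [ext]
    split_ifs with hi
    · exact Nat.lt_succ_iff.mp (e ⟨i, hi⟩).2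
    · exact Nat.zero_le _
  have hsum_le : ∀ e, (∑ i ∈ range k, ext e i * pr i) + 6 ≤ n := by
    intro e
    refine le_trans ?_ h
    apply Nat.add_le_add_right
    rw [Finset.mul_sum]
    exact Finset.sum_le_sum fun i _ => Nat.mul_le_mul_right _ (ext_le e i)
  let c : (Fin k → Fin (m + 1)) → ℕ := fun e => n - 6 - ∑ i ∈ range k, ext e i * pr i
  have hms : ∀ e, (ms k (ext e) (c e)).sum + 6 = n := by
    intro e
    rw [ms_sum]
    have := hsum_le e
    simp only [c]
    omega
  have hdvd : ∀ e, 12 * q k (ext e) ∣ n.factorial := by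
    intro e
    have h1 := prod_dvd (ms k (ext e) (c e) + {1, 2, 3})
    have h2 : (ms k (ext e) (c e) + {1, 2, 3}).sum = n := by
      rw [Multiset.sum_add]
      simpa using hms e
    have h3 : ((ms k (ext e) (c e) + {1, 2, 3}).map Nat.factorial).prod = 12 * q k (ext e) := by
      rw [Multiset.map_add, Multiset.prod_add, ms_prod]
      have : ((({1, 2, 3} : Multiset ℕ)).map Nat.factorial).prod = 12 := by decide
      rw [this]; ring
    rwa [h2, h3] at h1
  let d : (Fin k → Fin (m + 1)) → ℕ := fun e => n.factorial / (12 * q k (ext e))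
  have hd : ∀ e, d e * (12 * q k (ext e)) = n.factorial := fun e => Nat.div_mul_cancel (hdvd e)
  have hdpos : ∀ e, 0 < d e := by
    intro e
    rcases Nat.eq_zero_or_pos (d e) with h0 | h0
    · have := hd e
      rw [h0, zero_mul] at this
      exact absurd this.symm (Nat.factorial_ne_zero n)
    · exact h0
  have hinj : Function.Injective (fun e => 4 * d e) := by
    intro e f hef
    simp only at hef
    have h1 : d e = d f := by omega
    have h2 : d e * (12 * q k (ext e)) = d e * (12 * q k (ext f)) := by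
      rw [hd e, h1, hd f]
    have h3 : 12 * q k (ext e) = 12 * q k (ext f) := Nat.eq_of_mul_eq_mul_left (hdpos e) h2
    have h4 : q k (ext e) = q k (ext f) := by omega
    have h5 := q_inj k (ext e) (ext f) h4
    funext i
    have h6 := h5 i.1 i.2
    simp only [ext, i.2, dif_pos] at h6
    exact Fin.ext h6
  have hcard : ((Finset.univ : Finset (Fin k → Fin (m + 1))).image (fun e => 4 * d e)).card
      = (m + 1) ^ k := by
    rw [Finset.card_image_of_injective _ hinj, Finset.card_univ]
    simp
  rw [← hcard]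
  unfold D
  rw [← Set.ncard_coe_finset]
  apply Set.ncard_le_ncard _ (finite_rep n)
  intro t ht
  rw [Finset.coe_image] at ht
  obtain ⟨e, _, rfl⟩ := ht
  rw [Set.mem_ofPred_eq]
  apply two_le_rep (d e) (hdpos e)
  apply three_mem (ms k (ext e) (c e)) (ms_pos _ _ _) (hms e)
  rw [ms_prod]
  exact hd e

/-- `D n ≤ C n`. -/
lemma D_le_C (n : ℕ) : (D n : ℤ) ≤ C n := by
  classical
  unfold C D
  have hfin := finite_rep n
  have hsupp : (Function.support fun t : ℕ => max ((rep n t : ℤ) - 1) 0) ⊆
      (hfin.toFinset : Set ℕ) := by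
    intro t ht
    rw [Function.mem_support] at ht
    rw [Set.Finite.coe_toFinset, Set.mem_ofPred_eq]
    by_contra hcon
    apply ht
    apply max_eq_right
    omega
  rw [finsum_eq_sum_of_support_subset _ hsupp, Set.ncard_eq_toFinset_card _ hfin]
  have h1 : (hfin.toFinset.card : ℤ) = ∑ t ∈ hfin.toFinset, 1 := by simp
  rw [h1]
  apply Finset.sum_le_sum
  intro t ht
  rw [Set.Finite.mem_toFinset, Set.mem_ofPred_eq] at ht
  apply le_max_of_le_left
  omega

/-- `D` grows faster than any power of `n`. -/
lemma D_superpoly (K : ℕ) : Tendsto (fun n : ℕ => (D n : ℝ) / (n : ℝ) ^ K) atTop atTop := by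
  set S : ℕ := ∑ i ∈ range (K + 1), pr i with hS
  have hSpos : 0 < S := by
    rw [hS]
    apply Finset.sum_pos (fun i _ => (pr_prime i).pos)
    exact ⟨0, by simp⟩
  have hSR : (0 : ℝ) < S := by exact_mod_cast hSpos
  have hlow : ∀ n : ℕ, 12 ≤ n → (n : ℝ) * (1 / (2 * S) ^ (K + 1)) ≤ (D n : ℝ) / (n : ℝ) ^ K := by
    intro n hn
    have hnpos : (0 : ℝ) < n := by exact_mod_cast (by omega : 0 < n)
    have h1 : ((n - 6) / S) * S + 6 ≤ n := by
      have := Nat.div_mul_le_self (n - 6) S
      omega
    have h2 := D_ge (K + 1) ((n - 6) / S) n h1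
    have h3 : ((n : ℝ) / (2 * S)) ≤ (((n - 6) / S + 1 : ℕ) : ℝ) := by
      have h4 : n - 6 < S * ((n - 6) / S + 1) := Nat.lt_mul_div_succ (n - 6) hSpos
      have h5 : n ≤ 2 * (n - 6) := by omega
      have h6 : n ≤ 2 * (S * ((n - 6) / S + 1)) := by omega
      rw [div_le_iff₀ (by positivity)]
      have h7 : (n : ℝ) ≤ ((2 * (S * ((n - 6) / S + 1)) : ℕ) : ℝ) := by exact_mod_cast h6
      push_cast at h7 ⊢
      linarith
    have h8 : ((n : ℝ) / (2 * S)) ^ (K + 1) ≤ (D n : ℝ) := by
      calc ((n : ℝ) / (2 * S)) ^ (K + 1) ≤ (((n - 6) / S + 1 : ℕ) : ℝ) ^ (K + 1) :=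
            pow_le_pow_left₀ (by positivity) h3 _
        _ ≤ (D n : ℝ) := by exact_mod_cast h2
    rw [le_div_iff₀ (by positivity)]
    refine le_trans (le_of_eq ?_) h8
    rw [div_pow, pow_succ (n : ℝ) K]
    ring
  have hlin : Tendsto (fun n : ℕ => (n : ℝ) * (1 / (2 * (S : ℝ)) ^ (K + 1))) atTop atTop :=
    Tendsto.atTop_mul_const (by positivity) tendsto_natCast_atTop_atTop
  refine tendsto_atTop_mono' atTop ?_ hlin
  filter_upwards [eventually_ge_atTop 12] with n hn
  exact hlow n hn

lemma C_superpoly (K : ℕ) : Tendsto (fun n : ℕ => (C n : ℝ) / (n : ℝ) ^ K) atTop atTop := by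
  refine tendsto_atTop_mono (fun n => ?_) (D_superpoly K)
  apply div_le_div_of_nonneg_right _ (by positivity)
  exact_mod_cast D_le_C n

/-- **Answer to Q1.** Both normalised sequences tend to infinity, so neither converges to a finite
limit and both limits superior are infinite; moreover `C(n)` and `D(n)` outgrow every power of `n`. -/
theorem result :
    Tendsto a atTop atTop ∧ Tendsto b atTop atTop ∧
      (∀ K : ℕ, Tendsto (fun n : ℕ => (C n : ℝ) / (n : ℝ) ^ K) atTop atTop) ∧
      (∀ K : ℕ, Tendsto (fun n : ℕ => (D n : ℝ) / (n : ℝ) ^ K) atTop atTop) := by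
  refine ⟨?_, ?_, C_superpoly, D_superpoly⟩
  · refine tendsto_atTop_mono' atTop ?_ (C_superpoly 3)
    filter_upwards [eventually_ge_atTop 2] with n hn
    have hn1 : (1 : ℝ) < n := by exact_mod_cast (by omega : 1 < n)
    have hlog : 0 < Real.log n := Real.log_pos hn1
    have hlogle : Real.log n ≤ n := by
      have := Real.log_le_sub_one_of_pos (by linarith : (0 : ℝ) < n)
      linarith
    have hC : (0 : ℝ) ≤ C n := by
      have h1 := D_le_C n
      have h2 : (0 : ℤ) ≤ C n := le_trans (by positivity) h1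
      exact_mod_cast h2
    unfold a
    apply div_le_div_of_nonneg_left hC (by positivity)
    calc (n : ℝ) ^ 2 * Real.log n ≤ (n : ℝ) ^ 2 * n := by gcongr
      _ = (n : ℝ) ^ 3 := by ring
  · refine tendsto_atTop_mono' atTop ?_ (D_superpoly 2)
    filter_upwards [eventually_ge_atTop 2] with n hn
    have hn1 : (1 : ℝ) < n := by exact_mod_cast (by omega : 1 < n)
    have hn0 : (0 : ℝ) < n := by linarith
    have hlog : 0 < Real.log n := Real.log_pos hn1
    have hlogle : Real.log n ≤ n := by
      have := Real.log_le_sub_one_of_pos (by linarith : (0 : ℝ) < n)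
      linarith
    unfold b
    apply div_le_div_of_nonneg_left (by positivity) (by positivity)
    calc (n : ℝ) ^ (3 / 2 : ℝ) * √(Real.log n) ≤ (n : ℝ) ^ (3 / 2 : ℝ) * √n := by
          gcongr
      _ = (n : ℝ) ^ (3 / 2 : ℝ) * (n : ℝ) ^ (1 / 2 : ℝ) := by rw [Real.sqrt_eq_rpow]
      _ = (n : ℝ) ^ (2 : ℝ) := by
          rw [← Real.rpow_add hn0]; norm_num
      _ = (n : ℝ) ^ 2 := by norm_num

end Pool.H24.MV.Diverge
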