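import Mathlib

/-!
# A bound for the solutions of `s(n) = ⌊n/2⌋` with few prime factors (MP_bdd3c1_nt): the proof
-/

set_option autoImplicit false

namespace Pool.H24.MV.FewPrimeFactors

/-- tangent inequality for `log (1 - 1 / y)` as a function of `log y` -/
theorem tangent (y u : ℝ) (hy : 1 < y) (hu : 1 < u) :
    (y - 1)⁻¹ * (Real.log y - Real.log u) ≤ Real.log (1 - 1 / y) - Real.log (1 - 1 / u) := by
  have hy0 : 0 < y := by linarith
  have hu0 : 0 < u := by linarith
  have hy1 : 0 < y - 1 := by linarith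
  have hu1 : 0 < u - 1 := by linarith
  have e1 : 1 - 1 / y = (y - 1) / y := by field_simp
  have e2 : 1 - 1 / u = (u - 1) / u := by field_simp
  rw [e1, e2, Real.log_div hy1.ne' hy0.ne', Real.log_div hu1.ne' hu0.ne']
  have hx1 : (u - 1) / (y - 1) ∈ Set.Ioi (0 : ℝ) := by rw [Set.mem_Ioi]; positivity
  have hx2 : (1 : ℝ) ∈ Set.Ioi (0 : ℝ) := by rw [Set.mem_Ioi]; norm_num
  have ha : 0 ≤ (y - 1) / y := by positivity
  have hb : 0 ≤ 1 / y := by positivity
  have hab : (y - 1) / y + 1 / y = 1 := by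
    field_simp
    ring
  have hc := strictConcaveOn_log_Ioi.concaveOn.2 hx1 hx2 ha hb hab
  simp only [smul_eq_mul, Real.log_one, mul_zero, add_zero, mul_one] at hc
  have e3 : (y - 1) / y * ((u - 1) / (y - 1)) + 1 / y = u / y := by
    field_simp
    ring
  rw [e3, Real.log_div hu1.ne' hy1.ne', Real.log_div hu0.ne' hy0.ne'] at hc
  -- `(y - 1) / y * (log (u - 1) - log (y - 1)) ≤ log u - log y`
  have h2 : (Real.log y - Real.log u) ≤ (y - 1) / y * (Real.log (y - 1) - Real.log (u - 1)) := by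
    linarith
  have h3 : (y - 1)⁻¹ * (Real.log y - Real.log u) * y ≤
      Real.log (y - 1) - Real.log (u - 1) := by
    have h4 := mul_le_mul_of_nonneg_left h2 (show 0 ≤ y / (y - 1) by positivity)
    have e5 : y / (y - 1) * ((y - 1) / y * (Real.log (y - 1) - Real.log (u - 1))) =
        Real.log (y - 1) - Real.log (u - 1) := by
      field_simp
    rw [e5] at h4
    calc (y - 1)⁻¹ * (Real.log y - Real.log u) * y = y / (y - 1) * (Real.log y - Real.log u) := by
          rw [div_eq_mul_inv]; ring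
      _ ≤ _ := h4
  have h6 : (y - 1)⁻¹ * (Real.log y - Real.log u) * y =
      (y - 1)⁻¹ * (Real.log y - Real.log u) + (Real.log y - Real.log u) := by
    field_simp
    ring
  linarith

theorem abel (c d : ℕ → ℝ) (r : ℕ) (hc : ∀ i j, i ≤ j → j < r → c j ≤ c i)
    (hd : ∀ j, j ≤ r → 0 ≤ ∑ i ∈ Finset.range j, d i) (j : ℕ) (hj : j ≤ r) :
    ∀ c' : ℝ, 0 ≤ c' → (∀ i < j, c' ≤ c i) →
      c' * ∑ i ∈ Finset.range j, d i ≤ ∑ i ∈ Finset.range j, c i * d i := by
  induction j with
  | zero => intro c' _ _; simp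
  | succ j ih =>
    intro c' h0 h1
    have h2 := ih (by omega) (c j) (h0.trans (h1 j (by omega))) (fun i hi => hc i j (by omega) (by omega))
    have h3 := hd (j + 1) hj
    rw [Finset.sum_range_succ] at h3 ⊢
    rw [Finset.sum_range_succ]
    have h4 := mul_le_mul_of_nonneg_right (h1 j (by omega)) h3
    nlinarith

/-- majorization -/
theorem major (y u : ℕ → ℝ) (r : ℕ) (hy : ∀ i < r, 1 < y i) (hu : ∀ i < r, 1 < u i)
    (hm : ∀ i j, i ≤ j → j < r → y i ≤ y j)
    (hp : ∀ j, j ≤ r → ∏ i ∈ Finset.range j, u i ≤ ∏ i ∈ Finset.range j, y i) :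
    ∏ i ∈ Finset.range r, (1 - 1 / u i) ≤ ∏ i ∈ Finset.range r, (1 - 1 / y i) := by
  have hfy : ∀ i ∈ Finset.range r, 0 < 1 - 1 / y i := by
    intro i hi
    have := hy i (Finset.mem_range.1 hi)
    rw [sub_pos, div_lt_one (by linarith)]
    exact this
  have hfu : ∀ i ∈ Finset.range r, 0 < 1 - 1 / u i := by
    intro i hi
    have := hu i (Finset.mem_range.1 hi)
    rw [sub_pos, div_lt_one (by linarith)]
    exact this
  rw [← Real.log_le_log_iff (Finset.prod_pos hfu) (Finset.prod_pos hfy),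
    Real.log_prod (fun i hi => (hfu i hi).ne'), Real.log_prod (fun i hi => (hfy i hi).ne')]
  have h1 : ∑ i ∈ Finset.range r, (y i - 1)⁻¹ * (Real.log (y i) - Real.log (u i)) ≤
      ∑ i ∈ Finset.range r, (Real.log (1 - 1 / y i) - Real.log (1 - 1 / u i)) :=
    Finset.sum_le_sum fun i hi => tangent _ _ (hy i (Finset.mem_range.1 hi))
      (hu i (Finset.mem_range.1 hi))
  have h2 := abel (fun i => (y i - 1)⁻¹) (fun i => Real.log (y i) - Real.log (u i)) r
    (fun i j hij hj => by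
      have h3 := hm i j hij hj
      have h4 := hy i (by omega)
      exact inv_anti₀ (by linarith) (by linarith))
    (fun j hj => by
      rw [Finset.sum_sub_distrib, ← Real.log_prod, ← Real.log_prod, sub_nonneg]
      · apply Real.log_le_log _ (hp j hj)
        apply Finset.prod_pos
        intro i hi
        have := hu i (lt_of_lt_of_le (Finset.mem_range.1 hi) hj)
        linarith
      · intro i hi
        have := hu i (lt_of_lt_of_le (Finset.mem_range.1 hi) hj)
        linarith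
      · intro i hi
        have := hy i (lt_of_lt_of_le (Finset.mem_range.1 hi) hj)
        linarith)
    r le_rfl 0 le_rfl
    (fun i hi => by
      have := hy i hi
      exact inv_nonneg.2 (by linarith))
  rw [zero_mul] at h2
  have h3 := h2.trans h1
  rw [Finset.sum_sub_distrib] at h3
  linarith

theorem prod_u (c : ℝ) (r : ℕ) :
    (c - 1) * ∏ i ∈ Finset.range r, (c ^ (2 ^ i) + 1) = c ^ (2 ^ r) - 1 := by
  induction r with
  | zero => simp
  | succ r ih =>
    rw [Finset.prod_range_succ, ← mul_assoc, ih, pow_succ 2 r, pow_mul]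
    ring

theorem prod_u' (c : ℝ) (r : ℕ) :
    c * ∏ i ∈ Finset.range r, c ^ (2 ^ i) = c ^ (2 ^ r) := by
  induction r with
  | zero => simp
  | succ r ih =>
    rw [Finset.prod_range_succ, ← mul_assoc, ih, pow_succ 2 r, pow_mul]
    ring

/-- sequence form -/
theorem pick_seq (y : ℕ → ℕ) (r a b : ℕ) (ha : 1 ≤ a) (hab : a < b) (hy : ∀ i < r, 2 ≤ y i)
    (hm : ∀ i j, i ≤ j → j < r → y i ≤ y j)
    (h : b * ∏ i ∈ Finset.range r, (y i - 1) ≤ a * ∏ i ∈ Finset.range r, y i) :
    ∃ j, 1 ≤ j ∧ j ≤ r ∧ a * ∏ i ∈ Finset.range j, y i + 1 ≤ (a + 1) ^ (2 ^ j) := by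
  by_contra hcon
  push Not at hcon
  have haR : (1 : ℝ) ≤ a := by exact_mod_cast ha
  have hc0 : (0 : ℝ) < (a : ℝ) + 1 := by linarith
  have hc1 : (1 : ℝ) < (a : ℝ) + 1 := by linarith
  have hpre : ∀ j, j ≤ r → ∏ i ∈ Finset.range j, (((a : ℝ) + 1) ^ (2 ^ i) + 1) ≤
      ∏ i ∈ Finset.range j, (y i : ℝ) := by
    intro j hj
    rcases Nat.eq_zero_or_pos j with h0 | h0
    · subst h0; simp
    have h1 := hcon j h0 hj
    have h2 : (((a + 1) ^ (2 ^ j) : ℕ) : ℝ) ≤ ((a * ∏ i ∈ Finset.range j, y i : ℕ) : ℝ) := by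
      exact_mod_cast Nat.lt_succ_iff.1 h1
    push_cast at h2
    have h3 := prod_u ((a : ℝ) + 1) j
    have h4 : (a : ℝ) * ∏ i ∈ Finset.range j, (((a : ℝ) + 1) ^ (2 ^ i) + 1) ≤
        a * ∏ i ∈ Finset.range j, (y i : ℝ) := by
      have e : (a : ℝ) + 1 - 1 = a := by ring
      rw [e] at h3
      linarith
    exact le_of_mul_le_mul_left h4 (by linarith)
  have hyR : ∀ i < r, (1 : ℝ) < y i := by
    intro i hi
    have := hy i hi
    exact_mod_cast (by omega : 1 < y i)
  have hmaj := major (fun i => (y i : ℝ)) (fun i => ((a : ℝ) + 1) ^ (2 ^ i) + 1) r hyR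
    (fun i _ => by
      have : 0 < ((a : ℝ) + 1) ^ (2 ^ i) := by positivity
      show 1 < ((a : ℝ) + 1) ^ (2 ^ i) + 1
      linarith)
    (fun i j hij hj => by exact_mod_cast hm i j hij hj) hpre
  -- the left side is `> a / (a + 1)`
  have hL : (a : ℝ) / (a + 1) < ∏ i ∈ Finset.range r, (1 - 1 / (((a : ℝ) + 1) ^ (2 ^ i) + 1)) := by
    have e1 : ∏ i ∈ Finset.range r, (1 - 1 / (((a : ℝ) + 1) ^ (2 ^ i) + 1)) =
        (∏ i ∈ Finset.range r, ((a : ℝ) + 1) ^ (2 ^ i)) /
          ∏ i ∈ Finset.range r, (((a : ℝ) + 1) ^ (2 ^ i) + 1) := by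
      rw [← Finset.prod_div_distrib]
      apply Finset.prod_congr rfl
      intro i _
      have : 0 < ((a : ℝ) + 1) ^ (2 ^ i) := by positivity
      field_simp
      ring
    rw [e1]
    have hpos : 0 < ∏ i ∈ Finset.range r, (((a : ℝ) + 1) ^ (2 ^ i) + 1) :=
      Finset.prod_pos fun i _ => by positivity
    rw [div_lt_div_iff₀ hc0 hpos]
    have h3 := prod_u ((a : ℝ) + 1) r
    have h4 := prod_u' ((a : ℝ) + 1) r
    have e : (a : ℝ) + 1 - 1 = a := by ring
    rw [e] at h3
    linarith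
  have hR : ∏ i ∈ Finset.range r, (1 - 1 / (y i : ℝ)) ≤ (a : ℝ) / b := by
    have e1 : ∏ i ∈ Finset.range r, (1 - 1 / (y i : ℝ)) =
        (∏ i ∈ Finset.range r, ((y i - 1 : ℕ) : ℝ)) / ∏ i ∈ Finset.range r, (y i : ℝ) := by
      rw [← Finset.prod_div_distrib]
      apply Finset.prod_congr rfl
      intro i hi
      have h5 := hyR i (Finset.mem_range.1 hi)
      have h6 := hy i (Finset.mem_range.1 hi)
      have h7 : (y i : ℝ) ≠ 0 := by linarith
      rw [Nat.cast_sub (by omega)]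
      field_simp
      push_cast
      ring
    rw [e1]
    have hpos : 0 < ∏ i ∈ Finset.range r, (y i : ℝ) :=
      Finset.prod_pos fun i hi => by
        have h5 := hyR i (Finset.mem_range.1 hi)
        linarith
    have hb0 : (0 : ℝ) < b := by exact_mod_cast (by omega : 0 < b)
    rw [div_le_div_iff₀ hpos hb0]
    have h8 : ((b * ∏ i ∈ Finset.range r, (y i - 1) : ℕ) : ℝ) ≤
        ((a * ∏ i ∈ Finset.range r, y i : ℕ) : ℝ) := by exact_mod_cast h
    rw [Nat.cast_mul, Nat.cast_mul, Nat.cast_prod, Nat.cast_prod] at h8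
    linarith
  have hab' : (a : ℝ) / b ≤ (a : ℝ) / (a + 1) := by
    apply div_le_div_of_nonneg_left (by linarith) hc0
    exact_mod_cast hab
  linarith

/-- enumeration of a finite set by increasing values of `x` -/
theorem enum (x : ℕ → ℕ) (n : ℕ) : ∀ X : Finset ℕ, X.card = n → ∃ f : ℕ → ℕ,
    (∀ i < n, f i ∈ X) ∧ (∀ i j, i < n → j < n → f i = f j → i = j) ∧
    (∀ i j, i ≤ j → j < n → x (f i) ≤ x (f j)) ∧ (Finset.range n).image f = X := by
  induction n with
  | zero =>
    intro X hX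
    refine ⟨id, fun i hi => absurd hi (by omega), fun i j hi => absurd hi (by omega),
      fun i j _ hj => absurd hj (by omega), ?_⟩
    rw [Finset.card_eq_zero] at hX
    rw [hX]
    rfl
  | succ n ih =>
    intro X hX
    have hne : X.Nonempty := Finset.card_pos.1 (by omega)
    obtain ⟨z, hz, hmax⟩ := Finset.exists_max_image X x hne
    obtain ⟨f, h1, h2, h3, h4⟩ := ih (X.erase z) (by rw [Finset.card_erase_of_mem hz, hX]; rfl)
    refine ⟨fun i => if i < n then f i else z, ?_, ?_, ?_, ?_⟩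
    · intro i hi
      by_cases h : i < n
      · simp only [h, if_true]
        exact Finset.mem_of_mem_erase (h1 i h)
      · simp only [h, if_false]
        exact hz
    · intro i j hi hj hij
      by_cases h : i < n <;> by_cases h' : j < n <;> simp only [h, h', if_true, if_false] at hij
      · exact h2 i j h h' hij
      · exact absurd hij (Finset.ne_of_mem_erase (h1 i h))
      · exact absurd hij.symm (Finset.ne_of_mem_erase (h1 j h'))
      · omega
    · intro i j hij hj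
      by_cases h : i < n <;> by_cases h' : j < n <;> simp only [h, h', if_true, if_false]
      · exact h3 i j hij h'
      · exact hmax _ (Finset.mem_of_mem_erase (h1 i h))
      · omega
      · exact le_rfl
    · rw [Finset.range_add_one, Finset.image_insert]
      have e1 : (Finset.range n).image (fun i => if i < n then f i else z) = X.erase z := by
        rw [← h4]
        apply Finset.image_congr
        intro i hi
        simp only [Finset.coe_range, Set.mem_Iio] at hi
        simp only [hi, if_true]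
      rw [e1]
      simp only [lt_irrefl, if_false]
      exact Finset.insert_erase hz

/-- set form -/
theorem pick (X : Finset ℕ) (x : ℕ → ℕ) (a b : ℕ) (ha : 1 ≤ a) (hab : a < b)
    (hx : ∀ i ∈ X, 2 ≤ x i) (h : b * ∏ i ∈ X, (x i - 1) ≤ a * ∏ i ∈ X, x i) :
    ∃ Y ⊆ X, Y.Nonempty ∧ a * ∏ i ∈ Y, x i + 1 ≤ (a + 1) ^ (2 ^ Y.card) := by
  obtain ⟨f, h1, h2, h3, h4⟩ := enum x X.card X rfl
  have hinj : ∀ j, j ≤ X.card → Set.InjOn f (Finset.range j : Finset ℕ) := by
    intro j hj i hi i' hi' hii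
    simp only [Finset.coe_range, Set.mem_Iio] at hi hi'
    exact h2 i i' (by omega) (by omega) hii
  have hprod : ∀ (F : ℕ → ℕ) (j : ℕ), j ≤ X.card →
      ∏ i ∈ (Finset.range j).image f, F i = ∏ i ∈ Finset.range j, F (f i) := by
    intro F j hj
    exact Finset.prod_image (hinj j hj)
  obtain ⟨j, hj1, hj2, hj3⟩ := pick_seq (fun i => x (f i)) X.card a b ha hab
    (fun i hi => hx _ (h1 i hi)) h3 (by
      have e1 := hprod (fun i => x i - 1) X.card le_rfl
      have e2 := hprod x X.card le_rfl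
      rw [h4] at e1 e2
      rw [← e1, ← e2]
      exact h)
  refine ⟨(Finset.range j).image f, ?_, ?_, ?_⟩
  · intro z hz
    obtain ⟨i, hi, rfl⟩ := Finset.mem_image.1 hz
    rw [Finset.mem_range] at hi
    exact h1 i (by omega)
  · exact ⟨f 0, Finset.mem_image.2 ⟨0, Finset.mem_range.2 (by omega), rfl⟩⟩
  · rw [hprod x j hj2, Finset.card_image_of_injOn (hinj j hj2), Finset.card_range]
    exact hj3

/-- the induction -/
theorem main (e g : ℕ → ℕ) (hg1 : ∀ p : ℕ, p.Prime → (p - 1) * g p = p ^ (e p + 1) - 1)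
    (hg2 : ∀ p : ℕ, p.Prime → p ^ e p ≤ g p) (N : ℕ) :
    ∀ (A B : ℕ) (Q T : Finset ℕ), T ⊆ Q → (∀ p ∈ Q, p.Prime) → (∀ p ∈ Q, ¬ p ∣ B) →
      (∀ p ∈ Q, 1 ≤ e p) → 1 ≤ A → A * ∏ p ∈ Q, g p + 1 = B * ∏ p ∈ Q, p ^ e p →
      2 * (Q \ T).card + T.card = N →
      B * ∏ p ∈ Q, p ^ e p ≤ (A * ∏ p ∈ T, p + 1) ^ (2 ^ N) := by
  induction N using Nat.strong_induction_on with
  | _ N ih =>
    intro A B Q T hTQ hpr hpB he hA heq hN
    have hppos : ∀ S : Finset ℕ, S ⊆ Q → 0 < ∏ p ∈ S, p ^ e p := fun S hS =>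
      Finset.prod_pos fun p hp => pow_pos (hpr p (hS hp)).pos _
    have hge : ∀ S : Finset ℕ, S ⊆ Q → ∏ p ∈ S, p ^ e p ≤ ∏ p ∈ S, g p := fun S hS =>
      Finset.prod_le_prod' fun p hp => hg2 p (hpr p (hS hp))
    have hAB : A < B := by
      have h1 := Nat.mul_le_mul_left A (hge Q (Finset.Subset.refl Q))
      have h2 : A * ∏ p ∈ Q, p ^ e p < B * ∏ p ∈ Q, p ^ e p := by omega
      exact lt_of_mul_lt_mul_right h2 (Nat.zero_le _)
    rcases Q.eq_empty_or_nonempty with hQ | hQ
    · subst hQ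
      have hT : T = ∅ := Finset.subset_empty.1 hTQ
      subst hT
      simp only [Finset.prod_empty, mul_one] at heq ⊢
      rw [← heq]
      exact Nat.le_self_pow (pow_ne_zero _ two_ne_zero) _
    -- the first inequality
    have F1 : B * ∏ p ∈ Q, (p - 1) ≤ A * ∏ p ∈ Q, p := by
      have h1 : A * ∏ p ∈ Q, (p ^ (e p + 1) - 1) + ∏ p ∈ Q, (p - 1) =
          (B * ∏ p ∈ Q, (p - 1)) * ∏ p ∈ Q, p ^ e p := by
        have h2 : ∏ p ∈ Q, (p ^ (e p + 1) - 1) = (∏ p ∈ Q, (p - 1)) * ∏ p ∈ Q, g p := by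
          rw [← Finset.prod_mul_distrib]
          exact Finset.prod_congr rfl fun p hp => (hg1 p (hpr p hp)).symm
        rw [h2]
        calc A * ((∏ p ∈ Q, (p - 1)) * ∏ p ∈ Q, g p) + ∏ p ∈ Q, (p - 1)
            = (A * ∏ p ∈ Q, g p + 1) * ∏ p ∈ Q, (p - 1) := by ring
          _ = _ := by rw [heq]; ring
      have h3 : ∏ p ∈ Q, (p ^ (e p + 1) - 1) ≤ (∏ p ∈ Q, p) * ∏ p ∈ Q, p ^ e p := by
        rw [← Finset.prod_mul_distrib]
        refine Finset.prod_le_prod' fun p _ => ?_
        rw [pow_succ, mul_comm]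
        exact Nat.sub_le _ _
      have h4 : ∏ p ∈ Q, (p - 1) < ∏ p ∈ Q, p ^ e p := by
        refine Finset.prod_lt_prod_of_nonempty (fun p hp => ?_) (fun p hp => ?_) hQ
        · have h5 := (hpr p hp).two_le
          omega
        have h5 := (hpr p hp).two_le
        have h6 : p ≤ p ^ e p := Nat.le_self_pow (by have := he p hp; omega) p
        omega
      have h5 : (B * ∏ p ∈ Q, (p - 1)) * ∏ p ∈ Q, p ^ e p <
          (A * ∏ p ∈ Q, p + 1) * ∏ p ∈ Q, p ^ e p := by
        rw [← h1, add_mul, one_mul, mul_assoc]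
        exact add_lt_add_of_le_of_lt (Nat.mul_le_mul_left A h3) h4
      exact Nat.lt_succ_iff.1 (lt_of_mul_lt_mul_right h5 (Nat.zero_le _))
    have hPT : 0 < ∏ p ∈ T, p := Finset.prod_pos fun p hp => (hpr p (hTQ hp)).pos
    have hφT : 0 < ∏ p ∈ T, (p - 1) := Finset.prod_pos fun p hp => by
      have := (hpr p (hTQ hp)).two_le
      omega
    rcases lt_or_ge (A * ∏ p ∈ T, p) (B * ∏ p ∈ T, (p - 1)) with hc | hc
    · -- case I
      have hpick := pick (Q \ T) (fun p => p) (A * ∏ p ∈ T, p) (B * ∏ p ∈ T, (p - 1))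
        (Nat.mul_pos hA hPT) hc
        (fun p hp => (hpr p (Finset.mem_sdiff.1 hp).1).two_le) (by
          rw [mul_assoc, mul_assoc, mul_comm (∏ p ∈ T, (p - 1)), Finset.prod_sdiff hTQ,
            mul_comm (∏ p ∈ T, p), Finset.prod_sdiff hTQ]
          exact F1)
      obtain ⟨Y, hY1, hY2, hY3⟩ := hpick
      have hdis : Disjoint T Y := by
        rw [Finset.disjoint_left]
        intro p hp hpY
        exact (Finset.mem_sdiff.1 (hY1 hpY)).2 hp
      have hYQ : Y ⊆ Q := fun p hp => (Finset.mem_sdiff.1 (hY1 hp)).1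
      have hYc : 0 < Y.card := Finset.card_pos.2 hY2
      have hc1 : (Q \ (T ∪ Y)).card + Y.card = (Q \ T).card := by
        have h6 : Q \ (T ∪ Y) = (Q \ T) \ Y := by
          ext p
          simp only [Finset.mem_sdiff, Finset.mem_union]
          tauto
        rw [h6]
        exact Finset.card_sdiff_add_card_eq_card hY1
      have hc2 : (T ∪ Y).card = T.card + Y.card := Finset.card_union_of_disjoint hdis
      have hlt : N - Y.card < N := by omega
      have h7 := ih (N - Y.card) hlt A B Q (T ∪ Y) (Finset.union_subset hTQ hYQ) hpr hpB he hA heq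
        (by omega)
      refine h7.trans ?_
      rw [Finset.prod_union hdis, ← mul_assoc]
      calc ((A * ∏ p ∈ T, p) * (∏ p ∈ Y, p) + 1) ^ (2 ^ (N - Y.card))
          ≤ ((A * ∏ p ∈ T, p + 1) ^ (2 ^ Y.card)) ^ (2 ^ (N - Y.card)) :=
            Nat.pow_le_pow_left hY3 _
        _ = (A * ∏ p ∈ T, p + 1) ^ (2 ^ N) := by
            rw [← pow_mul, ← pow_add]
            congr 2
            omega
    · -- case II
      have hTne : T.Nonempty := by
        rw [Finset.nonempty_iff_ne_empty]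
        rintro rfl
        simp only [Finset.prod_empty, mul_one] at hc
        omega
      have hne : A * ∏ p ∈ T, p ≠ B * ∏ p ∈ T, (p - 1) := by
        intro h
        obtain ⟨q, hq, hmax⟩ := Finset.exists_max_image T (fun p => p) hTne
        have hqp := hpr q (hTQ hq)
        have h1 : q ∣ B * ∏ p ∈ T, (p - 1) := by
          rw [← h]
          exact Dvd.dvd.mul_left (Finset.dvd_prod_of_mem _ hq) A
        rcases (Nat.Prime.dvd_mul hqp).1 h1 with h2 | h2
        · exact hpB q (hTQ hq) h2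
        · obtain ⟨r, hr, hqr⟩ := (Prime.dvd_finsetProd_iff hqp.prime _).1 h2
          have h3 := hmax r hr
          have h4 := (hpr r (hTQ hr)).two_le
          have h5 := Nat.le_of_dvd (by omega) hqr
          have h6 : r ≤ q := h3
          omega
      have hZ : B * ∏ p ∈ T, (p - 1) + 1 ≤ A * ∏ p ∈ T, p := by omega
      have hBφ : 2 ≤ B * ∏ p ∈ T, (p - 1) := by
        have h1 : 2 ≤ B := by omega
        exact h1.trans (Nat.le_mul_of_pos_right B hφT)
      -- `A ∏_T g < B ∏_T p ^ e`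
      have h1 : A * ∏ p ∈ T, g p < B * ∏ p ∈ T, p ^ e p := by
        have h2 : (∏ p ∈ Q \ T, g p) * ∏ p ∈ T, g p = ∏ p ∈ Q, g p := Finset.prod_sdiff hTQ
        have h3 : (∏ p ∈ Q \ T, p ^ e p) * ∏ p ∈ T, p ^ e p = ∏ p ∈ Q, p ^ e p :=
          Finset.prod_sdiff hTQ
        have h4 := hge (Q \ T) Finset.sdiff_subset
        have h5 : (A * ∏ p ∈ T, g p) * ∏ p ∈ Q \ T, p ^ e p <
            (B * ∏ p ∈ T, p ^ e p) * ∏ p ∈ Q \ T, p ^ e p := by
          calc (A * ∏ p ∈ T, g p) * ∏ p ∈ Q \ T, p ^ e p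
              ≤ (A * ∏ p ∈ T, g p) * ∏ p ∈ Q \ T, g p := Nat.mul_le_mul_left _ h4
            _ = A * ∏ p ∈ Q, g p := by rw [← h2]; ring
            _ < A * ∏ p ∈ Q, g p + 1 := Nat.lt_succ_self _
            _ = B * ∏ p ∈ Q, p ^ e p := heq
            _ = _ := by rw [← h3]; ring
        exact lt_of_mul_lt_mul_right h5 (Nat.zero_le _)
      have h2 : (A * ∏ p ∈ T, p) * ∏ p ∈ T, (p ^ (e p + 1) - 1) ≤
          (A * ∏ p ∈ T, p - 1) * ∏ p ∈ T, p ^ (e p + 1) := by
        have h3 : ∏ p ∈ T, (p ^ (e p + 1) - 1) = (∏ p ∈ T, (p - 1)) * ∏ p ∈ T, g p := by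
          rw [← Finset.prod_mul_distrib]
          exact Finset.prod_congr rfl fun p hp => (hg1 p (hpr p (hTQ hp))).symm
        have h4 : ∏ p ∈ T, p ^ (e p + 1) = (∏ p ∈ T, p ^ e p) * ∏ p ∈ T, p := by
          rw [← Finset.prod_mul_distrib]
          exact Finset.prod_congr rfl fun p _ => pow_succ p (e p)
        rw [h3, h4]
        calc (A * ∏ p ∈ T, p) * ((∏ p ∈ T, (p - 1)) * ∏ p ∈ T, g p)
            = (A * ∏ p ∈ T, g p) * ((∏ p ∈ T, (p - 1)) * ∏ p ∈ T, p) := by ring
          _ ≤ (B * ∏ p ∈ T, p ^ e p) * ((∏ p ∈ T, (p - 1)) * ∏ p ∈ T, p) :=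
              Nat.mul_le_mul_right _ h1.le
          _ = (B * ∏ p ∈ T, (p - 1)) * ((∏ p ∈ T, p ^ e p) * ∏ p ∈ T, p) := by ring
          _ ≤ _ := Nat.mul_le_mul_right _ (by omega)
      have hpick := pick T (fun p => p ^ (e p + 1)) (A * ∏ p ∈ T, p - 1) (A * ∏ p ∈ T, p)
        (by omega) (by omega)
        (fun p hp => by
          have h5 := (hpr p (hTQ hp)).two_le
          exact h5.trans (Nat.le_self_pow (Nat.succ_ne_zero _) p)) h2
      obtain ⟨Y, hY1, hY2, hY3⟩ := hpick
      have hZ1 : A * ∏ p ∈ T, p - 1 + 1 = A * ∏ p ∈ T, p := by omega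
      rw [hZ1] at hY3
      have hYQ : Y ⊆ Q := hY1.trans hTQ
      have hYc : 0 < Y.card := Finset.card_pos.2 hY2
      have hc1 : (Q \ Y) \ (T \ Y) = Q \ T := by
        ext p
        simp only [Finset.mem_sdiff]
        constructor
        · rintro ⟨⟨h5, h6⟩, h7⟩
          exact ⟨h5, fun h8 => h7 ⟨h8, h6⟩⟩
        · rintro ⟨h5, h6⟩
          exact ⟨⟨h5, fun h7 => h6 (hY1 h7)⟩, fun h7 => h6 h7.1⟩
      have hc2 : (T \ Y).card + Y.card = T.card := Finset.card_sdiff_add_card_eq_card hY1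
      have hlt : N - Y.card < N := by omega
      have h7 := ih (N - Y.card) hlt (A * ∏ p ∈ Y, g p) (B * ∏ p ∈ Y, p ^ e p) (Q \ Y) (T \ Y)
        (Finset.sdiff_subset_sdiff hTQ (Finset.Subset.refl Y))
        (fun p hp => hpr p (Finset.mem_sdiff.1 hp).1)
        (by
          intro p hp hd
          have hpp := hpr p (Finset.mem_sdiff.1 hp).1
          rcases (Nat.Prime.dvd_mul hpp).1 hd with h8 | h8
          · exact hpB p (Finset.mem_sdiff.1 hp).1 h8
          · obtain ⟨r, hr, hpr'⟩ := (Prime.dvd_finsetProd_iff hpp.prime _).1 h8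
            have h9 := hpp.dvd_of_dvd_pow hpr'
            have h10 := (Nat.prime_dvd_prime_iff_eq hpp (hpr r (hYQ hr))).1 h9
            exact (Finset.mem_sdiff.1 hp).2 (h10 ▸ hr))
        (fun p hp => he p (Finset.mem_sdiff.1 hp).1)
        (Nat.mul_pos hA (Finset.prod_pos fun p hp => by
          have h8 := hg2 p (hpr p (hYQ hp))
          have h9 := pow_pos (hpr p (hYQ hp)).pos (e p)
          omega))
        (by
          rw [mul_assoc, mul_assoc, mul_comm (∏ p ∈ Y, g p), Finset.prod_sdiff hYQ,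
            mul_comm (∏ p ∈ Y, p ^ e p), Finset.prod_sdiff hYQ]
          exact heq)
        (by rw [hc1]; omega)
      have h8 : B * ∏ p ∈ Q, p ^ e p = B * (∏ p ∈ Y, p ^ e p) * ∏ p ∈ Q \ Y, p ^ e p := by
        rw [mul_assoc, mul_comm (∏ p ∈ Y, p ^ e p), Finset.prod_sdiff hYQ]
      rw [h8]
      refine h7.trans ?_
      -- the new `Z`
      have h9 : A * (∏ p ∈ Y, g p) * (∏ p ∈ T \ Y, p) ≤
          (A * ∏ p ∈ T, p - 1) * ∏ p ∈ Y, p ^ (e p + 1) := by
        have h10 : (∏ p ∈ T \ Y, p) * ∏ p ∈ Y, p = ∏ p ∈ T, p := Finset.prod_sdiff hY1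
        have h11 : ∏ p ∈ Y, (p ^ (e p + 1) - 1) = (∏ p ∈ Y, (p - 1)) * ∏ p ∈ Y, g p := by
          rw [← Finset.prod_mul_distrib]
          exact Finset.prod_congr rfl fun p hp => (hg1 p (hpr p (hYQ hp))).symm
        have h12 : 2 ≤ (∏ p ∈ Y, (p - 1)) * ∏ p ∈ Y, p := by
          obtain ⟨q, hq⟩ := hY2
          have h13 : 0 < ∏ p ∈ Y, (p - 1) := Finset.prod_pos fun p hp => by
            have := (hpr p (hYQ hp)).two_le
            omega
          have h14 : q ≤ ∏ p ∈ Y, p := Nat.le_of_dvd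
            (Finset.prod_pos fun p hp => (hpr p (hYQ hp)).pos) (Finset.dvd_prod_of_mem _ hq)
          have h15 := (hpr q (hYQ hq)).two_le
          calc 2 ≤ ∏ p ∈ Y, p := h15.trans h14
            _ ≤ _ := Nat.le_mul_of_pos_left _ h13
        have h16 : ∏ p ∈ Y, (p ^ (e p + 1) - 1) ≤ ∏ p ∈ Y, p ^ (e p + 1) :=
          Finset.prod_le_prod' fun p _ => Nat.sub_le _ _
        have h17 : (A * (∏ p ∈ Y, g p) * (∏ p ∈ T \ Y, p)) * ((∏ p ∈ Y, (p - 1)) * ∏ p ∈ Y, p) ≤
            ((A * ∏ p ∈ T, p - 1) * ∏ p ∈ Y, p ^ (e p + 1)) *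
              ((∏ p ∈ Y, (p - 1)) * ∏ p ∈ Y, p) := by
          calc (A * (∏ p ∈ Y, g p) * (∏ p ∈ T \ Y, p)) * ((∏ p ∈ Y, (p - 1)) * ∏ p ∈ Y, p)
              = (A * ∏ p ∈ T, p) * ∏ p ∈ Y, (p ^ (e p + 1) - 1) := by
                rw [h11, ← h10]; ring
            _ ≤ (2 * (A * ∏ p ∈ T, p - 1)) * ∏ p ∈ Y, p ^ (e p + 1) :=
                Nat.mul_le_mul (by omega) h16
            _ = ((A * ∏ p ∈ T, p - 1) * ∏ p ∈ Y, p ^ (e p + 1)) * 2 := by ring
            _ ≤ _ := Nat.mul_le_mul_left _ h12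
        exact le_of_mul_le_mul_right h17 (by omega)
      calc (A * (∏ p ∈ Y, g p) * (∏ p ∈ T \ Y, p) + 1) ^ (2 ^ (N - Y.card))
          ≤ ((A * ∏ p ∈ T, p) ^ (2 ^ Y.card)) ^ (2 ^ (N - Y.card)) :=
            Nat.pow_le_pow_left ((Nat.succ_le_succ h9).trans hY3) _
        _ = (A * ∏ p ∈ T, p) ^ (2 ^ N) := by
            rw [← pow_mul, ← pow_add]
            congr 2
            omega
        _ ≤ _ := Nat.pow_le_pow_left (Nat.le_succ _) _

/-- the only even solution is `2` -/
theorem odd_of (n : ℕ) (hn : 0 < n) (h2 : n ≠ 2) (h : ∑ d ∈ n.properDivisors, d = n / 2) :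
    Odd n := by
  rcases Nat.even_or_odd n with he | ho
  · exfalso
    obtain ⟨m, hm⟩ := he
    have hm1 : 1 < m := by omega
    have hsub : ({1, m} : Finset ℕ) ⊆ n.properDivisors := by
      intro x hx
      simp only [Finset.mem_insert, Finset.mem_singleton] at hx
      rw [Nat.mem_properDivisors]
      rcases hx with rfl | rfl
      · exact ⟨one_dvd _, by omega⟩
      · exact ⟨⟨2, by omega⟩, by omega⟩
    have h1 := Finset.sum_le_sum_of_subset (f := fun d : ℕ => d) hsub
    rw [Finset.sum_pair (by omega)] at h1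
    omega
  · exact ho

/-- the equation in terms of `S = σ(n)` -/
theorem eqn (n : ℕ) (ho : Odd n) (h : ∑ d ∈ n.properDivisors, d = n / 2) :
    2 * (∑ d ∈ n.divisors, d) + 1 = 3 * n := by
  have h1 := Nat.sum_divisors_eq_sum_properDivisors_add_self (n := n)
  obtain ⟨k, hk⟩ := ho
  omega

theorem result (n : ℕ) (hn : 0 < n) (h2 : n ≠ 2) (h : ∑ d ∈ n.properDivisors, d = n / 2) :
    n < 3 ^ ((n.factorization 3 + 1) * 4 ^ (n.primeFactors.erase 3).card) := by
  have ho := odd_of n hn h2 h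
  have hS := eqn n ho h
  have hsplit : ∀ F : ℕ → ℕ, (3 ∉ n.primeFactors → F 3 = 1) →
      ∏ p ∈ n.primeFactors, F p = F 3 * ∏ p ∈ n.primeFactors.erase 3, F p := by
    intro F hF
    by_cases h3 : 3 ∈ n.primeFactors
    · exact (Finset.mul_prod_erase _ _ h3).symm
    · rw [Finset.erase_eq_of_notMem h3, hF h3, one_mul]
  have h30 : 3 ∉ n.primeFactors → n.factorization 3 = 0 := by
    intro h3
    rw [← Nat.support_factorization, Finsupp.notMem_support_iff] at h3
    exact h3
  have hσ : ∑ d ∈ n.divisors, d = (∑ k ∈ Finset.range (n.factorization 3 + 1), 3 ^ k) *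
      ∏ p ∈ n.primeFactors.erase 3, ∑ k ∈ Finset.range (n.factorization p + 1), p ^ k := by
    rw [Nat.sum_divisors hn.ne']
    apply hsplit (fun p => ∑ k ∈ Finset.range (n.factorization p + 1), p ^ k)
    intro h3
    show ∑ k ∈ Finset.range (n.factorization 3 + 1), 3 ^ k = 1
    rw [h30 h3]
    simp
  have hnn : n = 3 ^ n.factorization 3 * ∏ p ∈ n.primeFactors.erase 3, p ^ n.factorization p := by
    have h4 : ∏ p ∈ n.primeFactors, p ^ n.factorization p = n :=
      Nat.prod_factorization_pow_eq_self hn.ne'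
    have h5 := hsplit (fun p => p ^ n.factorization p) (by
      intro h3
      show 3 ^ n.factorization 3 = 1
      rw [h30 h3, pow_zero])
    rw [h4] at h5
    exact h5
  obtain ⟨a, ha⟩ : ∃ a, a = n.factorization 3 := ⟨_, rfl⟩
  obtain ⟨P, hP⟩ : ∃ P, P = ∏ p ∈ n.primeFactors.erase 3, p ^ n.factorization p := ⟨_, rfl⟩
  obtain ⟨R, hR⟩ : ∃ R, R = ∏ p ∈ n.primeFactors.erase 3,
    ∑ k ∈ Finset.range (n.factorization p + 1), p ^ k := ⟨_, rfl⟩
  have hG : (∑ k ∈ Finset.range (a + 1), 3 ^ k) * 2 + 1 = 3 ^ (a + 1) := by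
    have := Nat.geomSum_eq (le_refl 2 |>.trans (by norm_num : 2 ≤ 3)) (a + 1)
    have h6 := Nat.one_le_pow (a + 1) 3 (by norm_num)
    have h7 : 2 ∣ 3 ^ (a + 1) - 1 := by
      have h8 : 3 ^ (a + 1) % 2 = 1 := by rw [Nat.pow_mod]; norm_num
      omega
    rw [this]
    omega
  have hpos : 1 ≤ ∑ k ∈ Finset.range (a + 1), 3 ^ k := by
    by_contra hc
    have h9 : ∑ k ∈ Finset.range (a + 1), 3 ^ k = 0 := by omega
    rw [h9] at hG
    have h10 : 3 ≤ 3 ^ (a + 1) := Nat.le_self_pow (by omega) 3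
    omega
  have hmain := main (fun p => n.factorization p)
    (fun p => ∑ k ∈ Finset.range (n.factorization p + 1), p ^ k)
    (fun p hp => by
      have h11 := Nat.geomSum_eq hp.two_le (n.factorization p + 1)
      have h12 := Nat.sub_one_dvd_pow_sub_one p (n.factorization p + 1)
      show (p - 1) * _ = _
      rw [h11]
      exact Nat.mul_div_cancel' h12)
    (fun p _ => Finset.single_le_sum (f := fun k => p ^ k) (fun _ _ => Nat.zero_le _)
      (Finset.mem_range.2 (Nat.lt_succ_self _)))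
    (2 * (n.primeFactors.erase 3).card)
    ((∑ k ∈ Finset.range (a + 1), 3 ^ k) * 2) (3 ^ (a + 1)) (n.primeFactors.erase 3) ∅
    (Finset.empty_subset _)
    (fun p hp => Nat.prime_of_mem_primeFactors (Finset.mem_of_mem_erase hp))
    (fun p hp hd => by
      have hpp := Nat.prime_of_mem_primeFactors (Finset.mem_of_mem_erase hp)
      exact Finset.ne_of_mem_erase hp
        ((Nat.prime_dvd_prime_iff_eq hpp Nat.prime_three).1 (hpp.dvd_of_dvd_pow hd)))
    (fun p hp => by
      have h13 := Finset.mem_of_mem_erase hp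
      rw [← Nat.support_factorization, Finsupp.mem_support_iff] at h13
      show 1 ≤ n.factorization p
      omega)
    (by omega)
    (by
      show (∑ k ∈ Finset.range (a + 1), 3 ^ k) * 2 * ∏ p ∈ n.primeFactors.erase 3,
        (∑ k ∈ Finset.range (n.factorization p + 1), p ^ k) + 1 =
        3 ^ (a + 1) * ∏ p ∈ n.primeFactors.erase 3, p ^ n.factorization p
      rw [← hR, ← hP]
      rw [hσ, ← ha, ← hR] at hS
      rw [← hP, ← ha] at hnn
      calc (∑ k ∈ Finset.range (a + 1), 3 ^ k) * 2 * R + 1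
          = 2 * ((∑ k ∈ Finset.range (a + 1), 3 ^ k) * R) + 1 := by ring
        _ = 3 * n := hS
        _ = 3 * (3 ^ a * P) := by rw [← hnn]
        _ = 3 ^ (a + 1) * P := by ring)
    (by simp)
  simp only [Finset.prod_empty, mul_one] at hmain
  rw [hG, ← hP] at hmain
  rw [← hP, ← ha] at hnn
  rw [← ha]
  have hlt : n < 3 ^ (a + 1) * P := by
    calc n < 3 * n := by omega
      _ = 3 * (3 ^ a * P) := by rw [← hnn]
      _ = 3 ^ (a + 1) * P := by ring
  refine lt_of_lt_of_le hlt (hmain.trans (le_of_eq ?_))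
  rw [← pow_mul, pow_mul 2 2]
  norm_num

end Pool.H24.MV.FewPrimeFactors
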