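import Mathlib

/-!
# A counterexample to extending partially `p`-periodic polynomial sequences off a quadric: definitions of the statement
-/

open scoped Manifold ContDiff commutatorElement

namespace Pool.H24.MV.NoExtension

noncomputable section

/-- An `s`-step filtered nilmanifold `G/Γ`: a connected and simply connected nilpotent real
Lie group `G` of finite dimension, a discrete cocompact subgroup `Γ`, and a filtration
`G = G_0 = G_1 ⊇ G_2 ⊇ ...` by closed connected subgroups, rational for `Γ`, with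
`[G_i, G_j] ⊆ G_(i+j)` and `G_(s+1)` trivial. -/
structure FilteredNilmanifold (s : ℕ) where
  /-- the vector space on which the Lie group is modelled -/
  E : Type
  [normedE : NormedAddCommGroup E]
  [spaceE : NormedSpace ℝ E]
  [finE : FiniteDimensional ℝ E]
  /-- the Lie group -/
  G : Type
  [group : Group G]
  [top : TopologicalSpace G]
  [t2 : T2Space G]
  [secondCountable : SecondCountableTopology G]
  [charted : ChartedSpace E G]
  [lie : LieGroup 𝓘(ℝ, E) ∞ G]
  [connected : ConnectedSpace G]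
  [simplyConnected : SimplyConnectedSpace G]
  nilpotent : Group.IsNilpotent G
  /-- the lattice -/
  Γ : Subgroup G
  discrete : DiscreteTopology Γ
  cocompact : CompactSpace (G ⧸ Γ)
  /-- the filtration -/
  Fil : ℕ → Subgroup G
  fil_zero : Fil 0 = ⊤
  fil_one : Fil 1 = ⊤
  fil_anti : ∀ i, Fil (i + 1) ≤ Fil i
  fil_comm : ∀ i j, ⁅Fil i, Fil j⁆ ≤ Fil (i + j)
  fil_last : Fil (s + 1) = ⊥
  fil_closed : ∀ i, IsClosed (Fil i : Set G)
  fil_connected : ∀ i, IsConnected (Fil i : Set G)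
  /-- rationality: `Γ ∩ G_i` is cocompact in `G_i` -/
  fil_rational : ∀ i, CompactSpace (Fil i ⧸ Γ.subgroupOf (Fil i))

attribute [instance] FilteredNilmanifold.normedE FilteredNilmanifold.spaceE
  FilteredNilmanifold.finE FilteredNilmanifold.group FilteredNilmanifold.top
  FilteredNilmanifold.t2 FilteredNilmanifold.secondCountable FilteredNilmanifold.charted
  FilteredNilmanifold.lie FilteredNilmanifold.connected FilteredNilmanifold.simplyConnected

/-- `Δ_h f (n) = f (n + h) * f (n)⁻¹`. -/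
def del {d : ℕ} {G : Type} [Group G] (h : Fin d → ℤ) (f : (Fin d → ℤ) → G) :
    (Fin d → ℤ) → G :=
  fun n => f (n + h) * (f n)⁻¹

/-- `f` is a polynomial sequence: `Δ_(h_m) ⋯ Δ_(h_1) f (n) ∈ G_m` for all `m`, `h_i`, `n`. -/
def IsPolySeq {s d : ℕ} (X : FilteredNilmanifold s) (f : (Fin d → ℤ) → X.G) : Prop :=
  ∀ (L : List (Fin d → ℤ)) (n : Fin d → ℤ), (L.foldr del f) n ∈ X.Fil L.length

/-- The map `τ` from `𝔽_p^d` to `{0, ..., p-1}^d ⊆ ℤ^d`. -/
def tau {p d : ℕ} (n : Fin d → ZMod p) : Fin d → ℤ := fun i => ((n i).val : ℤ)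

/-- `poly_p(Ω → G_ℕ | Γ)`: the maps `f ∘ τ`, where `f` is a polynomial sequence with
`f(n + p m)⁻¹ f(n) ∈ Γ` for all `n ∈ τ(Ω) + p ℤ^d` and all `m ∈ ℤ^d`. -/
def polyP {s : ℕ} (X : FilteredNilmanifold s) (p d : ℕ) (Ω : Set (Fin d → ZMod p)) :
    Set ((Fin d → ZMod p) → X.G) :=
  {g | ∃ f : (Fin d → ℤ) → X.G, IsPolySeq X f ∧
    (∀ n ∈ Ω, ∀ a m : Fin d → ℤ,
      (f (tau n + (p : ℤ) • a + (p : ℤ) • m))⁻¹ * f (tau n + (p : ℤ) • a) ∈ X.Γ) ∧
    g = fun n => f (tau n)}

/-- A quadratic form `M(n) = (nA)·n + n·u + v` on `𝔽_p^d` with `A` symmetric. -/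
structure QForm (p d : ℕ) where
  A : Matrix (Fin d) (Fin d) (ZMod p)
  symm : A.IsSymm
  u : Fin d → ZMod p
  v : ZMod p

/-- The value `M(n)`. -/
def QForm.eval {p d : ℕ} (M : QForm p d) (n : Fin d → ZMod p) : ZMod p :=
  (Matrix.vecMul n M.A) ⬝ᵥ n + n ⬝ᵥ M.u + M.v

/-- The zero set `V(M)`. -/
def QForm.V {p d : ℕ} (M : QForm p d) : Set (Fin d → ZMod p) := {n | M.eval n = 0}

end

end Pool.H24.MV.NoExtension
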