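import Mathlib
import Pool.Agent.H24.MV.NoExtensionDefs

/-!
# A counterexample to extending partially `p`-periodic polynomial sequences off a quadric: the proof
-/

open scoped Manifold ContDiff commutatorElement

namespace Pool.H24.MV.NoExtension

noncomputable section

attribute [instance] FilteredNilmanifold.normedE FilteredNilmanifold.spaceE
  FilteredNilmanifold.finE FilteredNilmanifold.group FilteredNilmanifold.top
  FilteredNilmanifold.t2 FilteredNilmanifold.secondCountable FilteredNilmanifold.charted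
  FilteredNilmanifold.lie FilteredNilmanifold.connected FilteredNilmanifold.simplyConnected

/-- The underlying space, with coordinates `(x₁, x₂, y₁, y₂, z)`. -/
def Heis : Type := ℝ × ℝ × ℝ × ℝ × ℝ

namespace Heis

/-- make an element from its coordinates -/
def mk (a b c d e : ℝ) : Heis := (a, b, c, d, e)

/-- coordinate -/
def x (g : Heis) : ℝ := Prod.fst (α := ℝ) (β := ℝ × ℝ × ℝ × ℝ) g

/-- coordinate -/
def x' (g : Heis) : ℝ := (Prod.snd (α := ℝ) (β := ℝ × ℝ × ℝ × ℝ) g).1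

/-- coordinate -/
def y (g : Heis) : ℝ := (Prod.snd (α := ℝ) (β := ℝ × ℝ × ℝ × ℝ) g).2.1

/-- coordinate -/
def y' (g : Heis) : ℝ := (Prod.snd (α := ℝ) (β := ℝ × ℝ × ℝ × ℝ) g).2.2.1

/-- coordinate -/
def z (g : Heis) : ℝ := (Prod.snd (α := ℝ) (β := ℝ × ℝ × ℝ × ℝ) g).2.2.2

@[simp] theorem x_mk (a b c d e : ℝ) : x (mk a b c d e) = a := rfl

@[simp] theorem x'_mk (a b c d e : ℝ) : x' (mk a b c d e) = b := rfl

@[simp] theorem y_mk (a b c d e : ℝ) : y (mk a b c d e) = c := rfl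

@[simp] theorem y'_mk (a b c d e : ℝ) : y' (mk a b c d e) = d := rfl

@[simp] theorem z_mk (a b c d e : ℝ) : z (mk a b c d e) = e := rfl

theorem ext {a b : Heis} (h1 : x a = x b) (h2 : x' a = x' b) (h3 : y a = y b)
    (h4 : y' a = y' b) (h5 : z a = z b) : a = b :=
  Prod.ext h1 (Prod.ext h2 (Prod.ext h3 (Prod.ext h4 h5)))

instance : TopologicalSpace Heis := inferInstanceAs (TopologicalSpace (ℝ × ℝ × ℝ × ℝ × ℝ))

instance : T2Space Heis := inferInstanceAs (T2Space (ℝ × ℝ × ℝ × ℝ × ℝ))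

instance : SecondCountableTopology Heis :=
  inferInstanceAs (SecondCountableTopology (ℝ × ℝ × ℝ × ℝ × ℝ))

instance : ChartedSpace (ℝ × ℝ × ℝ × ℝ × ℝ) Heis :=
  inferInstanceAs (ChartedSpace (ℝ × ℝ × ℝ × ℝ × ℝ) (ℝ × ℝ × ℝ × ℝ × ℝ))

instance : IsManifold 𝓘(ℝ, ℝ × ℝ × ℝ × ℝ × ℝ) ∞ Heis :=
  inferInstanceAs (IsManifold 𝓘(ℝ, ℝ × ℝ × ℝ × ℝ × ℝ) ∞ (ℝ × ℝ × ℝ × ℝ × ℝ))

instance : ContractibleSpace Heis := inferInstanceAs (ContractibleSpace (ℝ × ℝ × ℝ × ℝ × ℝ))

instance : ConnectedSpace Heis := inferInstanceAs (ConnectedSpace (ℝ × ℝ × ℝ × ℝ × ℝ))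

instance : Mul Heis := ⟨fun a b => mk (x a + x b) (x' a + x' b) (y a + y b) (y' a + y' b)
    (z a + z b + (x a * y b + x' a * y' b))⟩

instance : Inv Heis := ⟨fun a => mk (-x a) (-x' a) (-y a) (-y' a)
    (-z a + (x a * y a + x' a * y' a))⟩

instance : One Heis := ⟨mk 0 0 0 0 0⟩

@[simp] theorem x_mul (a b : Heis) : x (a * b) = x a + x b := rfl

@[simp] theorem x'_mul (a b : Heis) : x' (a * b) = x' a + x' b := rfl

@[simp] theorem y_mul (a b : Heis) : y (a * b) = y a + y b := rfl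

@[simp] theorem y'_mul (a b : Heis) : y' (a * b) = y' a + y' b := rfl

@[simp] theorem z_mul (a b : Heis) : z (a * b) = z a + z b + (x a * y b + x' a * y' b) := rfl

@[simp] theorem x_inv (a : Heis) : x a⁻¹ = -x a := rfl

@[simp] theorem x'_inv (a : Heis) : x' a⁻¹ = -x' a := rfl

@[simp] theorem y_inv (a : Heis) : y a⁻¹ = -y a := rfl

@[simp] theorem y'_inv (a : Heis) : y' a⁻¹ = -y' a := rfl

@[simp] theorem z_inv (a : Heis) : z a⁻¹ = -z a + (x a * y a + x' a * y' a) := rfl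

@[simp] theorem x_one : x (1 : Heis) = 0 := rfl

@[simp] theorem x'_one : x' (1 : Heis) = 0 := rfl

@[simp] theorem y_one : y (1 : Heis) = 0 := rfl

@[simp] theorem y'_one : y' (1 : Heis) = 0 := rfl

@[simp] theorem z_one : z (1 : Heis) = 0 := rfl

instance : Group Heis :=
  Group.ofLeftAxioms
    (by intro a b c; apply ext <;> simp <;> ring)
    (by intro a; apply ext <;> simp)
    (by intro a; apply ext <;> simp; ring)

instance : LieGroup 𝓘(ℝ, ℝ × ℝ × ℝ × ℝ × ℝ) ∞ Heis where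
  contMDiff_mul := by
    have key : ContDiff ℝ ∞ (fun p : (ℝ × ℝ × ℝ × ℝ × ℝ) × (ℝ × ℝ × ℝ × ℝ × ℝ) =>
        ((p.1.1 + p.2.1, p.1.2.1 + p.2.2.1, p.1.2.2.1 + p.2.2.2.1, p.1.2.2.2.1 + p.2.2.2.2.1,
    p.1.2.2.2.2 + p.2.2.2.2.2 + (p.1.1 * p.2.2.2.1 + p.1.2.1 * p.2.2.2.2.1)) :
       (ℝ × ℝ × ℝ × ℝ × ℝ))) := by
      fun_prop
    have := key.contMDiff
    rw [modelWithCornersSelf_prod, ← chartedSpaceSelf_prod] at this
    exact this
  contMDiff_inv := by
    have key : ContDiff ℝ ∞ (fun a : (ℝ × ℝ × ℝ × ℝ × ℝ) =>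
        ((-a.1, -a.2.1, -a.2.2.1, -a.2.2.2.1,
          -a.2.2.2.2 + (a.1 * a.2.2.1 + a.2.1 * a.2.2.2.1)) : (ℝ × ℝ × ℝ × ℝ × ℝ))) := by
      fun_prop
    exact key.contMDiff

theorem continuous_x : Continuous x := continuous_fst

theorem continuous_x' : Continuous x' := continuous_fst.comp continuous_snd

theorem continuous_y : Continuous y := continuous_fst.comp (continuous_snd.comp continuous_snd)

theorem continuous_y' : Continuous y' :=
  continuous_fst.comp (continuous_snd.comp (continuous_snd.comp continuous_snd))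

theorem continuous_z : Continuous z :=
  continuous_snd.comp (continuous_snd.comp (continuous_snd.comp continuous_snd))

/-- The integer lattice. -/
def Latt : Subgroup Heis where
  carrier := {g | (∃ k : ℤ, x g = k) ∧ (∃ k : ℤ, x' g = k) ∧ (∃ k : ℤ, y g = k) ∧
    (∃ k : ℤ, y' g = k) ∧ (∃ k : ℤ, z g = k)}
  mul_mem' := by
    rintro a b ⟨⟨a1, h1⟩, ⟨a2, h2⟩, ⟨a3, h3⟩, ⟨a4, h4⟩, ⟨a5, h5⟩⟩
      ⟨⟨b1, k1⟩, ⟨b2, k2⟩, ⟨b3, k3⟩, ⟨b4, k4⟩, ⟨b5, k5⟩⟩
    refine ⟨⟨a1 + b1, ?_⟩, ⟨a2 + b2, ?_⟩, ⟨a3 + b3, ?_⟩, ⟨a4 + b4, ?_⟩,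
      ⟨a5 + b5 + (a1 * b3 + a2 * b4), ?_⟩⟩ <;>
      simp [h1, h2, h3, h4, h5, k1, k2, k3, k4, k5]
  one_mem' := ⟨⟨0, by simp⟩, ⟨0, by simp⟩, ⟨0, by simp⟩, ⟨0, by simp⟩, ⟨0, by simp⟩⟩
  inv_mem' := by
    rintro a ⟨⟨a1, h1⟩, ⟨a2, h2⟩, ⟨a3, h3⟩, ⟨a4, h4⟩, ⟨a5, h5⟩⟩
    refine ⟨⟨-a1, ?_⟩, ⟨-a2, ?_⟩, ⟨-a3, ?_⟩, ⟨-a4, ?_⟩, ⟨-a5 + (a1 * a3 + a2 * a4), ?_⟩⟩ <;>
      simp [h1, h2, h3, h4, h5]

theorem mem_Latt {g : Heis} : g ∈ Latt ↔ (∃ k : ℤ, x g = k) ∧ (∃ k : ℤ, x' g = k) ∧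
    (∃ k : ℤ, y g = k) ∧ (∃ k : ℤ, y' g = k) ∧ (∃ k : ℤ, z g = k) := Iff.rfl

/-- The filtration: `G_0 = G_1 = G`, `G_2 = {x = 0}`, `G_3 = {x = y = 0}`, `G_i = 1` for
`i ≥ 4`. -/
def Fil (i : ℕ) : Subgroup Heis where
  carrier := {g | (2 ≤ i → x g = 0 ∧ x' g = 0) ∧ (3 ≤ i → y g = 0 ∧ y' g = 0) ∧
    (4 ≤ i → z g = 0)}
  mul_mem' := by
    rintro a b ⟨h1, h2, h3⟩ ⟨k1, k2, k3⟩
    refine ⟨fun hi => ?_, fun hi => ?_, fun hi => ?_⟩
    · simp [h1 hi, k1 hi]
    · simp [h2 hi, k2 hi]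
    · simp [h3 hi, k3 hi, h1 (by omega)]
  one_mem' := ⟨fun _ => by simp, fun _ => by simp, fun _ => by simp⟩
  inv_mem' := by
    rintro a ⟨h1, h2, h3⟩
    refine ⟨fun hi => ?_, fun hi => ?_, fun hi => ?_⟩
    · simp [h1 hi]
    · simp [h2 hi]
    · simp [h3 hi, h1 (by omega)]

theorem mem_Fil {i : ℕ} {g : Heis} : g ∈ Fil i ↔ (2 ≤ i → x g = 0 ∧ x' g = 0) ∧
    (3 ≤ i → y g = 0 ∧ y' g = 0) ∧ (4 ≤ i → z g = 0) := Iff.rfl

theorem fil_comm (i j : ℕ) : ⁅Fil i, Fil j⁆ ≤ Fil (i + j) := by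
  rw [Subgroup.commutator_le]
  rintro a ⟨h1, h2, h3⟩ b ⟨k1, k2, k3⟩
  have hx : x ⁅a, b⁆ = 0 := by simp [commutatorElement_def]
  have hx' : x' ⁅a, b⁆ = 0 := by simp [commutatorElement_def]
  have hy : y ⁅a, b⁆ = 0 := by simp [commutatorElement_def]
  have hy' : y' ⁅a, b⁆ = 0 := by simp [commutatorElement_def]
  refine ⟨fun _ => ⟨hx, hx'⟩, fun _ => ⟨hy, hy'⟩, fun hij => ?_⟩
  have hz : z ⁅a, b⁆ = x a * y b + x' a * y' b - (x b * y a + x' b * y' a) := by
    simp [commutatorElement_def]; ring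
  rw [hz]
  rcases Nat.lt_or_ge i 2 with hi | hi
  · -- `j ≥ 3`
    have hj : 3 ≤ j := by omega
    simp [k1 (by omega), k2 hj]
  · rcases Nat.lt_or_ge j 2 with hj | hj
    · simp [h1 hi, h2 (by omega)]
    · simp [h1 hi, k1 hj]

theorem fil_closed (i : ℕ) : IsClosed (Fil i : Set Heis) := by
  have h : (Fil i : Set Heis) = {g | 2 ≤ i → x g = 0 ∧ x' g = 0} ∩
      ({g | 3 ≤ i → y g = 0 ∧ y' g = 0} ∩ {g | 4 ≤ i → z g = 0}) := by
    ext g; exact Iff.rfl
  rw [h]
  refine IsClosed.inter ?_ (IsClosed.inter ?_ ?_)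
  · by_cases hi : 2 ≤ i
    · simp only [hi, true_imp_iff]
      exact (isClosed_eq continuous_x continuous_const).inter
        (isClosed_eq continuous_x' continuous_const)
    · simp [hi]
  · by_cases hi : 3 ≤ i
    · simp only [hi, true_imp_iff]
      exact (isClosed_eq continuous_y continuous_const).inter
        (isClosed_eq continuous_y' continuous_const)
    · simp [hi]
  · by_cases hi : 4 ≤ i
    · simp only [hi, true_imp_iff]
      exact isClosed_eq continuous_z continuous_const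
    · simp [hi]

theorem fil_connected (i : ℕ) : IsConnected (Fil i : Set Heis) := by
  have hconv : Convex ℝ ({g : ℝ × ℝ × ℝ × ℝ × ℝ | (2 ≤ i → g.1 = 0 ∧ g.2.1 = 0) ∧
      (3 ≤ i → g.2.2.1 = 0 ∧ g.2.2.2.1 = 0) ∧ (4 ≤ i → g.2.2.2.2 = 0)}) := by
    rintro a ⟨h1, h2, h3⟩ b ⟨k1, k2, k3⟩ s t _ _ _
    refine ⟨fun hi => ?_, fun hi => ?_, fun hi => ?_⟩
    · simp [h1 hi, k1 hi]
    · simp [h2 hi, k2 hi]
    · simp [h3 hi, k3 hi]
  refine ⟨⟨1, (Fil i).one_mem⟩, ?_⟩
  exact hconv.isPreconnected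

theorem eq_zero_of_abs_lt {k : ℤ} {r : ℝ} (h : r = k) (hr : |r| < 1) : r = 0 := by
  have h1 : |(k : ℝ)| < 1 := h ▸ hr
  have h2 : |k| < 1 := by exact_mod_cast h1
  have h3 : k = 0 := Int.abs_lt_one_iff.mp h2
  rw [h, h3]; simp

/-- Lattice points with all coordinates of absolute value less than one are trivial. -/
theorem lat_small {g : Heis} (hg : g ∈ Latt) (h1 : |x g| < 1) (h2 : |x' g| < 1)
    (h3 : |y g| < 1) (h4 : |y' g| < 1) (h5 : |z g| < 1) : g = 1 := by
  obtain ⟨⟨a1, k1⟩, ⟨a2, k2⟩, ⟨a3, k3⟩, ⟨a4, k4⟩, ⟨a5, k5⟩⟩ := hg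
  exact ext (eq_zero_of_abs_lt k1 h1) (eq_zero_of_abs_lt k2 h2) (eq_zero_of_abs_lt k3 h3)
    (eq_zero_of_abs_lt k4 h4) (eq_zero_of_abs_lt k5 h5)

instance : IsTopologicalGroup Heis := topologicalGroup_of_lieGroup 𝓘(ℝ, ℝ × ℝ × ℝ × ℝ × ℝ) ∞

/-- The open unit box around the identity. -/
def Box : Set Heis := {g | |x g| < 1} ∩ ({g | |x' g| < 1} ∩ ({g | |y g| < 1} ∩
  ({g | |y' g| < 1} ∩ {g | |z g| < 1})))

theorem isOpen_Box : IsOpen Box :=
  (isOpen_lt continuous_x.abs continuous_const).inter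
    ((isOpen_lt continuous_x'.abs continuous_const).inter
      ((isOpen_lt continuous_y.abs continuous_const).inter
        ((isOpen_lt continuous_y'.abs continuous_const).inter
          (isOpen_lt continuous_z.abs continuous_const))))

theorem discrete_Latt : DiscreteTopology Latt := by
  apply discreteTopology_of_isOpen_singleton_one
  have : ({1} : Set Latt) = (fun g : Latt => (g : Heis)) ⁻¹' Box := by
    ext g
    constructor
    · rintro rfl
      simp [Box]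
    · rintro ⟨h1, h2, h3, h4, h5⟩
      have := lat_small g.2 h1 h2 h3 h4 h5
      exact Subtype.ext this
  rw [this]
  exact isOpen_Box.preimage continuous_subtype_val

/-- The closed unit cube. -/
def Cube : Set Heis := {g | x g ∈ Set.Icc (0 : ℝ) 1 ∧ x' g ∈ Set.Icc (0 : ℝ) 1 ∧
  y g ∈ Set.Icc (0 : ℝ) 1 ∧ y' g ∈ Set.Icc (0 : ℝ) 1 ∧ z g ∈ Set.Icc (0 : ℝ) 1}

theorem isCompact_Cube : IsCompact Cube := by
  have h : IsCompact (Set.Icc (0 : ℝ) 1 ×ˢ (Set.Icc (0 : ℝ) 1 ×ˢ (Set.Icc (0 : ℝ) 1 ×ˢ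
      (Set.Icc (0 : ℝ) 1 ×ˢ Set.Icc (0 : ℝ) 1)))) :=
    isCompact_Icc.prod (isCompact_Icc.prod (isCompact_Icc.prod (isCompact_Icc.prod isCompact_Icc)))
  exact h

/-- Every element of `Fil i` can be moved to the unit cube by an element of `Latt ∩ Fil i`. -/
theorem reduce (i : ℕ) {g : Heis} (hg : g ∈ Fil i) :
    ∃ γ ∈ Latt, γ ∈ Fil i ∧ g * γ ∈ Cube := by
  obtain ⟨h1, h2, h3⟩ := hg
  set r : ℝ := z g - (x g * (⌊y g⌋ : ℝ) + x' g * (⌊y' g⌋ : ℝ)) with hr
  refine ⟨mk (-(⌊x g⌋ : ℝ)) (-(⌊x' g⌋ : ℝ)) (-(⌊y g⌋ : ℝ)) (-(⌊y' g⌋ : ℝ)) (-(⌊r⌋ : ℝ)),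
    ?_, ?_, ?_⟩
  · exact ⟨⟨-⌊x g⌋, by simp⟩, ⟨-⌊x' g⌋, by simp⟩, ⟨-⌊y g⌋, by simp⟩, ⟨-⌊y' g⌋, by simp⟩,
      ⟨-⌊r⌋, by simp⟩⟩
  · refine ⟨fun hi => ?_, fun hi => ?_, fun hi => ?_⟩
    · simp [h1 hi]
    · simp [h2 hi]
    · have hr0 : r = 0 := by simp [hr, h3 hi, h1 (by omega)]
      simp [hr0]
  · have key : ∀ t : ℝ, t + -(⌊t⌋ : ℝ) ∈ Set.Icc (0 : ℝ) 1 := fun t => by
      have := Int.floor_le t
      have := Int.lt_floor_add_one t
      constructor <;> linarith
    refine ⟨?_, ?_, ?_, ?_, ?_⟩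
    · simpa using key (x g)
    · simpa using key (x' g)
    · simpa using key (y g)
    · simpa using key (y' g)
    · have := key r
      simp only [z_mul, z_mk, y_mk, y'_mk]
      convert this using 1
      rw [hr]; ring

theorem fil_zero : Fil 0 = ⊤ := by
  ext g; simp [mem_Fil]

theorem fil_one : Fil 1 = ⊤ := by
  ext g; simp [mem_Fil]

theorem fil_bot {i : ℕ} (hi : 4 ≤ i) : Fil i = ⊥ := by
  ext g
  rw [mem_Fil, Subgroup.mem_bot]
  constructor
  · rintro ⟨h1, h2, h3⟩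
    exact ext (h1 (by omega)).1 (h1 (by omega)).2 (h2 (by omega)).1 (h2 (by omega)).2 (h3 hi)
  · rintro rfl
    simp

theorem fil_anti (i : ℕ) : Fil (i + 1) ≤ Fil i := by
  rintro g ⟨h1, h2, h3⟩
  exact ⟨fun hi => h1 (by omega), fun hi => h2 (by omega), fun hi => h3 (by omega)⟩

theorem fil_rational (i : ℕ) : CompactSpace (Fil i ⧸ Latt.subgroupOf (Fil i)) := by
  have hK : IsCompact {g : Fil i | (g : Heis) ∈ Cube} :=
    (fil_closed i).isClosedEmbedding_subtypeVal.isCompact_preimage isCompact_Cube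
  have himg : (QuotientGroup.mk (s := Latt.subgroupOf (Fil i))) '' {g : Fil i | (g : Heis) ∈ Cube}
      = Set.univ := by
    rw [Set.eq_univ_iff_forall]
    intro q
    obtain ⟨g, rfl⟩ := QuotientGroup.mk_surjective q
    obtain ⟨γ, hγ, hγi, hc⟩ := reduce i g.2
    refine ⟨g * ⟨γ, hγi⟩, hc, ?_⟩
    rw [QuotientGroup.eq]
    simp only [mul_inv_rev]
    rw [Subgroup.mem_subgroupOf]
    simpa using hγ
  constructor
  rw [← himg]
  exact hK.image continuous_quotient_mk'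

theorem cocompact_Latt : CompactSpace (Heis ⧸ Latt) := by
  have himg : (QuotientGroup.mk (s := Latt)) '' Cube = Set.univ := by
    rw [Set.eq_univ_iff_forall]
    intro q
    obtain ⟨g, rfl⟩ := QuotientGroup.mk_surjective q
    obtain ⟨γ, hγ, hγi, hc⟩ := reduce 0 (g := g) (by rw [fil_zero]; trivial)
    refine ⟨g * γ, hc, ?_⟩
    rw [QuotientGroup.eq]
    simpa using hγ
  constructor
  rw [← himg]
  exact isCompact_Cube.image continuous_quotient_mk'

theorem nilpotent : Group.IsNilpotent Heis := by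
  rw [Subgroup.nilpotent_iff_finite_descending_central_series]
  refine ⟨3, fun n => Fil (n + 1), ⟨fil_one, fun g n hg h => ?_⟩, fil_bot (by norm_num)⟩
  have h1 : h ∈ Fil 1 := by rw [fil_one]; trivial
  exact fil_comm (n + 1) 1 (Subgroup.commutator_mem_commutator hg h1)

end Heis

/-- The Heisenberg group with its lattice and filtration, as an `s`-step filtered nilmanifold
for any `s ≥ 3`. -/
def heisNil (s : ℕ) (hs : 3 ≤ s) : FilteredNilmanifold s where
  E := ℝ × ℝ × ℝ × ℝ × ℝ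
  G := Heis
  nilpotent := Heis.nilpotent
  Γ := Heis.Latt
  discrete := Heis.discrete_Latt
  cocompact := Heis.cocompact_Latt
  Fil := Heis.Fil
  fil_zero := Heis.fil_zero
  fil_one := Heis.fil_one
  fil_anti := Heis.fil_anti
  fil_comm := Heis.fil_comm
  fil_last := Heis.fil_bot (by omega)
  fil_closed := Heis.fil_closed
  fil_connected := Heis.fil_connected
  fil_rational := Heis.fil_rational

section Differences

variable {d : ℕ}

/-- `D h φ (n) = φ (n + h) - φ (n)`. -/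
def D (h : Fin d → ℤ) (φ : (Fin d → ℤ) → ℝ) : (Fin d → ℤ) → ℝ := fun n => φ (n + h) - φ n

theorem D_apply (h n : Fin d → ℤ) (φ : (Fin d → ℤ) → ℝ) : D h φ n = φ (n + h) - φ n := rfl

theorem D_comm (a b : Fin d → ℤ) (φ : (Fin d → ℤ) → ℝ) : D a (D b φ) = D b (D a φ) := by
  funext n
  simp only [D_apply]
  rw [add_right_comm]; ring

theorem D_add (a b n : Fin d → ℤ) (φ : (Fin d → ℤ) → ℝ) :
    D (a + b) φ n = D a φ (n + b) + D b φ n := by
  simp only [D_apply]
  rw [show n + (a + b) = n + b + a by abel]; ring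

/-- If all differences of `φ` vanish then `φ` is constant. -/
theorem const_of_D {φ : (Fin d → ℤ) → ℝ} (h : ∀ a n, D a φ n = 0) (n : Fin d → ℤ) :
    φ n = φ 0 := by
  have := h n 0
  rw [D_apply, zero_add] at this
  linarith

/-- affine functions: the linear part is additive -/
def lin (φ : (Fin d → ℤ) → ℝ) (h2 : ∀ a b n, D a (D b φ) n = 0) : (Fin d → ℤ) →+ ℝ :=
  AddMonoidHom.mk' (fun a => D a φ 0) (by
    intro a b
    rw [D_add]
    congr 1
    exact const_of_D (fun c n => h2 c a n) _)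

theorem lin_apply {φ : (Fin d → ℤ) → ℝ} (h2 : ∀ a b n, D a (D b φ) n = 0) (a n : Fin d → ℤ) :
    D a φ n = lin φ h2 a := const_of_D (fun c n => h2 c a n) n

/-- quadratic functions: the mixed second difference is biadditive -/
def bil (φ : (Fin d → ℤ) → ℝ) (h3 : ∀ a b c n, D a (D b (D c φ)) n = 0) :
    (Fin d → ℤ) →+ (Fin d → ℤ) →+ ℝ :=
  AddMonoidHom.mk' (fun a => lin (D a φ) (fun b c n => h3 b c a n)) (by
    intro a b
    apply AddMonoidHom.ext
    intro c
    change D c (D (a + b) φ) 0 = D c (D a φ) 0 + D c (D b φ) 0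
    rw [D_comm c (a + b), D_add, D_comm a c, D_comm b c]
    congr 1
    exact const_of_D (fun e n => h3 e c a n) _)

theorem bil_apply {φ : (Fin d → ℤ) → ℝ} (h3 : ∀ a b c n, D a (D b (D c φ)) n = 0)
    (a b n : Fin d → ℤ) : D a (D b φ) n = bil φ h3 b a := by
  have := const_of_D (fun e n => h3 e a b n) n
  rw [this]; rfl

theorem bil_comm {φ : (Fin d → ℤ) → ℝ} (h3 : ∀ a b c n, D a (D b (D c φ)) n = 0)
    (a b : Fin d → ℤ) : bil φ h3 a b = bil φ h3 b a := by
  rw [← bil_apply h3 b a 0, ← bil_apply h3 a b 0, D_comm]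

/-- the value of a quadratic function -/
theorem quad_even {φ : (Fin d → ℤ) → ℝ} (h3 : ∀ a b c n, D a (D b (D c φ)) n = 0)
    (a : Fin d → ℤ) : φ a + φ (-a) - 2 * φ 0 = bil φ h3 a a := by
  have h := bil_apply h3 a (-a) 0
  rw [map_neg, AddMonoidHom.neg_apply] at h
  simp only [D_apply] at h
  rw [show (0 : Fin d → ℤ) + a + -a = 0 by simp, zero_add, zero_add] at h
  linarith

end Differences

section Poly

open Heis

variable {d : ℕ}

theorem x_del (h : Fin d → ℤ) (f : (Fin d → ℤ) → Heis) :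
    (fun n => x (del h f n)) = D h (fun n => x (f n)) := by
  funext n; simp only [del, D, x_mul, x_inv]; ring

theorem x'_del (h : Fin d → ℤ) (f : (Fin d → ℤ) → Heis) :
    (fun n => x' (del h f n)) = D h (fun n => x' (f n)) := by
  funext n; simp only [del, D, x'_mul, x'_inv]; ring

theorem y_del (h : Fin d → ℤ) (f : (Fin d → ℤ) → Heis) :
    (fun n => y (del h f n)) = D h (fun n => y (f n)) := by
  funext n; simp only [del, D, y_mul, y_inv]; ring

theorem y'_del (h : Fin d → ℤ) (f : (Fin d → ℤ) → Heis) :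
    (fun n => y' (del h f n)) = D h (fun n => y' (f n)) := by
  funext n; simp only [del, D, y'_mul, y'_inv]; ring

theorem z_del (h : Fin d → ℤ) (f : (Fin d → ℤ) → Heis) (n : Fin d → ℤ) :
    z (del h f n) = D h (fun n => z (f n)) n -
      (D h (fun n => x (f n)) n * y (f n) + D h (fun n => x' (f n)) n * y' (f n)) := by
  simp only [del, D, z_mul, z_inv, y_inv, y'_inv]; ring

/-- the coordinates of `f` are of degree at most `1, 1, 2, 2, 3` -/
structure Cubic (f : (Fin d → ℤ) → Heis) : Prop where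
  hx : ∀ a b n, D a (D b (fun n => x (f n))) n = 0
  hx' : ∀ a b n, D a (D b (fun n => x' (f n))) n = 0
  hy : ∀ a b c n, D a (D b (D c (fun n => y (f n)))) n = 0
  hy' : ∀ a b c n, D a (D b (D c (fun n => y' (f n)))) n = 0
  hz : ∀ a b c e n, D a (D b (D c (D e (fun n => z (f n))))) n = 0

/-- if `x, x'` of `f` are constant, then `z (del h f) = D h z`. -/
theorem z_del_of (h : Fin d → ℤ) (f : (Fin d → ℤ) → Heis)
    (h1 : ∀ n, D h (fun n => x (f n)) n = 0) (h2 : ∀ n, D h (fun n => x' (f n)) n = 0) :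
    (fun n => z (del h f n)) = D h (fun n => z (f n)) := by
  funext n
  rw [z_del, h1, h2]; ring

theorem D_zero' (h n : Fin d → ℤ) {φ : (Fin d → ℤ) → ℝ} (hφ : ∀ n, φ n = 0) : D h φ n = 0 := by
  simp [D_apply, hφ]

theorem z_del4 {f : (Fin d → ℤ) → Heis}
    (hx : ∀ a b n, D a (D b (fun n => x (f n))) n = 0)
    (hx' : ∀ a b n, D a (D b (fun n => x' (f n))) n = 0)
    (hy : ∀ a b c n, D a (D b (D c (fun n => y (f n)))) n = 0)
    (hy' : ∀ a b c n, D a (D b (D c (fun n => y' (f n)))) n = 0) (a b c e n : Fin d → ℤ) :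
    z (del a (del b (del c (del e f))) n) =
      D a (D b (D c (D e (fun n => z (f n))))) n := by
  have e1 : (fun n => z (del c (del e f) n)) = D c (fun n => z (del e f n)) := by
    apply z_del_of
    · intro n; rw [x_del]; exact hx _ _ _
    · intro n; rw [x'_del]; exact hx' _ _ _
  have e2 : (fun n => z (del b (del c (del e f)) n)) = D b (fun n => z (del c (del e f) n)) := by
    apply z_del_of
    · intro n; rw [x_del, x_del]; exact D_zero' _ _ (fun n => hx _ _ _)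
    · intro n; rw [x'_del, x'_del]; exact D_zero' _ _ (fun n => hx' _ _ _)
  have e3 : (fun n => z (del a (del b (del c (del e f))) n)) =
      D a (fun n => z (del b (del c (del e f)) n)) := by
    apply z_del_of
    · intro n; rw [x_del, x_del, x_del]
      exact D_zero' _ _ (fun n => D_zero' _ _ (fun n => hx _ _ _))
    · intro n; rw [x'_del, x'_del, x'_del]
      exact D_zero' _ _ (fun n => D_zero' _ _ (fun n => hx' _ _ _))
  have e4 : (fun n => z (del e f n)) = fun n => D e (fun n => z (f n)) n -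
      (lin _ hx e * y (f n) + lin _ hx' e * y' (f n)) := by
    funext n
    rw [z_del, lin_apply hx, lin_apply hx']
  have e5 : z (del a (del b (del c (del e f))) n) =
      D a (fun n => z (del b (del c (del e f)) n)) n := congrFun e3 n
  rw [e5, e2, e1, e4]
  have hy0 := hy a b c n
  have hy0' := hy' a b c n
  simp only [D_apply] at hy0 hy0' ⊢
  linear_combination (-(lin _ hx e)) * hy0 - (lin _ hx' e) * hy0'

theorem cubic_of_isPolySeq {s : ℕ} {hs : 3 ≤ s} {f : (Fin d → ℤ) → Heis}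
    (hf : IsPolySeq (heisNil s hs) f) : Cubic f := by
  have hmem : ∀ (L : List (Fin d → ℤ)) (n : Fin d → ℤ), (L.foldr del f) n ∈ Fil L.length := hf
  have hx : ∀ a b n, D a (D b (fun n => x (f n))) n = 0 := by
    intro a b n
    have := ((hmem [a, b] n).1 (by simp)).1
    simp only [List.foldr_cons, List.foldr_nil] at this
    rw [← x_del, ← x_del]; exact this
  have hx' : ∀ a b n, D a (D b (fun n => x' (f n))) n = 0 := by
    intro a b n
    have := ((hmem [a, b] n).1 (by simp)).2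
    simp only [List.foldr_cons, List.foldr_nil] at this
    rw [← x'_del, ← x'_del]; exact this
  have hy : ∀ a b c n, D a (D b (D c (fun n => y (f n)))) n = 0 := by
    intro a b c n
    have := ((hmem [a, b, c] n).2.1 (by simp)).1
    simp only [List.foldr_cons, List.foldr_nil] at this
    rw [← y_del, ← y_del, ← y_del]; exact this
  have hy' : ∀ a b c n, D a (D b (D c (fun n => y' (f n)))) n = 0 := by
    intro a b c n
    have := ((hmem [a, b, c] n).2.1 (by simp)).2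
    simp only [List.foldr_cons, List.foldr_nil] at this
    rw [← y'_del, ← y'_del, ← y'_del]; exact this
  refine ⟨hx, hx', hy, hy', ?_⟩
  intro a b c e n
  have := (hmem [a, b, c, e] n).2.2 (by simp)
  simp only [List.foldr_cons, List.foldr_nil] at this
  rw [← z_del4 hx hx' hy hy']; exact this

theorem Cubic.foldr_mem {f : (Fin d → ℤ) → Heis}
    (hf : Cubic f) (L : List (Fin d → ℤ)) (n : Fin d → ℤ) :
    (L.foldr del f) n ∈ Fil L.length := by
  obtain ⟨hx, hx', hy, hy', hz⟩ := hf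
  have h4 : ∀ (L : List (Fin d → ℤ)), 4 ≤ L.length → ∀ n, (L.foldr del f) n = 1 := by
    intro L
    induction L with
    | nil => intro h; simp at h
    | cons a t ih =>
      intro hL n
      rcases Nat.lt_or_ge t.length 4 with ht | ht
      · have ht3 : t.length = 3 := by simp at hL; omega
        obtain ⟨b, c, e, rfl⟩ := List.length_eq_three.mp ht3
        simp only [List.foldr_cons, List.foldr_nil]
        apply ext
        · have : x (del a (del b (del c (del e f))) n) = D a (fun n => x ((del b (del c (del e f))) n)) n :=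
            congrFun (x_del a _) n
          rw [this, x_del, x_del, x_del]
          exact D_zero' _ _ (fun n => D_zero' _ _ (fun n => hx _ _ _))
        · have : x' (del a (del b (del c (del e f))) n) = D a (fun n => x' ((del b (del c (del e f))) n)) n :=
            congrFun (x'_del a _) n
          rw [this, x'_del, x'_del, x'_del]
          exact D_zero' _ _ (fun n => D_zero' _ _ (fun n => hx' _ _ _))
        · have : y (del a (del b (del c (del e f))) n) = D a (fun n => y ((del b (del c (del e f))) n)) n :=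
            congrFun (y_del a _) n
          rw [this, y_del, y_del, y_del]
          exact D_zero' _ _ (fun n => hy _ _ _ _)
        · have : y' (del a (del b (del c (del e f))) n) = D a (fun n => y' ((del b (del c (del e f))) n)) n :=
            congrFun (y'_del a _) n
          rw [this, y'_del, y'_del, y'_del]
          exact D_zero' _ _ (fun n => hy' _ _ _ _)
        · rw [z_del4 hx hx' hy hy']
          exact hz _ _ _ _ _
      · have h1 := ih ht
        simp only [List.foldr_cons, del, h1]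
        simp
  rcases Nat.lt_or_ge L.length 4 with hL | hL
  · match L, hL with
    | [], _ => rw [List.length_nil, fil_zero]; trivial
    | [a], _ => rw [List.length_singleton, fil_one]; trivial
    | [a, b], _ =>
      refine ⟨fun _ => ⟨?_, ?_⟩, fun h => absurd h (by simp), fun h => absurd h (by simp)⟩
      · simp only [List.foldr_cons, List.foldr_nil]
        have : x (del a (del b f) n) = D a (fun n => x ((del b f) n)) n :=
          congrFun (x_del a _) n
        rw [this, x_del]; exact hx _ _ _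
      · simp only [List.foldr_cons, List.foldr_nil]
        have : x' (del a (del b f) n) = D a (fun n => x' ((del b f) n)) n :=
          congrFun (x'_del a _) n
        rw [this, x'_del]; exact hx' _ _ _
    | [a, b, c], _ =>
      refine ⟨fun _ => ⟨?_, ?_⟩, fun h => ⟨?_, ?_⟩, fun h => absurd h (by simp)⟩
      · simp only [List.foldr_cons, List.foldr_nil]
        have : x (del a (del b (del c f)) n) = D a (fun n => x ((del b (del c f)) n)) n :=
          congrFun (x_del a _) n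
        rw [this, x_del, x_del]; exact D_zero' _ _ (fun n => hx _ _ _)
      · simp only [List.foldr_cons, List.foldr_nil]
        have : x' (del a (del b (del c f)) n) = D a (fun n => x' ((del b (del c f)) n)) n :=
          congrFun (x'_del a _) n
        rw [this, x'_del, x'_del]; exact D_zero' _ _ (fun n => hx' _ _ _)
      · simp only [List.foldr_cons, List.foldr_nil]
        have : y (del a (del b (del c f)) n) = D a (fun n => y ((del b (del c f)) n)) n :=
          congrFun (y_del a _) n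
        rw [this, y_del, y_del]; exact hy _ _ _ _
      · simp only [List.foldr_cons, List.foldr_nil]
        have : y' (del a (del b (del c f)) n) = D a (fun n => y' ((del b (del c f)) n)) n :=
          congrFun (y'_del a _) n
        rw [this, y'_del, y'_del]; exact hy' _ _ _ _
    | _ :: _ :: _ :: _ :: _, h => simp at h; omega
  · rw [h4 L hL]; exact (Fil L.length).one_mem

theorem Cubic.isPolySeq {s : ℕ} {hs : 3 ≤ s} {f : (Fin d → ℤ) → Heis}
    (hf : Cubic f) : IsPolySeq (heisNil s hs) f := fun L n => hf.foldr_mem L n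

end Poly

/-- the subring of integers of `ℝ` -/
def ZZ : Subring ℝ := (Int.castRingHom ℝ).range

theorem mem_ZZ {r : ℝ} : r ∈ ZZ ↔ ∃ k : ℤ, r = k := by
  constructor
  · rintro ⟨k, hk⟩; exact ⟨k, hk.symm⟩
  · rintro ⟨k, hk⟩; exact ⟨k, hk.symm⟩

theorem ZZ_of_coprime {a b : ℤ} (hab : IsCoprime a b) {r : ℝ} (ha : (a : ℝ) * r ∈ ZZ)
    (hb : (b : ℝ) * r ∈ ZZ) : r ∈ ZZ := by
  obtain ⟨u, v, huv⟩ := hab
  have h1 : (u : ℝ) * a + v * b = 1 := by exact_mod_cast huv
  have : r = (u : ℝ) * (a * r) + v * (b * r) := by linear_combination (-r) * h1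
  rw [this]
  exact add_mem (mul_mem (intCast_mem ZZ u) ha) (mul_mem (intCast_mem ZZ v) hb)

section Core

open Heis

variable {d : ℕ}

theorem lat_iff {g : Heis} : g ∈ Latt ↔ x g ∈ ZZ ∧ x' g ∈ ZZ ∧ y g ∈ ZZ ∧ y' g ∈ ZZ ∧ z g ∈ ZZ := by
  simp only [mem_ZZ]; exact Iff.rfl

theorem aff_eq {φ : (Fin d → ℤ) → ℝ} (h2 : ∀ a b n, D a (D b φ) n = 0) (n : Fin d → ℤ) :
    φ n = φ 0 + lin φ h2 n := by
  rw [← lin_apply h2 n 0, D_apply, zero_add]; ring

/-- The key identity: the second difference of the `z` coordinate of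
`(f (n + p m))⁻¹ * f n`. -/
theorem key_identity {f : (Fin d → ℤ) → Heis} (hf : Cubic f) (q a b : Fin d → ℤ) :
    D a (D b (fun n => z ((f (n + q))⁻¹ * f n))) 0 =
      -(D q (D a (D b (fun n => z (f n)))) 0) +
      (lin _ hf.hx a * bil _ hf.hy q b + lin _ hf.hx b * bil _ hf.hy q a) +
      (lin _ hf.hx' a * bil _ hf.hy' q b + lin _ hf.hx' b * bil _ hf.hy' q a) := by
  have hz : ∀ n, z ((f (n + q))⁻¹ * f n) = -(D q (fun n => z (f n)) n) +
      x (f (n + q)) * D q (fun n => y (f n)) n + x' (f (n + q)) * D q (fun n => y' (f n)) n := by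
    intro n
    simp only [z_mul, z_inv, x_inv, x'_inv, D_apply]; ring
  have hX : ∀ n, x (f (n + q)) = x (f 0) + (lin _ hf.hx n + lin _ hf.hx q) := by
    intro n; rw [← map_add]; exact aff_eq hf.hx _
  have hX' : ∀ n, x' (f (n + q)) = x' (f 0) + (lin _ hf.hx' n + lin _ hf.hx' q) := by
    intro n; rw [← map_add]; exact aff_eq hf.hx' _
  have hY : ∀ n, D q (fun n => y (f n)) n = D q (fun n => y (f n)) 0 + bil _ hf.hy q n := by
    intro n; exact aff_eq (fun a b n => hf.hy a b q n) n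
  have hY' : ∀ n, D q (fun n => y' (f n)) n = D q (fun n => y' (f n)) 0 + bil _ hf.hy' q n := by
    intro n; exact aff_eq (fun a b n => hf.hy' a b q n) n
  have hfun : (fun n => z ((f (n + q))⁻¹ * f n)) = fun n => -(D q (fun n => z (f n)) n) +
      (x (f 0) + (lin _ hf.hx n + lin _ hf.hx q)) *
        (D q (fun n => y (f n)) 0 + bil _ hf.hy q n) +
      (x' (f 0) + (lin _ hf.hx' n + lin _ hf.hx' q)) *
        (D q (fun n => y' (f n)) 0 + bil _ hf.hy' q n) := by
    funext n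
    rw [hz, hX, hX', hY, hY']
  have hcomm : D q (D a (D b (fun n => z (f n)))) 0 = D a (D b (D q (fun n => z (f n)))) 0 := by
    rw [D_comm q a, D_comm q b]
  rw [hfun, hcomm]
  generalize D q (fun n => z (f n)) = ψ
  generalize D q (fun n => y (f n)) 0 = c1
  generalize D q (fun n => y' (f n)) 0 = c2
  simp only [D_apply, map_add, map_zero]
  ring

variable {p : ℕ}

theorem smul_lin {φ : (Fin d → ℤ) → ℝ} (h2 : ∀ a b n, D a (D b φ) n = 0) (a : Fin d → ℤ) :
    lin φ h2 ((p : ℤ) • a) = (p : ℝ) * lin φ h2 a := by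
  rw [map_zsmul]; simp

theorem smul_bil {φ : (Fin d → ℤ) → ℝ} (h3 : ∀ a b c n, D a (D b (D c φ)) n = 0)
    (a b : Fin d → ℤ) : bil φ h3 ((p : ℤ) • a) b = (p : ℝ) * bil φ h3 a b := by
  rw [map_zsmul]; simp

/-- The symmetry forced by periodicity. -/
theorem symmetry {f : (Fin d → ℤ) → Heis} (hf : Cubic f)
    (hper : ∀ n m : Fin d → ℤ, (f (n + (p : ℤ) • m))⁻¹ * f n ∈ Latt) (a c : Fin d → ℤ) :
    (lin _ hf.hx c * ((p : ℝ) * bil _ hf.hy a c) - lin _ hf.hx a * ((p : ℝ) * bil _ hf.hy c c)) +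
    (lin _ hf.hx' c * ((p : ℝ) * bil _ hf.hy' a c) -
      lin _ hf.hx' a * ((p : ℝ) * bil _ hf.hy' c c)) ∈ ZZ := by
  have hint : ∀ m a b : Fin d → ℤ,
      D a (D b (fun n => z ((f (n + (p : ℤ) • m))⁻¹ * f n))) 0 ∈ ZZ := by
    intro m a b
    have h : ∀ n, z ((f (n + (p : ℤ) • m))⁻¹ * f n) ∈ ZZ := fun n =>
      (lat_iff.mp (hper n m)).2.2.2.2
    simp only [D_apply]
    exact sub_mem (sub_mem (h _) (h _)) (sub_mem (h _) (h _))
  have h1 := hint a c c
  have h2 := hint c c a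
  rw [key_identity hf] at h1 h2
  have hD2 : ∀ u v a b n, D a (D b (D u (D v (fun n => z (f n))))) n = 0 :=
    fun u v a b n => hf.hz a b u v n
  have e1 : D ((p : ℤ) • a) (D c (D c (fun n => z (f n)))) 0 =
      (p : ℝ) * D a (D c (D c (fun n => z (f n)))) 0 := by
    rw [lin_apply (hD2 c c), lin_apply (hD2 c c), smul_lin]
  have e2 : D ((p : ℤ) • c) (D c (D a (fun n => z (f n)))) 0 =
      (p : ℝ) * D a (D c (D c (fun n => z (f n)))) 0 := by
    rw [lin_apply (hD2 c a), smul_lin, ← lin_apply (hD2 c a) c 0, D_comm a c, D_comm a c]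
  rw [e1] at h1
  rw [e2] at h2
  simp only [smul_bil] at h1 h2
  have := sub_mem h1 h2
  rw [bil_comm hf.hy c a, bil_comm hf.hy' c a] at this
  convert this using 1
  ring

/-- The sequence `f(n) = (n₁/p, n₂/p, n₀²/p, 2 n₀ n₂/p, n₀ n₂²/p²)`. -/
def seqF (p : ℕ) (i0 i1 i2 : Fin d) (n : Fin d → ℤ) : Heis :=
  mk ((n i1 : ℝ) / p) ((n i2 : ℝ) / p) ((n i0 : ℝ) ^ 2 / p) (2 * (n i0 : ℝ) * (n i2 : ℝ) / p)
    ((n i0 : ℝ) * (n i2 : ℝ) ^ 2 / (p : ℝ) ^ 2)

theorem seqF_cubic (p : ℕ) (i0 i1 i2 : Fin d) : Cubic (seqF p i0 i1 i2) := by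
  constructor
  · intro a b n
    simp only [D_apply, seqF, x_mk, Pi.add_apply]; push_cast; ring
  · intro a b n
    simp only [D_apply, seqF, x'_mk, Pi.add_apply]; push_cast; ring
  · intro a b c n
    simp only [D_apply, seqF, y_mk, Pi.add_apply]; push_cast; ring
  · intro a b c n
    simp only [D_apply, seqF, y'_mk, Pi.add_apply]; push_cast; ring
  · intro a b c e n
    simp only [D_apply, seqF, z_mk, Pi.add_apply]; push_cast; ring

/-- Partial periodicity on the cone `2 n₀ n₁ + n₂² ≡ 0 (mod p)`. -/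
theorem seqF_periodic {p : ℕ} (hp : p ≠ 0) (i0 i1 i2 : Fin d) (n m : Fin d → ℤ)
    (hn : (p : ℤ) ∣ 2 * n i0 * n i1 + n i2 ^ 2) :
    (seqF p i0 i1 i2 (n + (p : ℤ) • m))⁻¹ * seqF p i0 i1 i2 n ∈ Latt := by
  have hp0 : (p : ℝ) ≠ 0 := by exact_mod_cast hp
  obtain ⟨t, ht⟩ := hn
  have ht' : 2 * (n i0 : ℝ) * n i1 + (n i2 : ℝ) ^ 2 = p * t := by exact_mod_cast ht
  rw [mem_Latt]
  refine ⟨⟨-m i1, ?_⟩, ⟨-m i2, ?_⟩, ⟨-(2 * n i0 * m i0 + p * m i0 ^ 2), ?_⟩,
    ⟨-(2 * (n i0 * m i2 + n i2 * m i0) + 2 * p * m i0 * m i2), ?_⟩,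
    ⟨t * m i0 + n i1 * m i0 ^ 2 + m i1 * (2 * n i0 * m i0 + p * m i0 ^ 2)
      + 2 * n i2 * m i0 * m i2 + m i2 * (2 * n i0 * m i2 + 2 * n i2 * m i0 + 2 * p * m i0 * m i2)
      - (n i0 * m i2 ^ 2 + 2 * n i2 * m i0 * m i2 + p * m i0 * m i2 ^ 2), ?_⟩⟩
  · simp only [seqF, x_mul, x_inv, x_mk, Pi.add_apply, Pi.smul_apply, smul_eq_mul]
    push_cast; field_simp; ring
  · simp only [seqF, x'_mul, x'_inv, x'_mk, Pi.add_apply, Pi.smul_apply, smul_eq_mul]
    push_cast; field_simp; ring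
  · simp only [seqF, y_mul, y_inv, y_mk, Pi.add_apply, Pi.smul_apply, smul_eq_mul]
    push_cast; field_simp; ring
  · simp only [seqF, y'_mul, y'_inv, y'_mk, Pi.add_apply, Pi.smul_apply, smul_eq_mul]
    push_cast; field_simp; ring
  · simp only [seqF, z_mul, z_inv, x_inv, x'_inv, z_mk, x_mk, x'_mk, y_mk, y'_mk, Pi.add_apply,
      Pi.smul_apply, smul_eq_mul]
    push_cast
    have ht2 : (t : ℝ) = (2 * (n i0 : ℝ) * n i1 + (n i2 : ℝ) ^ 2) / p := by
      rw [ht']; field_simp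
    rw [ht2]
    field_simp
    ring

/-- The contradiction. -/
theorem core {p : ℕ} (hp : p.Prime) (hp5 : 5 ≤ p) {i0 i1 i2 : Fin d} (h01 : i0 ≠ i1)
    (h02 : i0 ≠ i2) (h12 : i1 ≠ i2) {f : (Fin d → ℤ) → Heis} (hf : Cubic f)
    (hper : ∀ n m : Fin d → ℤ, (f (n + (p : ℤ) • m))⁻¹ * f n ∈ Latt)
    (hcomp : ∀ v : Fin d → ℤ, (p : ℤ) ∣ 2 * v i0 * v i1 + v i2 ^ 2 →
      (seqF p i0 i1 i2 v)⁻¹ * f v ∈ Latt) : False := by
  have hp0 : (p : ℝ) ≠ 0 := by exact_mod_cast hp.ne_zero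
  have hpZ : (p : ℝ) ∈ ZZ := natCast_mem ZZ p
  -- coprimality
  have c4 : IsCoprime (4 : ℤ) (p : ℤ) := by
    rw [Int.isCoprime_iff_gcd_eq_one]
    have h : Nat.Coprime 4 p := by
      have : Nat.Coprime (2 ^ 2) p := Nat.Coprime.pow_left 2
        ((Nat.coprime_primes Nat.prime_two hp).mpr (by omega))
      simpa using this
    exact_mod_cast h
  have c24 : IsCoprime (24 : ℤ) (p : ℤ) := by
    rw [Int.isCoprime_iff_gcd_eq_one]
    have h : Nat.Coprime 24 p := by
      have h2 : Nat.Coprime (2 ^ 3) p := Nat.Coprime.pow_left 3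
        ((Nat.coprime_primes Nat.prime_two hp).mpr (by omega))
      have h3 : Nat.Coprime 3 p := (Nat.coprime_primes Nat.prime_three hp).mpr (by omega)
      have : Nat.Coprime (2 ^ 3 * 3) p := Nat.Coprime.mul_left h2 h3
      simpa using this
    exact_mod_cast h
  -- basis vectors
  set e0 : Fin d → ℤ := Pi.single i0 1 with he0
  set e1 : Fin d → ℤ := Pi.single i1 1 with he1
  set e2 : Fin d → ℤ := Pi.single i2 1 with he2
  have v00 : e0 i0 = 1 := by simp [he0]
  have v01 : e0 i1 = 0 := by simp [he0, h01.symm]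
  have v02 : e0 i2 = 0 := by simp [he0, h02.symm]
  have v10 : e1 i0 = 0 := by simp [he1, h01]
  have v11 : e1 i1 = 1 := by simp [he1]
  have v12 : e1 i2 = 0 := by simp [he1, h12.symm]
  have v20 : e2 i0 = 0 := by simp [he2, h02]
  have v21 : e2 i1 = 0 := by simp [he2, h12]
  have v22 : e2 i2 = 1 := by simp [he2]
  -- abbreviations
  set L1 := lin _ hf.hx with hL1
  set L2 := lin _ hf.hx' with hL2
  set B1 := bil _ hf.hy with hB1
  set B2 := bil _ hf.hy' with hB2
  -- integrality from periodicity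
  have pL1 : ∀ h, (p : ℝ) * L1 h ∈ ZZ := by
    intro h
    rw [← smul_lin hf.hx, ← lin_apply hf.hx _ 0, D_apply]
    have := neg_mem (lat_iff.mp (hper 0 h)).1
    rw [x_mul, x_inv] at this
    convert this using 1; ring
  have pL2 : ∀ h, (p : ℝ) * L2 h ∈ ZZ := by
    intro h
    rw [← smul_lin hf.hx', ← lin_apply hf.hx' _ 0, D_apply]
    have := neg_mem (lat_iff.mp (hper 0 h)).2.1
    rw [x'_mul, x'_inv] at this
    convert this using 1; ring
  have pB1 : ∀ h k, (p : ℝ) * B1 h k ∈ ZZ := by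
    intro h k
    rw [← smul_bil hf.hy, ← bil_apply hf.hy k _ 0]
    have a1 := neg_mem (lat_iff.mp (hper (0 + k) h)).2.2.1
    have a2 := neg_mem (lat_iff.mp (hper 0 h)).2.2.1
    have := sub_mem a1 a2
    simp only [D_apply]
    simp only [y_mul, y_inv] at this
    convert this using 1
    ring
  have pB2 : ∀ h k, (p : ℝ) * B2 h k ∈ ZZ := by
    intro h k
    rw [← smul_bil hf.hy', ← bil_apply hf.hy' k _ 0]
    have a1 := neg_mem (lat_iff.mp (hper (0 + k) h)).2.2.2.1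
    have a2 := neg_mem (lat_iff.mp (hper 0 h)).2.2.2.1
    have := sub_mem a1 a2
    simp only [D_apply]
    simp only [y'_mul, y'_inv] at this
    convert this using 1
    ring
  -- comparison on the cone
  have cx : ∀ v : Fin d → ℤ, (p : ℤ) ∣ 2 * v i0 * v i1 + v i2 ^ 2 →
      x (f v) - (v i1 : ℝ) / p ∈ ZZ := by
    intro v hv
    have := (lat_iff.mp (hcomp v hv)).1
    simp only [x_mul, x_inv, seqF, x_mk] at this
    convert this using 1; ring
  have cx' : ∀ v : Fin d → ℤ, (p : ℤ) ∣ 2 * v i0 * v i1 + v i2 ^ 2 →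
      x' (f v) - (v i2 : ℝ) / p ∈ ZZ := by
    intro v hv
    have := (lat_iff.mp (hcomp v hv)).2.1
    simp only [x'_mul, x'_inv, seqF, x'_mk] at this
    convert this using 1; ring
  have cy' : ∀ v : Fin d → ℤ, (p : ℤ) ∣ 2 * v i0 * v i1 + v i2 ^ 2 →
      y' (f v) - 2 * (v i0 : ℝ) * (v i2 : ℝ) / p ∈ ZZ := by
    intro v hv
    have := (lat_iff.mp (hcomp v hv)).2.2.2.1
    simp only [y'_mul, y'_inv, seqF, y'_mk] at this
    convert this using 1; ring
  have d0 : (p : ℤ) ∣ 2 * (0 : Fin d → ℤ) i0 * (0 : Fin d → ℤ) i1 + (0 : Fin d → ℤ) i2 ^ 2 := by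
    simp
  have de0 : (p : ℤ) ∣ 2 * e0 i0 * e0 i1 + e0 i2 ^ 2 := by simp [v01, v02]
  -- linear parts
  have L1e0 : L1 e0 ∈ ZZ := by
    have := sub_mem (cx e0 de0) (cx 0 d0)
    rw [aff_eq hf.hx e0, v01] at this
    simpa using this
  have L2e0 : L2 e0 ∈ ZZ := by
    have := sub_mem (cx' e0 de0) (cx' 0 d0)
    rw [aff_eq hf.hx' e0, v02] at this
    simpa using this
  set v : Fin d → ℤ := e0 - (2 : ℤ) • e1 + (2 : ℤ) • e2 with hv
  set w : Fin d → ℤ := e0 - (2 : ℤ) • e1 - (2 : ℤ) • e2 with hw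
  have vv0 : v i0 = 1 := by simp [hv, v00, v10, v20]
  have vv1 : v i1 = -2 := by simp [hv, v01, v11, v21]
  have vv2 : v i2 = 2 := by simp [hv, v02, v12, v22]
  have ww0 : w i0 = 1 := by simp [hw, v00, v10, v20]
  have ww1 : w i1 = -2 := by simp [hw, v01, v11, v21]
  have ww2 : w i2 = -2 := by simp [hw, v02, v12, v22]
  have dv : (p : ℤ) ∣ 2 * v i0 * v i1 + v i2 ^ 2 := by rw [vv0, vv1, vv2]; norm_num
  have dw : (p : ℤ) ∣ 2 * w i0 * w i1 + w i2 ^ 2 := by rw [ww0, ww1, ww2]; norm_num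
  have L1e2 : L1 e2 ∈ ZZ := by
    apply ZZ_of_coprime c4 _ (by exact_mod_cast pL1 e2)
    have := sub_mem (cx v dv) (cx w dw)
    rw [aff_eq hf.hx v, aff_eq hf.hx w, vv1, ww1, hv, hw] at this
    simp only [map_add, map_sub, map_zsmul] at this
    convert this using 1
    simp only [zsmul_eq_mul]
    push_cast
    ring
  have L2e2 : L2 e2 - 1 / p ∈ ZZ := by
    apply ZZ_of_coprime c4
    · have := sub_mem (cx' v dv) (cx' w dw)
      rw [aff_eq hf.hx' v, aff_eq hf.hx' w, vv2, ww2, hv, hw] at this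
      simp only [map_add, map_sub, map_zsmul] at this
      convert this using 1
      simp only [zsmul_eq_mul]
      push_cast
      ring
    · have := sub_mem (pL2 e2) (one_mem ZZ)
      convert this using 1
      push_cast
      field_simp
  -- the quadratic part
  set v' : Fin d → ℤ := (2 : ℤ) • e0 - e1 + (2 : ℤ) • e2 with hv'
  set w' : Fin d → ℤ := (2 : ℤ) • e0 - e1 - (2 : ℤ) • e2 with hw'
  have vv0' : v' i0 = 2 := by simp [hv', v00, v10, v20]
  have vv1' : v' i1 = -1 := by simp [hv', v01, v11, v21]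
  have vv2' : v' i2 = 2 := by simp [hv', v02, v12, v22]
  have ww0' : w' i0 = 2 := by simp [hw', v00, v10, v20]
  have ww1' : w' i1 = -1 := by simp [hw', v01, v11, v21]
  have ww2' : w' i2 = -2 := by simp [hw', v02, v12, v22]
  have quad : ∀ u : Fin d → ℤ, 2 * u i0 * u i1 + u i2 ^ 2 = 0 →
      B2 u u - 4 * (u i0 : ℝ) * (u i2 : ℝ) / p ∈ ZZ := by
    intro u hu
    have h1 := cy' u (by rw [hu]; exact dvd_zero _)
    have h2 := cy' (-u) (by
      have : 2 * (-u) i0 * (-u) i1 + (-u) i2 ^ 2 = 0 := by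
        simp only [Pi.neg_apply]; linear_combination hu
      rw [this]; exact dvd_zero _)
    have h3 := cy' 0 d0
    have h := sub_mem (sub_mem (add_mem h1 h2) h3) h3
    rw [hB2, ← quad_even hf.hy' u]
    convert h using 1
    simp only [Pi.neg_apply, Pi.zero_apply]
    push_cast
    ring
  have q1 := quad v (by rw [vv0, vv1, vv2]; norm_num)
  have q2 := quad w (by rw [ww0, ww1, ww2]; norm_num)
  have q3 := quad v' (by rw [vv0', vv1', vv2']; norm_num)
  have q4 := quad w' (by rw [ww0', ww1', ww2']; norm_num)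
  have s02 : B2 e2 e0 = B2 e0 e2 := bil_comm hf.hy' e2 e0
  have s12 : B2 e2 e1 = B2 e1 e2 := bil_comm hf.hy' e2 e1
  have B02 : B2 e0 e2 - 2 / p ∈ ZZ := by
    apply ZZ_of_coprime c24
    · have h := sub_mem (add_mem (sub_mem q3 q4) (sub_mem q3 q4)) (sub_mem q1 q2)
      rw [vv0, vv2, ww0, ww2, vv0', vv2', ww0', ww2', hv, hw, hv', hw'] at h
      simp only [map_add, map_sub, map_zsmul, AddMonoidHom.add_apply, AddMonoidHom.sub_apply,
        AddMonoidHom.zsmul_apply, s02, s12] at h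
      simp only [zsmul_eq_mul] at h
      convert h using 1
      push_cast
      ring
    · have := sub_mem (pB2 e0 e2) (ofNat_mem ZZ 2)
      convert this using 1
      push_cast
      field_simp
  -- conclusion
  have hs := symmetry hf hper e0 e2
  rw [← hL1, ← hL2, ← hB1, ← hB2] at hs
  have t1 : L1 e2 * ((p : ℝ) * B1 e0 e2) ∈ ZZ := mul_mem L1e2 (pB1 _ _)
  have t2 : L1 e0 * ((p : ℝ) * B1 e2 e2) ∈ ZZ := mul_mem L1e0 (pB1 _ _)
  have t3 : L2 e0 * ((p : ℝ) * B2 e2 e2) ∈ ZZ := mul_mem L2e0 (pB2 _ _)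
  have t4 : (L2 e2 - 1 / p) * ((p : ℝ) * B2 e0 e2) ∈ ZZ := mul_mem L2e2 (pB2 _ _)
  have t5 : L2 e2 * ((p : ℝ) * B2 e0 e2) ∈ ZZ := by
    have := add_mem (sub_mem hs (sub_mem t1 t2)) t3
    convert this using 1; ring
  have t6 : B2 e0 e2 ∈ ZZ := by
    have := sub_mem t5 t4
    convert this using 1; field_simp; ring
  have t7 : (2 : ℝ) / p ∈ ZZ := by
    have := sub_mem t6 B02
    convert this using 1; ring
  obtain ⟨k, hk⟩ := mem_ZZ.mp t7
  have hk' : (2 : ℝ) = k * p := by rw [← hk]; field_simp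
  have hk2 : (2 : ℤ) = k * p := by exact_mod_cast hk'
  have hdvd : (p : ℤ) ∣ 2 := ⟨k, by rw [hk2]; ring⟩
  have : (p : ℤ) ≤ 2 := Int.le_of_dvd (by norm_num) hdvd
  omega

end Core

/-- The quadratic form `M(n) = 2 n₀ n₁ + n₂²` (it has rank three). -/
def coneForm (p : ℕ) {d : ℕ} (i0 i1 i2 : Fin d) : QForm p d where
  A := Matrix.of fun i j =>
    (if i = i0 ∧ j = i1 then 1 else 0) + (if i = i1 ∧ j = i0 then 1 else 0) +
      (if i = i2 ∧ j = i2 then 1 else 0)
  symm := by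
    ext i j
    have c1 : (j = i0 ∧ i = i1) ↔ (i = i1 ∧ j = i0) := and_comm
    have c2 : (j = i1 ∧ i = i0) ↔ (i = i0 ∧ j = i1) := and_comm
    have c3 : (j = i2 ∧ i = i2) ↔ (i = i2 ∧ j = i2) := and_comm
    simp only [Matrix.transpose_apply, Matrix.of_apply, c1, c2, c3]
    ring
  u := 0
  v := 0

theorem coneForm_eval (p : ℕ) {d : ℕ} (i0 i1 i2 : Fin d) (n : Fin d → ZMod p) :
    (coneForm p i0 i1 i2).eval n = 2 * n i0 * n i1 + n i2 ^ 2 := by
  simp only [QForm.eval, coneForm, Matrix.vecMul, dotProduct, Matrix.of_apply, mul_add,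
    Finset.sum_add_distrib, add_mul, ite_and, mul_ite, mul_one, mul_zero,
    Finset.sum_ite_eq', Finset.mem_univ, if_true, ite_mul, zero_mul, Pi.zero_apply,
    Finset.sum_const_zero, add_zero]
  ring

theorem coneForm_rank {p : ℕ} (hp : p.Prime) {d : ℕ} {i0 i1 i2 : Fin d} (h01 : i0 ≠ i1)
    (h02 : i0 ≠ i2) (h12 : i1 ≠ i2) : 3 ≤ (coneForm p i0 i1 i2).A.rank := by
  have : Fact p.Prime := ⟨hp⟩
  have h := Matrix.rank_submatrix_le (coneForm p i0 i1 i2).A ![i0, i1, i2] ![i0, i1, i2]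
  have hsub : (coneForm p i0 i1 i2).A.submatrix ![i0, i1, i2] ![i0, i1, i2] =
      !![0, 1, 0; 1, 0, 0; 0, 0, 1] := by
    ext i j
    fin_cases i <;> fin_cases j <;>
      simp [coneForm, h01, h02, h12, h01.symm, h02.symm, h12.symm]
  have hr : (!![0, 1, 0; 1, 0, 0; 0, 0, 1] : Matrix (Fin 3) (Fin 3) (ZMod p)).rank = 3 := by
    have := Matrix.rank_of_det_ne_zero
      (A := (!![0, 1, 0; 1, 0, 0; 0, 0, 1] : Matrix (Fin 3) (Fin 3) (ZMod p))) (by
        simp [Matrix.det_fin_three])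
    simpa using this
  rw [hsub, hr] at h
  exact h

theorem tau_repr {p d : ℕ} (hp : p ≠ 0) (v : Fin d → ℤ) :
    ∃ b : Fin d → ℤ, v = tau (fun i => ((v i : ℤ) : ZMod p)) + (p : ℤ) • b := by
  have : NeZero p := ⟨hp⟩
  refine ⟨fun i => v i / p, ?_⟩
  funext i
  simp only [tau, Pi.add_apply, Pi.smul_apply, smul_eq_mul, ZMod.val_intCast]
  exact (Int.emod_add_mul_ediv (v i) p).symm

/-- **Main theorem.** For all `d ≥ 3`, `s ≥ 3` and every prime `p ≥ 5` there are a quadratic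
form `M` on `𝔽_p^d` of rank at least three, an `s`-step filtered nilmanifold `G/Γ` and a
partially `p`-periodic polynomial sequence `g` on `V(M)` such that no `p`-periodic polynomial
sequence `g'` satisfies `g(n)Γ = g'(n)Γ` for all `n ∈ V(M)`. -/
theorem result : ∀ d s p : ℕ, 3 ≤ d → 3 ≤ s → p.Prime → 5 ≤ p →
    ∃ M : QForm p d, 3 ≤ M.A.rank ∧ ∃ X : FilteredNilmanifold s, ∃ g ∈ polyP X p d M.V,
      ¬ ∃ g' ∈ polyP X p d Set.univ, ∀ n ∈ M.V, (g n : X.G ⧸ X.Γ) = (g' n : X.G ⧸ X.Γ) := by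
  intro d s p hd hs hp hp5
  have h01 : (⟨0, by omega⟩ : Fin d) ≠ ⟨1, by omega⟩ := by simp
  have h02 : (⟨0, by omega⟩ : Fin d) ≠ ⟨2, by omega⟩ := by simp
  have h12 : (⟨1, by omega⟩ : Fin d) ≠ ⟨2, by omega⟩ := by simp
  generalize (⟨0, by omega⟩ : Fin d) = i0 at h01 h02
  generalize (⟨1, by omega⟩ : Fin d) = i1 at h01 h12
  generalize (⟨2, by omega⟩ : Fin d) = i2 at h02 h12
  have hp0 : p ≠ 0 := hp.ne_zero
  -- integer vectors on the cone
  have hcone : ∀ v : Fin d → ℤ,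
      (fun i => ((v i : ℤ) : ZMod p)) ∈ (coneForm p i0 i1 i2).V ↔
        (p : ℤ) ∣ 2 * v i0 * v i1 + v i2 ^ 2 := by
    intro v
    change (coneForm p i0 i1 i2).eval _ = 0 ↔ _
    rw [coneForm_eval, ← ZMod.intCast_zmod_eq_zero_iff_dvd]
    push_cast
    exact Iff.rfl
  have htau : ∀ (n : Fin d → ZMod p) (a : Fin d → ℤ),
      (fun i => (((tau n + (p : ℤ) • a) i : ℤ) : ZMod p)) = n := by
    intro n a
    have : NeZero p := ⟨hp0⟩
    funext i
    simp [tau]
  have hseq : ∀ n ∈ (coneForm p i0 i1 i2).V, ∀ a m : Fin d → ℤ,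
      (seqF p i0 i1 i2 (tau n + (p : ℤ) • a + (p : ℤ) • m))⁻¹ *
        seqF p i0 i1 i2 (tau n + (p : ℤ) • a) ∈ Heis.Latt := by
    intro n hn a m
    apply seqF_periodic hp0
    rw [← hcone, htau n a]
    exact hn
  refine ⟨coneForm p i0 i1 i2, coneForm_rank hp h01 h02 h12, heisNil s hs,
    fun n => seqF p i0 i1 i2 (tau n),
    ⟨seqF p i0 i1 i2, (seqF_cubic p i0 i1 i2).isPolySeq, hseq, rfl⟩, ?_⟩
  rintro ⟨g', ⟨f, hf, hper, rfl⟩, hg⟩
  have hper' : ∀ n ∈ (Set.univ : Set (Fin d → ZMod p)), ∀ a m : Fin d → ℤ,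
      ((show Heis from f (tau n + (p : ℤ) • a + (p : ℤ) • m)))⁻¹ *
        (show Heis from f (tau n + (p : ℤ) • a)) ∈ Heis.Latt := hper
  have hg' : ∀ n ∈ (coneForm p i0 i1 i2).V,
      (seqF p i0 i1 i2 (tau n))⁻¹ * (show Heis from f (tau n)) ∈ Heis.Latt := by
    intro n hn
    exact QuotientGroup.eq.mp (hg n hn)
  refine core hp hp5 h01 h02 h12 (cubic_of_isPolySeq hf) ?_ ?_
  · intro n m
    obtain ⟨b, hb⟩ := tau_repr hp0 n
    have := hper' (fun i => ((n i : ℤ) : ZMod p)) trivial b m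
    rw [← hb] at this
    exact this
  · intro v hv
    obtain ⟨b, hb⟩ := tau_repr hp0 v
    have hV := (hcone v).mpr hv
    set n : Fin d → ZMod p := fun i => ((v i : ℤ) : ZMod p) with hn
    have h1 := hseq n hV 0 b
    have h2 := hper' n trivial 0 b
    have h3 := hg' n hV
    rw [smul_zero, add_zero, ← hb] at h1 h2
    have h4 := Heis.Latt.mul_mem (Heis.Latt.mul_mem h1 h3) (Heis.Latt.inv_mem h2)
    have h5 : ∀ a b c e : Heis, a⁻¹ * b * (b⁻¹ * c) * (e⁻¹ * c)⁻¹ = a⁻¹ * e := by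
      intro a b c e; group
    exact (h5 (seqF p i0 i1 i2 v) (seqF p i0 i1 i2 (tau n)) (f (tau n)) (f v)) ▸ h4

end

end Pool.H24.MV.NoExtension
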