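import Mathlib

/-!
# Structurally sharply `k`-transitive actions: definitions of the statement
-/

set_option autoImplicit false

namespace Pool.H24.MV.SharpAction

open FirstOrder FirstOrder.Language FirstOrder.Language.Structure CategoryTheory

universe u v w

/-- A class `K` of structures has strong amalgamation: two extensions `B`, `C` in `K` of a
structure `A` in `K` embed over `A` into a structure of `K`, with images meeting only in the image
of `A`. -/
def StrongAmalgamation {L : FirstOrder.Language.{u, v}} (K : Set (Bundled.{w} L.Structure)) : Prop :=
  ∀ (A B C : Bundled.{w} L.Structure) (f : A ↪[L] B) (g : A ↪[L] C), A ∈ K → B ∈ K → C ∈ K →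
    ∃ (D : Bundled.{w} L.Structure) (f' : B ↪[L] D) (g' : C ↪[L] D), D ∈ K ∧
      f'.comp f = g'.comp g ∧ ∀ (b : B) (c : C), f' b = g' c → ∃ a : A, b = f a ∧ c = g a

/-- Fraisse structures in the sense of the problem: countably infinite, ultrahomogeneous, and the
class of finite (= finitely generated, the language being relational) substructures has strong
amalgamation. -/
structure IsFraisseStructure (L : FirstOrder.Language.{u, v}) (M : Type w) [L.Structure M] : Prop where
  countable : Countable M
  infinite : Infinite M
  ultrahomogeneous : L.IsUltrahomogeneous M
  strongAmalgamation : StrongAmalgamation (L.age M)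

/-- Every substructure with exactly `k` elements has trivial automorphism group. -/
def RigidSubsets (L : FirstOrder.Language.{u, v}) (M : Type w) [L.Structure M] (k : ℕ) : Prop :=
  ∀ S : L.Substructure M, Nat.card S = k → ∀ e : S ≃[L] S, ∀ x : S, e x = x

/-- The action of the group `G` on `M` is by automorphisms, and any two `k`-tuples `a`, `b` of
distinct elements for which `a i ↦ b i` is an isomorphism of induced substructures are related by
exactly one element of `G`. -/
def IsSharplyTransitiveAction (L : FirstOrder.Language.{u, v}) (M : Type w) [L.Structure M]
    (k : ℕ) (G : Type) [Group G] [MulAction G M] : Prop :=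
  (∀ (g : G) (n : ℕ) (r : L.Relations n) (x : Fin n → M),
    RelMap r (fun i => g • x i) ↔ RelMap r x) ∧
  ∀ a b : Fin k → M, Function.Injective a → Function.Injective b →
    (∀ (n : ℕ) (r : L.Relations n) (x : Fin n → Fin k),
      RelMap r (fun i => a (x i)) ↔ RelMap r (fun i => b (x i))) →
    ∃! g : G, ∀ i, g • a i = b i

end Pool.H24.MV.SharpAction
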