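import Mathlib
import Pool.Agent.H24.MV.SharpActionDefs

/-!
# Words and paths in labelled graphs: the proof
-/

set_option autoImplicit false

namespace Pool.H24.MV.SharpAction

open FirstOrder FirstOrder.Language FirstOrder.Language.Structure CategoryTheory

universe u v w

section Aux

variable {L : FirstOrder.Language.{u, v}} {M : Type w} [L.Structure M]

/-- Tuples of the same isomorphism type. -/
def SameType {ι : Type} (a b : ι → M) : Prop :=
  ∀ (n : ℕ) (r : L.Relations n) (x : Fin n → ι),
    RelMap r (fun i => a (x i)) ↔ RelMap r (fun i => b (x i))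

/-- Partial isomorphisms, as relations. -/
def PIso (L : FirstOrder.Language.{u, v}) [L.Structure M] (s : Set (M × M)) : Prop :=
  (∀ p ∈ s, ∀ q ∈ s, (p.1 = q.1 ↔ p.2 = q.2)) ∧
  ∀ (n : ℕ) (r : L.Relations n) (x : Fin n → M × M), (∀ j, x j ∈ s) →
    (RelMap r (fun j => (x j).1) ↔ RelMap r (fun j => (x j).2))

theorem PIso.mono {s t : Set (M × M)} (h : PIso L t) (hst : s ⊆ t) : PIso L s :=
  ⟨fun p hp q hq => h.1 p (hst hp) q (hst hq), fun n r x hx => h.2 n r x fun j => hst (hx j)⟩

theorem PIso.swap {s : Set (M × M)} (h : PIso L s) : PIso L (Prod.swap ⁻¹' s) := by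
  refine ⟨fun p hp q hq => (h.1 _ hp _ hq).symm, fun n r x hx => ?_⟩
  exact (h.2 n r (fun j => (x j).swap) hx).symm

theorem PIso.of_equiv (σ : M ≃[L] M) : PIso L {p | σ p.1 = p.2} := by
  refine ⟨fun p hp q hq => ?_, fun n r x hx => ?_⟩
  · have hp' : σ p.1 = p.2 := hp
    have hq' : σ q.1 = q.2 := hq
    rw [← hp', ← hq']
    exact σ.injective.eq_iff.symm
  · have : (fun j => (x j).2) = σ ∘ (fun j => (x j).1) := by
      funext j; exact (hx j).symm
    rw [this]
    exact (σ.map_rel r _).symm

variable [L.IsRelational]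

/-- A substructure with a given finite carrier. -/
def sub (s : Set M) : L.Substructure M := Substructure.closure L s

theorem mem_sub {s : Set M} {x : M} : x ∈ (sub s : L.Substructure M) ↔ x ∈ s :=
  Substructure.mem_closure_iff_of_isRelational L s x

omit [L.IsRelational] in
theorem sub_fg {s : Set M} (hs : s.Finite) : (sub s : L.Substructure M).FG := by
  exact Substructure.fg_closure hs

/-- Finite partial isomorphisms extend to automorphisms. -/
theorem extend_auto (hU : L.IsUltrahomogeneous M) {s : Set (M × M)} (hs : s.Finite)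
    (h : PIso L s) : ∃ σ : M ≃[L] M, ∀ p ∈ s, σ p.1 = p.2 := by
  classical
  have hdom : ∀ x : (sub (Prod.fst '' s) : L.Substructure M), ∃ y, ((x : M), y) ∈ s := by
    rintro ⟨x, hx⟩
    rw [mem_sub] at hx
    obtain ⟨p, hp, rfl⟩ := hx
    exact ⟨p.2, hp⟩
  choose f hf using hdom
  let F : (sub (Prod.fst '' s) : L.Substructure M) ↪[L] M :=
    { toFun := f
      inj' := by
        intro x y hxy
        apply Subtype.ext
        exact (h.1 _ (hf x) _ (hf y)).mpr hxy
      map_fun' := by
        intro n g
        exact (IsEmpty.false g).elim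
      map_rel' := by
        intro n r x
        have := h.2 n r (fun j => ((x j : M), f (x j))) (fun j => hf (x j))
        exact this.symm }
  obtain ⟨σ, hσ⟩ := hU _ (sub_fg (hs.image Prod.fst)) F
  refine ⟨σ, fun p hp => ?_⟩
  have hx : p.1 ∈ (sub (Prod.fst '' s) : L.Substructure M) := mem_sub.mpr ⟨p, hp, rfl⟩
  have h1 : F ⟨p.1, hx⟩ = σ p.1 := by rw [hσ]; rfl
  have h2 : f ⟨p.1, hx⟩ = p.2 := (h.1 _ (hf ⟨p.1, hx⟩) _ hp).mp rfl
  rw [← h1]; exact h2

/-- No algebraicity, from strong amalgamation. -/
theorem move (hU : L.IsUltrahomogeneous M) (hS : StrongAmalgamation (L.age M))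
    {B F : Set M} (hB : B.Finite) (hF : F.Finite) {z : M} (hz : z ∉ B) :
    ∃ τ : M ≃[L] M, (∀ b ∈ B, τ b = b) ∧ τ z ∉ F := by
  have hB1 : (B ∪ {z}).Finite := hB.union (Set.finite_singleton z)
  have hB2 : (B ∪ F).Finite := hB.union hF
  let SA : L.Substructure M := sub B
  let SB : L.Substructure M := sub (B ∪ {z})
  let SC : L.Substructure M := sub (B ∪ F)
  have hAB : SA ≤ SB := Substructure.closure_mono Set.subset_union_left
  have hAC : SA ≤ SC := Substructure.closure_mono Set.subset_union_left
  have age_mem : ∀ (S : L.Substructure M), S.FG → (Bundled.of S : Bundled.{w} L.Structure) ∈ L.age M :=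
    fun S hS => ⟨(Substructure.fg_iff_structure_fg S).mp hS, ⟨S.subtype⟩⟩
  have key : ∃ (D : Type w) (_ : L.Structure D) (f' : SB ↪[L] D) (g' : SC ↪[L] D) (_ : D ↪[L] M),
      f'.comp (Substructure.inclusion hAB) = g'.comp (Substructure.inclusion hAC) ∧
      ∀ (b : SB) (c : SC), f' b = g' c →
        ∃ a : SA, b = Substructure.inclusion hAB a ∧ c = Substructure.inclusion hAC a := by
    obtain ⟨D, f', g', hD, hcomm, hsep⟩ := hS (Bundled.of SA) (Bundled.of SB) (Bundled.of SC)
      (Substructure.inclusion hAB) (Substructure.inclusion hAC)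
      (age_mem SA (sub_fg hB)) (age_mem SB (sub_fg hB1)) (age_mem SC (sub_fg hB2))
    obtain ⟨-, ⟨h⟩⟩ := hD
    exact ⟨D, D.str, f', g', h, hcomm, hsep⟩
  obtain ⟨D, _, f', g', h, hcomm, hsep⟩ := key
  obtain ⟨σ₁, h₁⟩ := hU SC (sub_fg hB2) (h.comp g')
  obtain ⟨σ₂, h₂⟩ := hU SB (sub_fg hB1) (h.comp f')
  have e₁ : ∀ (c : SC), σ₁ c = h (g' c) := fun c => (DFunLike.congr_fun h₁ c).symm
  have e₂ : ∀ (c : SB), σ₂ c = h (f' c) := fun c => (DFunLike.congr_fun h₂ c).symm
  refine ⟨σ₁.symm.comp σ₂, fun b hb => ?_, fun hmem => ?_⟩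
  · have hbA : b ∈ SA := mem_sub.mpr hb
    have hc : f' (Substructure.inclusion hAB ⟨b, hbA⟩) = g' (Substructure.inclusion hAC ⟨b, hbA⟩) :=
      DFunLike.congr_fun hcomm ⟨b, hbA⟩
    have h3 := e₂ (Substructure.inclusion hAB ⟨b, hbA⟩)
    have h4 := e₁ (Substructure.inclusion hAC ⟨b, hbA⟩)
    rw [hc, ← h4] at h3
    change σ₁.symm (σ₂ b) = b
    have h5 : σ₂ b = σ₁ b := h3
    rw [h5]
    exact σ₁.symm_apply_apply b
  · have hzB : z ∈ SB := mem_sub.mpr (Or.inr rfl)
    change σ₁.symm (σ₂ z) ∈ F at hmem
    have hyC : σ₁.symm (σ₂ z) ∈ SC := mem_sub.mpr (Or.inr hmem)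
    have h3 := e₁ ⟨_, hyC⟩
    have h4 := e₂ ⟨z, hzB⟩
    have h5 : σ₁ (σ₁.symm (σ₂ z)) = σ₂ z := σ₁.apply_symm_apply _
    have h6 : h (g' ⟨_, hyC⟩) = h (f' ⟨z, hzB⟩) := by
      rw [← h3, ← h4]; exact h5
    obtain ⟨a, ha, -⟩ := hsep _ _ (h.injective h6).symm
    apply hz
    have : z = (a : M) := congrArg Subtype.val ha
    rw [this]
    exact mem_sub.mp a.2

/-- One-point extension of a finite partial isomorphism, avoiding a finite set. -/
theorem extend_point (hU : L.IsUltrahomogeneous M) (hS : StrongAmalgamation (L.age M))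
    {s : Set (M × M)} (hs : s.Finite) (h : PIso L s) {x : M} (hx : ∀ y, (x, y) ∉ s)
    {F : Set M} (hF : F.Finite) : ∃ y, y ∉ F ∧ PIso L (insert (x, y) s) := by
  obtain ⟨σ, hσ⟩ := extend_auto hU hs h
  have hz : σ x ∉ Prod.snd '' s := by
    rintro ⟨p, hp, hpx⟩
    have h1 : σ p.1 = σ x := (hσ p hp).trans hpx
    have h2 : p.1 = x := σ.injective h1
    apply hx p.2
    rw [← h2]; exact hp
  obtain ⟨τ, hτ, hτF⟩ := move hU hS (hs.image Prod.snd) hF hz
  refine ⟨τ (σ x), hτF, ?_⟩
  apply (PIso.of_equiv (τ.comp σ)).mono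
  rintro p (rfl | hp)
  · rfl
  · change τ (σ p.1) = p.2
    rw [hσ p hp]
    exact hτ _ ⟨p, hp, rfl⟩

omit [L.Structure M] [L.IsRelational]

theorem red_mid (A B C : List (ℕ × Bool)) {W : List (ℕ × Bool)} (h : FreeGroup.IsReduced W)
    (hW : A ++ B ++ C = W) : FreeGroup.IsReduced B := by
  subst hW
  unfold FreeGroup.IsReduced at *
  exact h.left_of_append.right_of_append

/-- One step labelled by a letter, in the labelled graph `E`. -/
def Stp (E : Set (ℕ × M × M)) (l : ℕ × Bool) (x y : M) : Prop :=
  if l.2 then (l.1, x, y) ∈ E else (l.1, y, x) ∈ E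

/-- A path labelled by a word; the last letter is applied first. -/
def Path (E : Set (ℕ × M × M)) : List (ℕ × Bool) → M → M → Prop
  | [], x, y => x = y
  | l :: W, x, y => ∃ z, Path E W x z ∧ Stp E l z y

theorem Stp.mono {E E' : Set (ℕ × M × M)} (h : E ⊆ E') {l : ℕ × Bool} {x y : M}
    (hs : Stp E l x y) : Stp E' l x y := by
  unfold Stp at *
  split_ifs at * with hl
  · exact h hs
  · exact h hs

theorem Stp.inv {E : Set (ℕ × M × M)} {l : ℕ × Bool} {x y : M}
    (hs : Stp E l x y) : Stp E (l.1, !l.2) y x := by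
  unfold Stp at *
  rcases l with ⟨i, b⟩
  cases b <;> simpa using hs

theorem Path.mono {E E' : Set (ℕ × M × M)} (h : E ⊆ E') {W : List (ℕ × Bool)} {x y : M}
    (hs : Path E W x y) : Path E' W x y := by
  induction W generalizing y with
  | nil => exact hs
  | cons l W ih =>
    obtain ⟨z, h1, h2⟩ := hs
    exact ⟨z, ih h1, h2.mono h⟩

theorem path_append {E : Set (ℕ × M × M)} {W W' : List (ℕ × Bool)} {x y : M} :
    Path E (W ++ W') x y ↔ ∃ z, Path E W' x z ∧ Path E W z y := by
  induction W generalizing y with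
  | nil => simp [Path]
  | cons l W ih =>
    simp only [List.cons_append, Path, ih]
    constructor
    · rintro ⟨z, ⟨z', h1, h2⟩, h3⟩
      exact ⟨z', h1, z, h2, h3⟩
    · rintro ⟨z', h1, z, h2, h3⟩
      exact ⟨z, ⟨z', h1, h2⟩, h3⟩

theorem path_inv {E : Set (ℕ × M × M)} {W : List (ℕ × Bool)} {x y : M} (h : Path E W x y) :
    Path E (FreeGroup.invRev W) y x := by
  induction W generalizing y with
  | nil => exact h.symm
  | cons l W ih =>
    obtain ⟨z, h1, h2⟩ := h
    have : FreeGroup.invRev (l :: W) = FreeGroup.invRev W ++ [(l.1, !l.2)] := by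
      simp [FreeGroup.invRev]
    rw [this, path_append]
    exact ⟨z, ⟨y, rfl, h2.inv⟩, ih h1⟩

/-- Deterministic labels. -/
def Det (E : Set (ℕ × M × M)) : Prop :=
  (∀ i x y y', (i, x, y) ∈ E → (i, x, y') ∈ E → y = y') ∧
  (∀ i x x' y, (i, x, y) ∈ E → (i, x', y) ∈ E → x = x')

theorem Det.stp {E : Set (ℕ × M × M)} (h : Det E) {l : ℕ × Bool} {x y y' : M}
    (h1 : Stp E l x y) (h2 : Stp E l x y') : y = y' := by
  unfold Stp at *
  split_ifs at * with hl
  · exact h.1 _ _ _ _ h1 h2
  · exact h.2 _ _ _ _ h1 h2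

theorem Det.stp' {E : Set (ℕ × M × M)} (h : Det E) {l : ℕ × Bool} {x x' y : M}
    (h1 : Stp E l x y) (h2 : Stp E l x' y) : x = x' := h.stp h1.inv h2.inv

theorem Det.path {E : Set (ℕ × M × M)} (h : Det E) {W : List (ℕ × Bool)} {x y y' : M}
    (h1 : Path E W x y) (h2 : Path E W x y') : y = y' := by
  induction W generalizing y y' with
  | nil => exact h1.symm.trans h2
  | cons l W ih =>
    obtain ⟨z, a1, a2⟩ := h1
    obtain ⟨z', b1, b2⟩ := h2
    obtain rfl := ih a1 b1
    exact h.stp a2 b2

theorem Det.path' {E : Set (ℕ × M × M)} (h : Det E) {W : List (ℕ × Bool)} {x x' y : M}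
    (h1 : Path E W x y) (h2 : Path E W x' y) : x = x' :=
  h.path (path_inv h1) (path_inv h2)

/-- No nontrivial reduced word fixes `k` points. -/
def NoFix (k : ℕ) (E : Set (ℕ × M × M)) : Prop :=
  ∀ W : List (ℕ × Bool), FreeGroup.IsReduced W → W ≠ [] → ∀ c : Fin k → M,
    Function.Injective c → ¬ ∀ j, Path E W (c j) (c j)

/-- Adding an edge with a fresh end vertex `y` (a leaf) creates no new closed reduced paths. -/
theorem NoFix.leaf {k : ℕ} {E E' : Set (ℕ × M × M)} (hE : NoFix k E) (hdet : Det E')
    (l₀ : ℕ × Bool) {x y : M} (hxy : x ≠ y)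
    (hleaf : ∀ l z, Stp E' l y z → l = l₀ ∧ z = x)
    (hrest : ∀ l u v, Stp E' l u v → u ≠ y → v ≠ y → Stp E l u v) : NoFix k E' := by
  have hleaf' : ∀ l z, Stp E' l z y → l = (l₀.1, !l₀.2) ∧ z = x := by
    intro l z h
    obtain ⟨h1, h2⟩ := hleaf _ _ h.inv
    refine ⟨?_, h2⟩
    rw [← h1]; simp
  have avoid : ∀ W : List (ℕ × Bool), FreeGroup.IsReduced W → ∀ u v, u ≠ y → v ≠ y →
      Path E' W u v → Path E W u v := by
    intro W
    induction W with
    | nil => intro _ u v _ _ h; exact h
    | cons l W ih =>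
      intro hred u v hu hv h
      obtain ⟨z, h1, h2⟩ := h
      by_cases hz : z = y
      · subst hz
        obtain ⟨hl, rfl⟩ := hleaf _ _ h2
        cases W with
        | nil => exact absurd h1 hu
        | cons l' W =>
          obtain ⟨z', h3, h4⟩ := h1
          obtain ⟨hl', rfl⟩ := hleaf' _ _ h4
          rw [FreeGroup.isReduced_cons_cons] at hred
          have := hred.1
          rw [hl, hl'] at this
          simp at this
      · refine ⟨z, ih ?_ u z hu hz h1, hrest _ _ _ h2 hz hv⟩
        exact red_mid [l] _ [] hred (by simp)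
  -- strong induction on the length
  intro W
  induction hn : W.length using Nat.strong_induction_on generalizing W with
  | _ n ih =>
    intro hred hne c hc hcl
    by_cases hy : ∃ j₀, c j₀ = y
    · obtain ⟨j₀, hj₀⟩ := hy
      -- the word is `l₀⁻¹ W' l₀`
      rcases List.eq_nil_or_concat' W with h0 | ⟨W1, l', rfl⟩
      · exact hne h0
      cases W1 with
      | nil =>
        obtain ⟨z, h1, h2⟩ := hcl j₀
        obtain rfl : c j₀ = z := h1
        rw [hj₀] at h2
        exact hxy (hleaf _ _ h2).2.symm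
      | cons l W' =>
        have hcl' := hcl
        have step : ∀ j, ∃ d d', Stp E' l' (c j) d ∧ Path E' W' d d' ∧ Stp E' l d' (c j) := by
          intro j
          obtain ⟨d', h1, h2⟩ := hcl j
          change Path E' (W' ++ [l']) _ _ at h1
          rw [path_append] at h1
          obtain ⟨d, h3, h4⟩ := h1
          obtain ⟨z, h5, h6⟩ := h3
          obtain rfl : c j = z := h5
          exact ⟨d, d', h6, h4, h2⟩
        choose d d' h1 h2 h3 using step
        have hl' : l' = l₀ := (hleaf _ _ (hj₀ ▸ h1 j₀)).1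
        have hl : l = (l₀.1, !l₀.2) := (hleaf' _ _ (hj₀ ▸ h3 j₀)).1
        have hdd : ∀ j, d j = d' j := by
          intro j
          have h4 := (h3 j).inv
          rw [hl] at h4
          simp only [Bool.not_not] at h4
          have h5 := h1 j
          rw [hl'] at h5
          exact hdet.stp h5 h4
        have hW' : W' ≠ [] := by
          rintro rfl
          simp only [List.cons_append, List.nil_append, FreeGroup.isReduced_cons_cons] at hred
          have := hred.1
          rw [hl, hl'] at this
          simp at this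
        have hd : Function.Injective d := by
          intro a b hab
          apply hc
          have h4 := h1 a
          rw [hab] at h4
          exact hdet.stp' h4 (h1 b)
        refine ih W'.length ?_ W' rfl ?_ hW' d hd ?_
        · rw [← hn]; simp
        · exact red_mid [l] _ [l'] hred (by simp)
        · intro j
          have := h2 j
          rwa [← hdd j] at this
    · push Not at hy
      exact hE W hred hne c hc fun j => avoid W hred _ _ (hy j) (hy j) (hcl j)

variable [L.Structure M]

/-- The conditions kept throughout the construction. -/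
structure Good (L : FirstOrder.Language.{u, v}) [L.Structure M] (k : ℕ)
    (E : Set (ℕ × M × M)) : Prop where
  piso : ∀ i, PIso L {p : M × M | (i, p.1, p.2) ∈ E}
  nofix : NoFix k E

theorem Good.det {k : ℕ} {E : Set (ℕ × M × M)} (h : Good L k E) : Det E :=
  ⟨fun i x y y' h1 h2 => ((h.piso i).1 (x, y) h1 (x, y') h2).mp rfl,
    fun i x x' y h1 h2 => ((h.piso i).1 (x, y) h1 (x', y) h2).mpr rfl⟩

theorem sameType_path {E : Set (ℕ × M × M)} (h : ∀ i, PIso L {p : M × M | (i, p.1, p.2) ∈ E})
    {ι : Type} {W : List (ℕ × Bool)} {a b : ι → M} (hab : ∀ j, Path E W (a j) (b j)) :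
    SameType (L := L) a b := by
  induction W generalizing b with
  | nil =>
    obtain rfl : a = b := funext hab
    exact fun n r x => Iff.rfl
  | cons l W ih =>
    choose z h1 h2 using hab
    intro n r x
    refine (ih h1 n r x).trans ?_
    rcases l with ⟨i, β⟩
    cases β
    · have := (h i).2 n r (fun j => (b (x j), z (x j))) (fun j => h2 (x j))
      exact this.symm
    · exact (h i).2 n r (fun j => (z (x j), b (x j))) (fun j => h2 (x j))

theorem SameType.symm {ι : Type} {a b : ι → M} (h : SameType (L := L) a b) :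
    SameType (L := L) b a := fun n r x => (h n r x).symm

theorem SameType.trans {ι : Type} {a b c : ι → M} (h : SameType (L := L) a b)
    (h' : SameType (L := L) b c) : SameType (L := L) a c :=
  fun n r x => (h n r x).trans (h' n r x)

theorem rigid_tuple [L.IsRelational] {k : ℕ} (hrig : RigidSubsets L M k) {a c : Fin k → M}
    (ha : Function.Injective a) (hc : Function.Injective c) (hca : ∀ j, c j ∈ Set.range a)
    (h : SameType (L := L) a c) : a = c := by
  classical
  let S : L.Substructure M := sub (Set.range a)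
  have hS : ∀ x : S, ∃ j, a j = (x : M) := by
    intro x
    have h0 : (x : M) ∈ Set.range a := mem_sub.mp x.2
    exact h0
  choose idx hidx using hS
  have hfin : Finite S := by
    have : Finite (Set.range a) := Set.finite_range a
    exact Finite.of_injective (fun x : S => (⟨x, mem_sub.mp x.2⟩ : Set.range a))
      (fun x y hxy => Subtype.ext (congrArg (fun z : Set.range a => (z : M)) hxy))
  have hcard : Nat.card S = k := by
    have e : Fin k ≃ S := Equiv.ofBijective (fun j => (⟨a j, mem_sub.mpr ⟨j, rfl⟩⟩ : S))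
      ⟨fun i j hij => ha (congrArg Subtype.val hij),
        fun x => ⟨idx x, Subtype.ext (hidx x)⟩⟩
    rw [← Nat.card_congr e, Nat.card_eq_fintype_card, Fintype.card_fin]
  let f : S → S := fun x => ⟨c (idx x), mem_sub.mpr (hca _)⟩
  have hf : Function.Injective f := by
    intro x y hxy
    have h1 : c (idx x) = c (idx y) := congrArg Subtype.val hxy
    have h2 := hc h1
    apply Subtype.ext
    rw [← hidx x, ← hidx y, h2]
  let e : S ≃[L] S :=
    { Equiv.ofBijective f (Finite.injective_iff_bijective.mp hf) with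
      map_fun' := by
        intro n g
        exact (IsEmpty.false g).elim
      map_rel' := by
        intro n r x
        have h1 := h n r (fun j => idx (x j))
        have h2 : (fun j => a (idx (x j))) = fun j => ((x j : S) : M) :=
          funext fun j => hidx (x j)
        rw [h2] at h1
        exact h1.symm }
  have he := hrig S hcard e
  funext j
  have hj : a j ∈ S := mem_sub.mpr ⟨j, rfl⟩
  have h1 : c (idx ⟨a j, hj⟩) = a j := congrArg Subtype.val (he ⟨a j, hj⟩)
  have h2 : idx ⟨a j, hj⟩ = j := ha (hidx ⟨a j, hj⟩)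
  rw [h2] at h1
  exact h1.symm

omit [L.Structure M] in
theorem split_last (i : ℕ) (W : List (ℕ × Bool)) (h : ∃ l ∈ W, l.1 = i) :
    ∃ W₂ l W₁, W = W₂ ++ l :: W₁ ∧ l.1 = i ∧ ∀ l' ∈ W₁, l'.1 ≠ i := by
  induction W with
  | nil => simp at h
  | cons l W ih =>
    by_cases h' : ∃ l ∈ W, l.1 = i
    · obtain ⟨W₂, l', W₁, rfl, h2, h3⟩ := ih h'
      exact ⟨l :: W₂, l', W₁, rfl, h2, h3⟩
    · push Not at h'
      obtain ⟨l', hl', hi⟩ := h
      rcases List.mem_cons.mp hl' with rfl | hm
      · exact ⟨[], l', W, rfl, hi, h'⟩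
      · exact absurd hi (h' l' hm)

/-- Adding a new generator mapping `a` to `b`. -/
theorem Good.newEdges [L.IsRelational] {k : ℕ} (hrig : RigidSubsets L M k)
    {E : Set (ℕ × M × M)} (hE : Good L k E) {i : ℕ} (hi : ∀ x y, (i, x, y) ∉ E)
    {a b : Fin k → M} (ha : Function.Injective a) (hb : Function.Injective b)
    (hab : SameType (L := L) a b) (hno : ∀ W, ¬ ∀ j, Path E W (a j) (b j)) :
    Good L k (E ∪ {e | ∃ j, e = (i, a j, b j)}) := by
  set E' : Set (ℕ × M × M) := E ∪ {e | ∃ j, e = (i, a j, b j)} with hE'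
  constructor
  · intro i'
    by_cases hii : i' = i
    · subst hii
      have hmem : ∀ p : M × M, (i', p.1, p.2) ∈ E' → ∃ j, p = (a j, b j) := by
        intro p hp
        rcases hp with hp | ⟨j, hj⟩
        · exact absurd hp (hi _ _)
        · refine ⟨j, ?_⟩
          rw [Prod.mk.injEq, Prod.mk.injEq] at hj
          exact Prod.ext hj.2.1 hj.2.2
      constructor
      · intro p hp q hq
        obtain ⟨j, rfl⟩ := hmem p hp
        obtain ⟨j', rfl⟩ := hmem q hq
        simp only
        rw [ha.eq_iff, hb.eq_iff]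
      · intro n r x hx
        have : ∀ m, ∃ j, x m = (a j, b j) := fun m => hmem (x m) (hx m)
        choose y hy using this
        have := hab n r y
        simp only [hy]
        exact this
    · apply (hE.piso i').mono
      intro p hp
      rcases hp with hp | ⟨j, hj⟩
      · exact hp
      · rw [Prod.mk.injEq] at hj
        exact absurd hj.1 hii
  · intro W hred hne c hc hcl
    -- steps along the new label
    let s : Bool → Fin k → M := fun β => if β then a else b
    have hs_inj : ∀ β, Function.Injective (s β) := by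
      intro β; cases β
      · exact hb
      · exact ha
    have hs_type : ∀ β β', SameType (L := L) (s β) (s β') := by
      intro β β'
      cases β <;> cases β'
      · exact fun n r x => Iff.rfl
      · exact hab.symm
      · exact hab
      · exact fun n r x => Iff.rfl
    have hstep : ∀ β x y, Stp E' (i, β) x y → ∃ j, x = s β j ∧ y = s (!β) j := by
      intro β x y h
      cases β
      · rcases h with h | ⟨j, hj⟩
        · exact absurd h (hi _ _)
        · rw [Prod.mk.injEq, Prod.mk.injEq] at hj
          exact ⟨j, hj.2.2, hj.2.1⟩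
      · rcases h with h | ⟨j, hj⟩
        · exact absurd h (hi _ _)
        · rw [Prod.mk.injEq, Prod.mk.injEq] at hj
          exact ⟨j, hj.2.1, hj.2.2⟩
    have hold : ∀ V : List (ℕ × Bool), (∀ l ∈ V, l.1 ≠ i) → ∀ x y, Path E' V x y →
        Path E V x y := by
      intro V
      induction V with
      | nil => intro _ x y h; exact h
      | cons l V ih =>
        intro hV x y h
        obtain ⟨z, h1, h2⟩ := h
        refine ⟨z, ih (fun l' hl' => hV l' (List.mem_cons_of_mem _ hl')) x z h1, ?_⟩
        have hl : l.1 ≠ i := hV l List.mem_cons_self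
        unfold Stp at *
        split_ifs at * with hb'
        · rcases h2 with h2 | ⟨j, hj⟩
          · exact h2
          · rw [Prod.mk.injEq] at hj
            exact absurd hj.1 hl
        · rcases h2 with h2 | ⟨j, hj⟩
          · exact h2
          · rw [Prod.mk.injEq] at hj
            exact absurd hj.1 hl
    have hno' : ∀ β V, ¬ ∀ j, Path E V (s (!β) j) (s β j) := by
      intro β V h
      cases β
      · exact hno V h
      · exact hno _ fun j => path_inv (h j)
    by_cases hW : ∃ l ∈ W, l.1 = i
    swap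
    · push Not at hW
      exact hE.nofix W hred hne c hc fun j => hold W hW _ _ (hcl j)
    obtain ⟨W₂, ⟨i', β⟩, W₁, hW12, hii, hW1⟩ := split_last i W hW
    simp only at hii
    subst hii
    have split : ∀ j, ∃ m, Path E W₁ (c j) (s β m) ∧ Path E' W₂ (s (!β) m) (c j) := by
      intro j
      have h := hcl j
      rw [hW12, path_append] at h
      obtain ⟨z, ⟨z', h1, h2⟩, h3⟩ := h
      obtain ⟨m, rfl, rfl⟩ := hstep β _ _ h2
      exact ⟨m, hold W₁ hW1 _ _ h1, h3⟩
    choose π h1 h2 using split
    have hπ : Function.Injective π := by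
      intro x y hxy
      apply hc
      have h3 := h1 x
      rw [hxy] at h3
      exact hE.det.path' h3 (h1 y)
    have hπs : Function.Surjective π := Finite.surjective_of_injective hπ
    by_cases hW2 : ∃ l ∈ W₂, l.1 = i'
    swap
    · push Not at hW2
      apply hno' β (W₁ ++ W₂)
      intro m
      obtain ⟨j, rfl⟩ := hπs m
      rw [path_append]
      exact ⟨c j, hold W₂ hW2 _ _ (h2 j), h1 j⟩
    obtain ⟨W₄, ⟨i'', β'⟩, W₃, hW34, hii, hW3⟩ := split_last i' W₂ hW2
    simp only at hii
    subst hii
    have split2 : ∀ j, ∃ m, Path E W₃ (s (!β) (π j)) (s β' m) := by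
      intro j
      have h := h2 j
      rw [hW34, path_append] at h
      obtain ⟨z, ⟨z', h3, h4⟩, h5⟩ := h
      obtain ⟨m, rfl, rfl⟩ := hstep β' _ _ h4
      exact ⟨m, hold W₃ hW3 _ _ h3⟩
    have split3 : ∀ m, ∃ m', Path E W₃ (s (!β) m) (s β' m') := by
      intro m
      obtain ⟨j, rfl⟩ := hπs m
      exact split2 j
    choose ρ hρ using split3
    have hρinj : Function.Injective ρ := by
      intro x y hxy
      apply hs_inj (!β)
      have h3 := hρ x
      rw [hxy] at h3
      exact hE.det.path' h3 (hρ y)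
    have htype : SameType (L := L) (s β') (fun m => s β' (ρ m)) :=
      (hs_type β' (!β)).trans (sameType_path hE.piso hρ)
    have hrig' := rigid_tuple hrig (hs_inj β') ((hs_inj β').comp hρinj) (fun j => ⟨ρ j, rfl⟩) htype
    have hρ' : ∀ m, Path E W₃ (s (!β) m) (s β' m) := by
      intro m
      have h3 := hρ m
      have h4 : s β' m = s β' (ρ m) := congrFun hrig' m
      rwa [← h4] at h3
    by_cases hβ : β' = β
    · subst hβ
      exact hno' β' W₃ hρ'
    · have hβ' : (!β) = β' := by
        cases β <;> cases β' <;> simp at hβ ⊢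
      rw [hβ'] at hρ'
      have hred3 : FreeGroup.IsReduced W₃ := by
        refine red_mid (W₄ ++ [(i'', β')]) _ ((i'', β) :: W₁) hred ?_
        rw [hW12, hW34]; simp
      by_cases hn : W₃ = []
      · subst hn
        have : FreeGroup.IsReduced [(i'', β'), (i'', β)] := by
          refine red_mid W₄ _ W₁ hred ?_
          rw [hW12, hW34]; simp
        rw [FreeGroup.isReduced_cons_cons] at this
        exact hβ (this.1 rfl)
      · exact hE.nofix W₃ hred3 hn _ (hs_inj β') hρ'

theorem Good.addOut [L.IsRelational] (hU : L.IsUltrahomogeneous M)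
    (hS : StrongAmalgamation (L.age M)) {k : ℕ} {E : Set (ℕ × M × M)} (hfin : E.Finite)
    (hE : Good L k E) {i : ℕ} {x : M} (hx : ∀ y, (i, x, y) ∉ E) :
    ∃ y, Good L k (insert (i, x, y) E) := by
  have hsfin : ({p : M × M | (i, p.1, p.2) ∈ E}).Finite := by
    have : Function.Injective (fun p : M × M => (i, p.1, p.2)) := by
      intro p q h
      rw [Prod.mk.injEq, Prod.mk.injEq] at h
      exact Prod.ext h.2.1 h.2.2
    exact hfin.preimage this.injOn
  let V : Set M := (fun e : ℕ × M × M => e.2.1) '' E ∪ (fun e : ℕ × M × M => e.2.2) '' E ∪ {x}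
  have hV : V.Finite := ((hfin.image _).union (hfin.image _)).union (Set.finite_singleton x)
  obtain ⟨y, hy, hpiso⟩ := extend_point hU hS hsfin (hE.piso i) (x := x) hx hV
  have hy1 : ∀ j u, (j, y, u) ∉ E := fun j u h => hy (Or.inl (Or.inl ⟨_, h, rfl⟩))
  have hy2 : ∀ j u, (j, u, y) ∉ E := fun j u h => hy (Or.inl (Or.inr ⟨_, h, rfl⟩))
  have hxy : x ≠ y := fun h => hy (Or.inr h.symm)
  have hp : ∀ j, PIso L {p : M × M | (j, p.1, p.2) ∈ insert (i, x, y) E} := by
    intro j
    by_cases hj : j = i
    · subst hj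
      apply hpiso.mono
      rintro p (hp | hp)
      · rw [Prod.mk.injEq, Prod.mk.injEq] at hp
        exact Or.inl (Prod.ext hp.2.1 hp.2.2)
      · exact Or.inr hp
    · apply (hE.piso j).mono
      rintro p (hp | hp)
      · rw [Prod.mk.injEq] at hp
        exact absurd hp.1 hj
      · exact hp
  refine ⟨y, hp, ?_⟩
  refine hE.nofix.leaf
    ⟨fun j x y y' h1 h2 => ((hp j).1 (x, y) h1 (x, y') h2).mp rfl,
      fun j x x' y h1 h2 => ((hp j).1 (x, y) h1 (x', y) h2).mpr rfl⟩ (i, false) hxy ?_ ?_
  · rintro ⟨j, β⟩ z h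
    cases β
    · rcases h with h | h
      · rw [Prod.mk.injEq, Prod.mk.injEq] at h
        exact ⟨Prod.ext h.1 rfl, h.2.1⟩
      · exact absurd h (hy2 _ _)
    · rcases h with h | h
      · rw [Prod.mk.injEq, Prod.mk.injEq] at h
        exact absurd h.2.1.symm hxy
      · exact absurd h (hy1 _ _)
  · rintro ⟨j, β⟩ u v h hu hv
    cases β
    · rcases h with h | h
      · rw [Prod.mk.injEq, Prod.mk.injEq] at h
        exact absurd h.2.2 hu
      · exact h
    · rcases h with h | h
      · rw [Prod.mk.injEq, Prod.mk.injEq] at h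
        exact absurd h.2.2 hv
      · exact h

theorem Good.addIn [L.IsRelational] (hU : L.IsUltrahomogeneous M)
    (hS : StrongAmalgamation (L.age M)) {k : ℕ} {E : Set (ℕ × M × M)} (hfin : E.Finite)
    (hE : Good L k E) {i : ℕ} {x : M} (hx : ∀ y, (i, y, x) ∉ E) :
    ∃ y, Good L k (insert (i, y, x) E) := by
  have hsfin : (Prod.swap ⁻¹' {p : M × M | (i, p.1, p.2) ∈ E}).Finite := by
    have : Function.Injective (fun p : M × M => (i, p.2, p.1)) := by
      intro p q h
      rw [Prod.mk.injEq, Prod.mk.injEq] at h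
      exact Prod.ext h.2.2 h.2.1
    exact Set.Finite.preimage (s := E) (f := fun p : M × M => (i, p.2, p.1)) this.injOn hfin
  let V : Set M := (fun e : ℕ × M × M => e.2.1) '' E ∪ (fun e : ℕ × M × M => e.2.2) '' E ∪ {x}
  have hV : V.Finite := ((hfin.image _).union (hfin.image _)).union (Set.finite_singleton x)
  obtain ⟨y, hy, hpiso'⟩ := extend_point hU hS hsfin (hE.piso i).swap (x := x) hx hV
  have hpiso : PIso L (insert (y, x) {p : M × M | (i, p.1, p.2) ∈ E}) := by
    apply hpiso'.swap.mono
    rintro p (hp | hp)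
    · left
      rw [hp]; rfl
    · right
      exact hp
  have hy1 : ∀ j u, (j, y, u) ∉ E := fun j u h => hy (Or.inl (Or.inl ⟨_, h, rfl⟩))
  have hy2 : ∀ j u, (j, u, y) ∉ E := fun j u h => hy (Or.inl (Or.inr ⟨_, h, rfl⟩))
  have hxy : x ≠ y := fun h => hy (Or.inr h.symm)
  have hp : ∀ j, PIso L {p : M × M | (j, p.1, p.2) ∈ insert (i, y, x) E} := by
    intro j
    by_cases hj : j = i
    · subst hj
      apply hpiso.mono
      rintro p (hp | hp)
      · rw [Prod.mk.injEq, Prod.mk.injEq] at hp
        exact Or.inl (Prod.ext hp.2.1 hp.2.2)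
      · exact Or.inr hp
    · apply (hE.piso j).mono
      rintro p (hp | hp)
      · rw [Prod.mk.injEq] at hp
        exact absurd hp.1 hj
      · exact hp
  refine ⟨y, hp, ?_⟩
  refine hE.nofix.leaf
    ⟨fun j x y y' h1 h2 => ((hp j).1 (x, y) h1 (x, y') h2).mp rfl,
      fun j x x' y h1 h2 => ((hp j).1 (x, y) h1 (x', y) h2).mpr rfl⟩ (i, true) hxy ?_ ?_
  · rintro ⟨j, β⟩ z h
    cases β
    · rcases h with h | h
      · rw [Prod.mk.injEq, Prod.mk.injEq] at h
        exact absurd h.2.2.symm hxy
      · exact absurd h (hy2 _ _)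
    · rcases h with h | h
      · rw [Prod.mk.injEq, Prod.mk.injEq] at h
        exact ⟨Prod.ext h.1 rfl, h.2.2⟩
      · exact absurd h (hy1 _ _)
  · rintro ⟨j, β⟩ u v h hu hv
    cases β
    · rcases h with h | h
      · rw [Prod.mk.injEq, Prod.mk.injEq] at h
        exact absurd h.2.1 hv
      · exact h
    · rcases h with h | h
      · rw [Prod.mk.injEq, Prod.mk.injEq] at h
        exact absurd h.2.1 hu
      · exact h

end Aux

/-- For every `k ≥ 1`, every Fraisse structure (in a relational language, with strong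
amalgamation) with rigid `k`-subsets admits a structurally sharply `k`-transitive action by the
free group of countably infinite rank. -/
theorem result {L : FirstOrder.Language.{u, v}} [L.IsRelational] {M : Type w} [L.Structure M]
    (hM : IsFraisseStructure L M) {k : ℕ} (hk : 1 ≤ k) (hrig : RigidSubsets L M k) :
    ∃ _ : MulAction (FreeGroup ℕ) M, IsSharplyTransitiveAction L M k (FreeGroup ℕ) := by
  classical
  have hcount := hM.countable
  have hU := hM.ultrahomogeneous
  have hS := hM.strongAmalgamation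
  let P := {E : Finset (ℕ × M × M) // Good L k (E : Set (ℕ × M × M))}
  have hempty : Good L k ((∅ : Finset (ℕ × M × M)) : Set (ℕ × M × M)) := by
    constructor
    · intro i
      exact ⟨fun p hp => absurd hp (by simp), fun n r x hx => by
        rcases Nat.eq_zero_or_pos n with rfl | hn
        · have : (fun j : Fin 0 => (x j).1) = (fun j => (x j).2) := funext fun j => j.elim0
          rw [this]
        · exact absurd (hx ⟨0, hn⟩) (by simp)⟩
    · intro W _ hne c _ hcl
      obtain ⟨l, W, rfl⟩ := List.exists_cons_of_ne_nil hne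
      obtain ⟨z, -, h⟩ := hcl ⟨0, hk⟩
      unfold Stp at h
      split_ifs at h <;> simp at h
  let ι := (ℕ × M) ⊕ (ℕ × M) ⊕ ((Fin k → M) × (Fin k → M))
  have : Encodable ι := Encodable.ofCountable ι
  let 𝒟 : ι → Order.Cofinal P := fun t => match t with
    | Sum.inl (i, x) =>
      { carrier := {E | ∃ y, (i, x, y) ∈ E.1}
        isCofinal := by
          intro E
          by_cases h : ∃ y, (i, x, y) ∈ E.1
          · exact ⟨E, h, le_rfl⟩
          · push Not at h
            obtain ⟨y, hy⟩ := E.2.addOut hU hS E.1.finite_toSet (i := i) (x := x)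
              (fun y => by simpa using h y)
            refine ⟨⟨insert (i, x, y) E.1, by simpa using hy⟩, ⟨y, ?_⟩, ?_⟩
            · simp
            · exact Finset.subset_insert _ _ }
    | Sum.inr (Sum.inl (i, x)) =>
      { carrier := {E | ∃ y, (i, y, x) ∈ E.1}
        isCofinal := by
          intro E
          by_cases h : ∃ y, (i, y, x) ∈ E.1
          · exact ⟨E, h, le_rfl⟩
          · push Not at h
            obtain ⟨y, hy⟩ := E.2.addIn hU hS E.1.finite_toSet (i := i) (x := x)
              (fun y => by simpa using h y)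
            refine ⟨⟨insert (i, y, x) E.1, by simpa using hy⟩, ⟨y, ?_⟩, ?_⟩
            · simp
            · exact Finset.subset_insert _ _ }
    | Sum.inr (Sum.inr (a, b)) =>
      { carrier := {E | Function.Injective a → Function.Injective b →
          SameType (L := L) a b → ∃ W, ∀ j, Path (E.1 : Set (ℕ × M × M)) W (a j) (b j)}
        isCofinal := by
          intro E
          by_cases h : ∃ W, ∀ j, Path (E.1 : Set (ℕ × M × M)) W (a j) (b j)
          · exact ⟨E, fun _ _ _ => h, le_rfl⟩
          by_cases h' : Function.Injective a ∧ Function.Injective b ∧ SameType (L := L) a b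
          swap
          · exact ⟨E, fun h1 h2 h3 => absurd ⟨h1, h2, h3⟩ h', le_rfl⟩
          obtain ⟨ha, hb, hab⟩ := h'
          obtain ⟨i, hi⟩ := Infinite.exists_notMem_finset (E.1.image Prod.fst)
          have hi' : ∀ x y, (i, x, y) ∉ (E.1 : Set (ℕ × M × M)) := by
            intro x y hxy
            exact hi (Finset.mem_image.mpr ⟨(i, x, y), by simpa using hxy, rfl⟩)
          have hgood := E.2.newEdges hrig hi' ha hb hab (fun W hW => h ⟨W, hW⟩)
          refine ⟨⟨E.1 ∪ Finset.univ.image (fun j => (i, a j, b j)), ?_⟩, ?_, ?_⟩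
          · convert hgood using 1
            ext e
            simp [eq_comm]
          · intro _ _ _
            refine ⟨[(i, true)], fun j => ⟨a j, rfl, ?_⟩⟩
            change (i, a j, b j) ∈ _
            simp only [Finset.coe_union, Set.mem_union, Finset.mem_coe, Finset.mem_image]
            exact Or.inr ⟨j, Finset.mem_univ j, rfl⟩
          · exact Finset.subset_union_left }
  let I : Order.Ideal P := Order.idealOfCofinals ⟨∅, hempty⟩ 𝒟
  have hmeet : ∀ t, ∃ x : P, x ∈ 𝒟 t ∧ x ∈ I :=
    Order.cofinal_meets_idealOfCofinals ⟨∅, hempty⟩ 𝒟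
  let Ei : Set (ℕ × M × M) := {e | ∃ E ∈ I, e ∈ E.1}
  have hsub : ∀ E ∈ I, (E.1 : Set (ℕ × M × M)) ⊆ Ei := fun E hE e he => ⟨E, hE, by simpa using he⟩
  have hdir : ∀ (n : ℕ) (f : Fin n → P), (∀ j, f j ∈ I) → ∃ E ∈ I, ∀ j, f j ≤ E := by
    intro n
    induction n with
    | zero => intro f _; exact ⟨⟨∅, hempty⟩, Order.mem_idealOfCofinals _ _, fun j => j.elim0⟩
    | succ n ih =>
      intro f hf
      obtain ⟨E, hE, h1⟩ := ih (fun j => f j.castSucc) (fun j => hf _)
      obtain ⟨E', hE', h2, h3⟩ := I.directed E hE (f (Fin.last n)) (hf _)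
      refine ⟨E', hE', fun j => ?_⟩
      refine Fin.lastCases ?_ (fun j => ?_) j
      · exact h3
      · exact (h1 j).trans h2
  have hpath : ∀ (W : List (ℕ × Bool)) (x y : M), Path Ei W x y →
      ∃ E ∈ I, Path (E.1 : Set (ℕ × M × M)) W x y := by
    intro W
    induction W with
    | nil => intro x y h; exact ⟨⟨∅, hempty⟩, Order.mem_idealOfCofinals _ _, h⟩
    | cons l W ih =>
      intro x y h
      obtain ⟨z, h1, h2⟩ := h
      obtain ⟨E, hE, h3⟩ := ih _ _ h1
      have : ∃ E' ∈ I, Stp (E'.1 : Set (ℕ × M × M)) l z y := by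
        unfold Stp at h2 ⊢
        split_ifs at h2 ⊢ with hl
        · exact h2
        · exact h2
      obtain ⟨E', hE', h4⟩ := this
      obtain ⟨E'', hE'', h5, h6⟩ := I.directed E hE E' hE'
      exact ⟨E'', hE'', z, h3.mono (Finset.coe_subset.mpr h5), h4.mono (Finset.coe_subset.mpr h6)⟩
  have hgood : Good L k Ei := by
    constructor
    · intro i
      constructor
      · intro p hp q hq
        obtain ⟨E, hE, h1⟩ := hp
        obtain ⟨E', hE', h2⟩ := hq
        obtain ⟨E'', hE'', h5, h6⟩ := I.directed E hE E' hE'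
        exact (E''.2.piso i).1 p (h5 h1) q (h6 h2)
      · intro n r x hx
        choose f hf hfx using hx
        obtain ⟨E, hE, h1⟩ := hdir n f hf
        exact (E.2.piso i).2 n r x fun j => h1 j (hfx j)
    · intro W hred hne c hc hcl
      choose f hf hfx using fun j => hpath W _ _ (hcl j)
      obtain ⟨E, hE, h1⟩ := hdir k f hf
      exact E.2.nofix W hred hne c hc fun j => (hfx j).mono (Finset.coe_subset.mpr (h1 j))
  have htot : ∀ i x, ∃ y, (i, x, y) ∈ Ei := by
    intro i x
    obtain ⟨E, ⟨y, hy⟩, hE⟩ := hmeet (Sum.inl (i, x))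
    exact ⟨y, E, hE, hy⟩
  have htot' : ∀ i x, ∃ y, (i, y, x) ∈ Ei := by
    intro i x
    obtain ⟨E, ⟨y, hy⟩, hE⟩ := hmeet (Sum.inr (Sum.inl (i, x)))
    exact ⟨y, E, hE, hy⟩
  choose f hf using htot
  choose g hg using htot'
  have hdet := hgood.det
  let F : ℕ → Equiv.Perm M := fun i =>
    { toFun := f i
      invFun := g i
      left_inv := fun x => (hdet.2 i _ _ _ (hg i (f i x)) (hf i x))
      right_inv := fun x => (hdet.1 i _ _ _ (hf i (g i x)) (hg i x)) }
  let φ : FreeGroup ℕ →* Equiv.Perm M := FreeGroup.lift F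
  have hφ : ∀ (W : List (ℕ × Bool)) (x : M), Path Ei W x (φ (FreeGroup.mk W) x) := by
    intro W
    induction W with
    | nil => intro x; rfl
    | cons l W ih =>
      intro x
      refine ⟨_, ih x, ?_⟩
      have h1 : φ (FreeGroup.mk (l :: W)) x
          = (cond l.2 (F l.1) (F l.1)⁻¹) (φ (FreeGroup.mk W) x) := by
        simp only [φ, FreeGroup.lift_mk, List.map_cons, List.prod_cons, Equiv.Perm.mul_apply]
      rw [h1]
      rcases l with ⟨i, β⟩
      cases β
      · exact hg i _
      · exact hf i _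
  refine ⟨MulAction.compHom M φ, ?_, ?_⟩
  · intro w n r x
    have h1 : SameType (L := L) x (fun j => φ w (x j)) := by
      apply sameType_path (W := w.toWord) hgood.piso
      intro j
      have := hφ w.toWord (x j)
      rwa [FreeGroup.mk_toWord] at this
    exact (h1 n r id).symm
  · intro a b ha hb hab
    obtain ⟨E, hE1, hE⟩ := hmeet (Sum.inr (Sum.inr (a, b)))
    obtain ⟨W, hW⟩ := hE1 ha hb hab
    have hWφ : ∀ j, φ (FreeGroup.mk W) (a j) = b j := fun j =>
      hdet.path (hφ W (a j)) ((hW j).mono (hsub E hE))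
    refine ⟨FreeGroup.mk W, hWφ, ?_⟩
    intro w hw
    have hw' : ∀ j, φ w (a j) = b j := hw
    by_contra hne
    have hne1 : (FreeGroup.mk W)⁻¹ * w ≠ 1 := by
      intro h
      apply hne
      rw [inv_mul_eq_one] at h
      exact h.symm
    set u := (FreeGroup.mk W)⁻¹ * w with hu
    have hfix : ∀ j, φ u (a j) = a j := by
      intro j
      rw [hu, map_mul, map_inv, Equiv.Perm.mul_apply, hw' j, ← hWφ j]
      exact Equiv.symm_apply_apply _ _
    refine hgood.nofix u.toWord FreeGroup.isReduced_toWord ?_ a ha ?_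
    · intro h
      exact hne1 (FreeGroup.toWord_eq_nil_iff.mp h)
    · intro j
      have := hφ u.toWord (a j)
      rwa [FreeGroup.mk_toWord, hfix j] at this

end Pool.H24.MV.SharpAction
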