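import Mathlib

/-!
# The threshold number is not bounded by a function of the threshold dimension: definitions of the statement
-/

set_option autoImplicit false

namespace Pool.H24.MV.ThetaUnbounded

open Finset

/-- `G` is `k`-threshold: there are a set `T` of `k` real thresholds and real ranks `r` such that
distinct `v`, `w` are adjacent iff the number of thresholds that are `≤ r v + r w` is odd. -/
def IsKThreshold {V : Type} (G : SimpleGraph V) (k : ℕ) : Prop :=
  ∃ T : Finset ℝ, T.card = k ∧ ∃ r : V → ℝ, ∀ v w : V, v ≠ w →
    (G.Adj v w ↔ Odd (T.filter (fun θ => θ ≤ r v + r w)).card)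

/-- The threshold number: the least `k` such that `G` is `k`-threshold. -/
noncomputable def thresholdNumber {V : Type} (G : SimpleGraph V) : ℕ :=
  sInf {k : ℕ | IsKThreshold G k}

/-- `G` is the union of `k` threshold graphs (that is, `1`-threshold graphs) on its vertex set. -/
def IsThresholdCover {V : Type} (G : SimpleGraph V) (k : ℕ) : Prop :=
  ∃ H : Fin k → SimpleGraph V, (∀ i, IsKThreshold (H i) 1) ∧
    ∀ v w : V, G.Adj v w ↔ ∃ i, (H i).Adj v w

/-- The threshold dimension: the least `k` such that the edge set of `G` is a union of the edge sets
of `k` threshold graphs on the vertex set of `G`. -/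
noncomputable def thresholdDim {V : Type} (G : SimpleGraph V) : ℕ :=
  sInf {k : ℕ | IsThresholdCover G k}

end Pool.H24.MV.ThetaUnbounded
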