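import Mathlib
import Pool.Agent.H24.MV.ThetaUnboundedDefs

/-!
# The threshold number is not bounded by a function of the threshold dimension: the proof
-/

set_option autoImplicit false

namespace Pool.H24.MV.ThetaUnbounded

open Finset

theorem pow_sum_inj {a b c d : ℕ} (hab : a < b) (hcd : c < d)
    (h : 3 ^ a + 3 ^ b = 3 ^ c + 3 ^ d) : a = c ∧ b = d := by
  have hpos : ∀ n : ℕ, 0 < 3 ^ n := fun n => by positivity
  have hlt : ∀ {x y : ℕ}, x < y → 3 ^ x < 3 ^ y := fun hxy => Nat.pow_lt_pow_right (by norm_num) hxy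
  have hle : ∀ {x y : ℕ}, x < y → 3 * 3 ^ x ≤ 3 ^ y := by
    intro x y hxy
    calc 3 * 3 ^ x = 3 ^ (x + 1) := by rw [pow_succ]; ring
      _ ≤ 3 ^ y := Nat.pow_le_pow_right (by norm_num) hxy
  have hbd : b = d := by
    rcases lt_trichotomy b d with hbd | hbd | hbd
    · have h1 := hle hbd
      have h2 := hlt hab
      have h3 := hpos c
      omega
    · exact hbd
    · have h1 := hle hbd
      have h2 := hlt hcd
      have h3 := hpos a
      omega
  subst hbd
  have hac : 3 ^ a = 3 ^ c := by omega
  exact ⟨Nat.pow_right_injective (le_refl 3 |>.trans' (by norm_num)) hac, rfl⟩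

theorem exists_isKThreshold {V : Type} [Fintype V] (G : SimpleGraph V) :
    ∃ k, IsKThreshold G k := by
  classical
  obtain ⟨n, ⟨e⟩⟩ := Finite.exists_equiv_fin V
  -- the integer rank of a vertex
  let ρ : V → ℕ := fun v => 3 ^ (e v : ℕ)
  let A : Finset ℕ := ((univ : Finset (V × V)).filter (fun p => G.Adj p.1 p.2)).image
    (fun p => ρ p.1 + ρ p.2)
  let T : Finset ℝ := A.image (fun a : ℕ => (a : ℝ)) ∪ A.image (fun a : ℕ => (a : ℝ) + 1 / 2)
  refine ⟨T.card, T, rfl, fun v => (ρ v : ℝ), ?_⟩
  intro v w hvw
  -- membership in `A`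
  have hA : (ρ v + ρ w) ∈ A ↔ G.Adj v w := by
    constructor
    · intro h
      simp only [A, mem_image, mem_filter, mem_univ, true_and, Prod.exists] at h
      obtain ⟨v', w', hadj, hs⟩ := h
      have hne' : (e v' : ℕ) ≠ (e w' : ℕ) := by
        intro h
        exact hadj.ne (e.injective (Fin.ext h))
      have hne : (e v : ℕ) ≠ (e w : ℕ) := by
        intro h
        exact hvw (e.injective (Fin.ext h))
      have key : ((e v' : ℕ) = e v ∧ (e w' : ℕ) = e w) ∨ ((e v' : ℕ) = e w ∧ (e w' : ℕ) = e v) := by
        rcases lt_or_gt_of_ne hne' with h1 | h1 <;> rcases lt_or_gt_of_ne hne with h2 | h2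
        · left
          exact pow_sum_inj h1 h2 hs
        · right
          have := pow_sum_inj h1 h2 (by simpa [ρ, add_comm] using hs)
          exact this
        · right
          have := pow_sum_inj h1 h2 (by simpa [ρ, add_comm] using hs)
          exact ⟨this.2, this.1⟩
        · left
          have := pow_sum_inj h1 h2 (by simpa [ρ, add_comm] using hs)
          exact ⟨this.2, this.1⟩
      rcases key with ⟨h1, h2⟩ | ⟨h1, h2⟩
      · have e1 : v' = v := e.injective (Fin.ext h1)
        have e2 : w' = w := e.injective (Fin.ext h2)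
        rw [← e1, ← e2]; exact hadj
      · have e1 : v' = w := e.injective (Fin.ext h1)
        have e2 : w' = v := e.injective (Fin.ext h2)
        rw [← e1, ← e2]; exact hadj.symm
    · intro h
      simp only [A, mem_image, mem_filter, mem_univ, true_and, Prod.exists]
      exact ⟨v, w, h, rfl⟩
  -- counting thresholds
  have hcount : ∀ s : ℕ, (T.filter (fun θ => θ ≤ (s : ℝ))).card
      = (A.filter (fun a => a ≤ s)).card + (A.filter (fun a => a < s)).card := by
    intro s
    have h1 : T.filter (fun θ => θ ≤ (s : ℝ))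
        = (A.filter (fun a => a ≤ s)).image (fun a : ℕ => (a : ℝ)) ∪
          (A.filter (fun a => a < s)).image (fun a : ℕ => (a : ℝ) + 1 / 2) := by
      ext θ
      simp only [T, mem_filter, mem_union, mem_image]
      constructor
      · rintro ⟨⟨a, ha, rfl⟩ | ⟨a, ha, rfl⟩, hle⟩
        · left
          exact ⟨a, ⟨ha, by exact_mod_cast hle⟩, rfl⟩
        · right
          refine ⟨a, ⟨ha, ?_⟩, rfl⟩
          have : (a : ℝ) < s := by linarith
          exact_mod_cast this
      · rintro (⟨a, ⟨ha, hle⟩, rfl⟩ | ⟨a, ⟨ha, hlt⟩, rfl⟩)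
        · exact ⟨Or.inl ⟨a, ha, rfl⟩, by exact_mod_cast hle⟩
        · refine ⟨Or.inr ⟨a, ha, rfl⟩, ?_⟩
          have : (a : ℝ) + 1 ≤ s := by exact_mod_cast hlt
          linarith
    rw [h1, card_union_of_disjoint]
    · rw [card_image_of_injective _ (fun x y h => by exact_mod_cast h),
        card_image_of_injective _ (fun x y h => by
          have h' : (x : ℝ) = y := by simpa using h
          exact_mod_cast h')]
    · rw [Finset.disjoint_left]
      intro θ h1 h2
      simp only [mem_image, mem_filter] at h1 h2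
      obtain ⟨a, -, rfl⟩ := h1
      obtain ⟨b, -, hb⟩ := h2
      have h3 : (2 * b + 1 : ℝ) = 2 * a := by linarith
      have h4 : 2 * b + 1 = 2 * a := by exact_mod_cast h3
      omega
  have hcast : ((ρ v : ℕ) : ℝ) + ((ρ w : ℕ) : ℝ) = ((ρ v + ρ w : ℕ) : ℝ) := by push_cast; ring
  rw [hcast, hcount, ← hA]
  set s := ρ v + ρ w with hs
  by_cases hmem : s ∈ A
  · have h2 : A.filter (fun a => a ≤ s) = insert s (A.filter (fun a => a < s)) := by
      ext a
      simp only [mem_filter, mem_insert]
      constructor
      · rintro ⟨h1, h2⟩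
        rcases h2.lt_or_eq with h3 | h3
        · exact Or.inr ⟨h1, h3⟩
        · exact Or.inl h3
      · rintro (rfl | ⟨h1, h2⟩)
        · exact ⟨hmem, le_refl _⟩
        · exact ⟨h1, h2.le⟩
    have h3 : s ∉ A.filter (fun a => a < s) := by simp
    rw [h2, card_insert_of_notMem h3]
    constructor
    · intro _
      exact ⟨(A.filter (fun a => a < s)).card, by ring⟩
    · intro _; exact hmem
  · have h2 : A.filter (fun a => a ≤ s) = A.filter (fun a => a < s) := by
      ext a
      simp only [mem_filter]
      constructor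
      · rintro ⟨h1, h2⟩
        refine ⟨h1, lt_of_le_of_ne h2 ?_⟩
        rintro rfl
        exact hmem h1
      · rintro ⟨h1, h2⟩
        exact ⟨h1, h2.le⟩
    rw [h2]
    constructor
    · intro h; exact absurd h hmem
    · intro h
      exfalso
      have : Even ((A.filter (fun a => a < s)).card + (A.filter (fun a => a < s)).card) :=
        ⟨_, rfl⟩
      exact (Nat.not_even_iff_odd.mpr h) this

theorem isKThreshold_thresholdNumber {V : Type} [Fintype V] (G : SimpleGraph V) :
    IsKThreshold G (thresholdNumber G) :=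
  Nat.sInf_mem (s := {k : ℕ | IsKThreshold G k}) (exists_isKThreshold G)

/-- If any two different elements of a family `ξ` of vertices are separated by at least `c` members
of a family `η` of vertices, then `(|α| - 1) c ≤ k |β|`. -/
theorem key {V : Type} (G : SimpleGraph V) (k : ℕ) (hk : IsKThreshold G k)
    {α β : Type} [Fintype α] [Fintype β] (ξ : α → V) (η : β → V)
    (hne : ∀ a b, ξ a ≠ η b) (c : ℕ)
    (hsep : ∀ a a' : α, a ≠ a' → ∃ s : Finset β, c ≤ s.card ∧
      ∀ b ∈ s, ¬ (G.Adj (ξ a) (η b) ↔ G.Adj (ξ a') (η b))) :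
    (Fintype.card α - 1) * c ≤ k * Fintype.card β := by
  classical
  obtain ⟨T, hT, r, hr⟩ := hk
  let g : ℝ → ℕ := fun x => (T.filter (fun θ => θ ≤ x)).card
  have gmono : Monotone g := by
    intro x y hxy
    apply card_le_card
    intro θ hθ
    simp only [mem_filter] at hθ ⊢
    exact ⟨hθ.1, hθ.2.trans hxy⟩
  have gle : ∀ x, g x ≤ k := by
    intro x
    rw [← hT]
    exact card_filter_le _ _
  let Φ : α → ℕ := fun a => ∑ b, g (r (ξ a) + r (η b))
  have hΦle : ∀ a, Φ a ≤ k * Fintype.card β := by
    intro a
    calc Φ a ≤ ∑ _b : β, k := sum_le_sum (fun b _ => gle _)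
      _ = k * Fintype.card β := by simp [mul_comm]
  -- if `r (ξ a) ≤ r (ξ a')` then `Φ a + c ≤ Φ a'`
  have hstep : ∀ a a' : α, a ≠ a' → r (ξ a) ≤ r (ξ a') → Φ a + c ≤ Φ a' := by
    intro a a' haa hle
    obtain ⟨s, hs, hsep'⟩ := hsep a a' haa
    have h1 : ∀ b : β, g (r (ξ a) + r (η b)) + (if b ∈ s then 1 else 0)
        ≤ g (r (ξ a') + r (η b)) := by
      intro b
      have hm : g (r (ξ a) + r (η b)) ≤ g (r (ξ a') + r (η b)) := gmono (by linarith)
      by_cases hb : b ∈ s
      · rw [if_pos hb]
        rcases hm.lt_or_eq with h | h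
        · exact h
        · exfalso
          apply hsep' b hb
          rw [hr _ _ (hne a b), hr _ _ (hne a' b)]
          change Odd (g (r (ξ a) + r (η b))) ↔ Odd (g (r (ξ a') + r (η b)))
          rw [h]
      · rw [if_neg hb]; simpa using hm
    have h2 := sum_le_sum (s := (univ : Finset β)) (fun b _ => h1 b)
    rw [sum_add_distrib] at h2
    have h3 : ∑ b : β, (if b ∈ s then 1 else 0) = s.card := by simp
    rw [h3] at h2
    calc Φ a + c ≤ Φ a + s.card := by omega
      _ ≤ Φ a' := h2
  rcases Nat.eq_zero_or_pos c with hc | hc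
  · subst hc; simp
  have hinj : Set.InjOn (fun a => Φ a / c) (univ : Finset α) := by
    intro a _ a' _ h
    by_contra haa
    simp only at h
    rcases le_total (r (ξ a)) (r (ξ a')) with hle | hle
    · have := hstep a a' haa hle
      have h2 : (Φ a + c) / c ≤ Φ a' / c := Nat.div_le_div_right this
      rw [Nat.add_div_right _ hc] at h2
      omega
    · have := hstep a' a (Ne.symm haa) hle
      have h2 : (Φ a' + c) / c ≤ Φ a / c := Nat.div_le_div_right this
      rw [Nat.add_div_right _ hc] at h2
      omega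
  have hmaps : ∀ a ∈ (univ : Finset α), (fun a => Φ a / c) a ∈ range (k * Fintype.card β / c + 1) := by
    intro a _
    rw [mem_range]
    exact Nat.lt_succ_of_le (Nat.div_le_div_right (hΦle a))
  have hcard := card_le_card_of_injOn _ hmaps hinj
  rw [card_range, card_univ] at hcard
  calc (Fintype.card α - 1) * c ≤ (k * Fintype.card β / c) * c :=
        Nat.mul_le_mul_right _ (Nat.sub_le_of_le_add hcard)
    _ ≤ k * Fintype.card β := Nat.div_mul_le_self _ _

/-- The threshold graph `H i` on two copies `X`, `Y` of `{0, …, N-1}^m`: `X` is a clique, `Y` is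
independent, and `x ∼ y` iff `y i ≤ x i`. -/
def piece (m N : ℕ) (i : Fin m) : SimpleGraph ((Fin m → Fin N) ⊕ (Fin m → Fin N)) where
  Adj v w := match v, w with
    | Sum.inl x, Sum.inl x' => x ≠ x'
    | Sum.inl x, Sum.inr y => y i ≤ x i
    | Sum.inr y, Sum.inl x => y i ≤ x i
    | Sum.inr _, Sum.inr _ => False
  symm := ⟨by
    intro v w h
    rcases v with x | y <;> rcases w with x' | y'
    · exact Ne.symm h
    · exact h
    · exact h
    · exact h⟩
  loopless := ⟨by
    intro v h
    rcases v with x | y
    · exact h rfl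
    · exact h⟩

/-- The graph `G(m, N)`: `X` is a clique, `Y` is independent, and `x ∼ y` iff `y i ≤ x i` for some
`i`. -/
def theGraph (m N : ℕ) : SimpleGraph ((Fin m → Fin N) ⊕ (Fin m → Fin N)) where
  Adj v w := ∃ i, (piece m N i).Adj v w
  symm := ⟨by
    rintro v w ⟨i, h⟩
    exact ⟨i, h.symm⟩⟩
  loopless := ⟨by
    rintro v ⟨i, h⟩
    exact (piece m N i).loopless.irrefl v h⟩

theorem piece_threshold (m N : ℕ) (i : Fin m) : IsKThreshold (piece m N i) 1 := by
  classical
  refine ⟨{0}, by simp, fun v => match v with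
    | Sum.inl x => ((x i : ℕ) : ℝ) + 1 / 2
    | Sum.inr y => -((y i : ℕ) : ℝ) - 1 / 2, ?_⟩
  have hodd : ∀ x : ℝ, Odd (({0} : Finset ℝ).filter (fun θ => θ ≤ x)).card ↔ 0 ≤ x := by
    intro x
    by_cases hx : 0 ≤ x
    · have : ({0} : Finset ℝ).filter (fun θ => θ ≤ x) = {0} := by
        ext θ; simp only [mem_filter, mem_singleton]
        constructor
        · exact fun h => h.1
        · rintro rfl; exact ⟨rfl, hx⟩
      rw [this]; simp [hx]
    · have : ({0} : Finset ℝ).filter (fun θ => θ ≤ x) = ∅ := by
        ext θ; simp only [mem_filter, mem_singleton, notMem_empty, iff_false, not_and]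
        rintro rfl; exact hx
      rw [this]; simp [hx]
  intro v w hvw
  rw [hodd]
  rcases v with x | y <;> rcases w with x' | y'
  · simp only [piece]
    constructor
    · intro _; positivity
    · intro _ h; exact hvw (by rw [h])
  · simp only [piece]
    constructor
    · intro h
      have : ((y' i : ℕ) : ℝ) ≤ ((x i : ℕ) : ℝ) := by exact_mod_cast h
      linarith
    · intro h
      have : ((y' i : ℕ) : ℝ) ≤ ((x i : ℕ) : ℝ) := by linarith
      exact_mod_cast this
  · simp only [piece]
    constructor
    · intro h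
      have : ((y i : ℕ) : ℝ) ≤ ((x' i : ℕ) : ℝ) := by exact_mod_cast h
      linarith
    · intro h
      have : ((y i : ℕ) : ℝ) ≤ ((x' i : ℕ) : ℝ) := by linarith
      exact_mod_cast this
  · simp only [piece, false_iff, not_le]
    have h1 : (0 : ℝ) ≤ ((y i : ℕ) : ℝ) := by positivity
    have h2 : (0 : ℝ) ≤ ((y' i : ℕ) : ℝ) := by positivity
    linarith

theorem theGraph_cover (m N : ℕ) : IsThresholdCover (theGraph m N) m :=
  ⟨piece m N, piece_threshold m N, fun _ _ => Iff.rfl⟩

/-- Two edges `ab`, `cd` with `bc` and `ad` not edges cannot lie in a threshold subgraph. -/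
theorem conflict {V : Type} {H : SimpleGraph V} (hH : IsKThreshold H 1) {a b c d : V}
    (hab : H.Adj a b) (hcd : H.Adj c d) (hbc : ¬ H.Adj b c) (had : ¬ H.Adj a d)
    (hbc' : b ≠ c) (had' : a ≠ d) : False := by
  obtain ⟨T, hT, r, hr⟩ := hH
  obtain ⟨θ, rfl⟩ := card_eq_one.mp hT
  have hodd : ∀ x : ℝ, Odd (({θ} : Finset ℝ).filter (fun θ => θ ≤ x)).card ↔ θ ≤ x := by
    intro x
    by_cases hx : θ ≤ x
    · have : ({θ} : Finset ℝ).filter (fun θ => θ ≤ x) = {θ} := by
        ext t; simp only [mem_filter, mem_singleton]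
        constructor
        · exact fun h => h.1
        · rintro rfl; exact ⟨rfl, hx⟩
      rw [this]; simp [hx]
    · have : ({θ} : Finset ℝ).filter (fun θ => θ ≤ x) = ∅ := by
        ext t; simp only [mem_filter, mem_singleton, notMem_empty, iff_false, not_and]
        rintro rfl; exact hx
      rw [this]; simp [hx]
  rw [hr _ _ hab.ne, hodd] at hab
  rw [hr _ _ hcd.ne, hodd] at hcd
  rw [hr _ _ hbc', hodd] at hbc
  rw [hr _ _ had', hodd] at had
  push Not at hbc had
  linarith

theorem theGraph_dim (m N : ℕ) (hN : 3 ≤ N) : thresholdDim (theGraph m N) = m := by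
  apply le_antisymm (Nat.sInf_le (theGraph_cover m N))
  apply le_csInf ⟨m, theGraph_cover m N⟩
  rintro k ⟨H, hH, hcov⟩
  by_contra hlt
  push Not at hlt
  -- the conflicting edges
  let x : Fin m → (Fin m → Fin N) := fun i l => if l = i then ⟨1, by omega⟩ else ⟨0, by omega⟩
  let y : Fin m → (Fin m → Fin N) := fun i l => if l = i then ⟨1, by omega⟩ else ⟨2, by omega⟩
  have hedge : ∀ i, (theGraph m N).Adj (Sum.inl (x i)) (Sum.inr (y i)) := by
    intro i
    refine ⟨i, ?_⟩
    simp [piece, x, y]
  have hnon : ∀ i j, i ≠ j → ¬ (theGraph m N).Adj (Sum.inl (x i)) (Sum.inr (y j)) := by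
    rintro i j hij ⟨l, hl⟩
    simp only [piece, x, y] at hl
    by_cases h1 : l = j
    · have h2 : l ≠ i := fun h => hij (h.symm.trans h1)
      rw [if_pos h1, if_neg h2] at hl
      simp [Fin.le_def] at hl
    · rw [if_neg h1] at hl
      by_cases h2 : l = i
      · rw [if_pos h2] at hl
        simp [Fin.le_def] at hl
      · rw [if_neg h2] at hl
        simp [Fin.le_def] at hl
  have hch : ∀ i, ∃ j, (H j).Adj (Sum.inl (x i)) (Sum.inr (y i)) := fun i => (hcov _ _).mp (hedge i)
  choose f hf using hch
  have hninj : ¬ Function.Injective f := by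
    intro hinj
    have := Fintype.card_le_of_injective f hinj
    simp only [Fintype.card_fin] at this
    omega
  simp only [Function.Injective, not_forall] at hninj
  obtain ⟨i, j, hfij, hij⟩ := hninj
  have hj := hf j
  rw [← hfij] at hj
  refine conflict (hH (f i)) (hf i) hj.symm.symm ?_ ?_ ?_ ?_
  · intro h
    exact hnon j i (Ne.symm hij) ((hcov _ _).mpr ⟨f i, h.symm⟩)
  · intro h
    exact hnon i j hij ((hcov _ _).mpr ⟨f i, h⟩)
  · simp
  · simp

/-- Lower bound for the threshold number of `G(m, 2q)`, `m ≥ 2`. -/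
theorem theGraph_lower (m q k : ℕ) (hm : 2 ≤ m) (hq : 2 ≤ q)
    (hk : IsKThreshold (theGraph m (2 * q)) k) : (q * q - 1) * q ≤ k * ((2 * q) * (2 * q)) := by
  classical
  let i0 : Fin m := ⟨0, by omega⟩
  let i1 : Fin m := ⟨1, by omega⟩
  have h01 : i1 ≠ i0 := by
    intro h
    have := congrArg Fin.val h
    simp [i0, i1] at this
  let xf : Fin q × Fin q → (Fin m → Fin (2 * q)) := fun p l =>
    if l = i0 then ⟨p.1, by omega⟩ else if l = i1 then ⟨p.2, by omega⟩ else ⟨0, by omega⟩
  let yf : Fin (2 * q) × Fin (2 * q) → (Fin m → Fin (2 * q)) := fun p l =>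
    if l = i0 then p.1 else if l = i1 then p.2 else ⟨2 * q - 1, by omega⟩
  have hadj : ∀ p s, (theGraph m (2 * q)).Adj (Sum.inl (xf p)) (Sum.inr (yf s)) ↔
      ((s.1 : ℕ) ≤ p.1 ∨ (s.2 : ℕ) ≤ p.2) := by
    intro p s
    constructor
    · rintro ⟨l, hl⟩
      simp only [piece, xf, yf] at hl
      by_cases h1 : l = i0
      · rw [if_pos h1, if_pos h1] at hl
        left; exact hl
      · by_cases h2 : l = i1
        · rw [if_neg h1, if_pos h2, if_neg h1, if_pos h2] at hl
          right; exact hl
        · rw [if_neg h1, if_neg h2, if_neg h1, if_neg h2] at hl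
          simp only [Fin.le_def] at hl
          omega
    · rintro (h | h)
      · refine ⟨i0, ?_⟩
        simp only [piece, xf, yf, if_true, Fin.le_def]
        exact h
      · refine ⟨i1, ?_⟩
        simp only [piece, xf, yf, if_neg h01, if_true, Fin.le_def]
        exact h
  have hsep : ∀ p p' : Fin q × Fin q, p ≠ p' → ∃ s : Finset (Fin (2 * q) × Fin (2 * q)),
      q ≤ s.card ∧ ∀ b ∈ s, ¬ ((theGraph m (2 * q)).Adj (Sum.inl (xf p)) (Sum.inr (yf b)) ↔
        (theGraph m (2 * q)).Adj (Sum.inl (xf p')) (Sum.inr (yf b))) := by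
    intro p p' hpp
    have hp1 : (p.1 : ℕ) < q := p.1.isLt
    have hp2 : (p.2 : ℕ) < q := p.2.isLt
    have hp1' : (p'.1 : ℕ) < q := p'.1.isLt
    have hp2' : (p'.2 : ℕ) < q := p'.2.isLt
    -- the embedding of `q` vertices `y` with second resp. first coordinate large
    rcases Nat.lt_trichotomy p.1 p'.1 with h | h | h
    · -- `s = p'.1`, `t = q + j`
      refine ⟨(univ : Finset (Fin q)).image
        (fun j : Fin q => ((⟨p'.1, by omega⟩ : Fin (2 * q)), (⟨q + j, by omega⟩ : Fin (2 * q)))), ?_, ?_⟩
      · rw [card_image_of_injective]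
        · simp
        · intro a b hab
          simp only [Prod.mk.injEq, Fin.mk.injEq, true_and] at hab
          exact Fin.ext (by omega)
      · intro b hb
        simp only [mem_image, mem_univ, true_and] at hb
        obtain ⟨j, rfl⟩ := hb
        rw [hadj, hadj]
        simp only
        intro hiff
        have h1 := hiff.mpr (Or.inl (le_refl _))
        rcases h1 with h1 | h1 <;> omega
    · -- equal first coordinates
      have h2 : (p.2 : ℕ) ≠ p'.2 := by
        intro h2
        exact hpp (Prod.ext (Fin.ext h) (Fin.ext h2))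
      rcases Nat.lt_or_gt_of_ne h2 with h3 | h3
      · refine ⟨(univ : Finset (Fin q)).image
          (fun j : Fin q => ((⟨q + j, by omega⟩ : Fin (2 * q)), (⟨p'.2, by omega⟩ : Fin (2 * q)))), ?_, ?_⟩
        · rw [card_image_of_injective]
          · simp
          · intro a b hab
            simp only [Prod.mk.injEq, Fin.mk.injEq, and_true] at hab
            exact Fin.ext (by omega)
        · intro b hb
          simp only [mem_image, mem_univ, true_and] at hb
          obtain ⟨j, rfl⟩ := hb
          rw [hadj, hadj]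
          simp only
          intro hiff
          have h1 := hiff.mpr (Or.inr (le_refl _))
          rcases h1 with h1 | h1 <;> omega
      · refine ⟨(univ : Finset (Fin q)).image
          (fun j : Fin q => ((⟨q + j, by omega⟩ : Fin (2 * q)), (⟨p.2, by omega⟩ : Fin (2 * q)))), ?_, ?_⟩
        · rw [card_image_of_injective]
          · simp
          · intro a b hab
            simp only [Prod.mk.injEq, Fin.mk.injEq, and_true] at hab
            exact Fin.ext (by omega)
        · intro b hb
          simp only [mem_image, mem_univ, true_and] at hb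
          obtain ⟨j, rfl⟩ := hb
          rw [hadj, hadj]
          simp only
          intro hiff
          have h1 := hiff.mp (Or.inr (le_refl _))
          rcases h1 with h1 | h1 <;> omega
    · refine ⟨(univ : Finset (Fin q)).image
        (fun j : Fin q => ((⟨p.1, by omega⟩ : Fin (2 * q)), (⟨q + j, by omega⟩ : Fin (2 * q)))), ?_, ?_⟩
      · rw [card_image_of_injective]
        · simp
        · intro a b hab
          simp only [Prod.mk.injEq, Fin.mk.injEq, true_and] at hab
          exact Fin.ext (by omega)
      · intro b hb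
        simp only [mem_image, mem_univ, true_and] at hb
        obtain ⟨j, rfl⟩ := hb
        rw [hadj, hadj]
        simp only
        intro hiff
        have h1 := hiff.mp (Or.inl (le_refl _))
        rcases h1 with h1 | h1 <;> omega
  have := key (theGraph m (2 * q)) k hk (fun p => Sum.inl (xf p)) (fun s => Sum.inr (yf s))
    (fun _ _ => by simp) q hsep
  simpa [Fintype.card_prod, Fintype.card_fin] using this

/-- For every `m ≥ 2` and every `B` there is a finite graph with threshold dimension exactly `m` and
threshold number larger than `B`. -/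
theorem unbounded : ∀ m : ℕ, 2 ≤ m → ∀ B : ℕ, ∃ (V : Type) (_ : Fintype V) (G : SimpleGraph V),
    thresholdDim G = m ∧ B < thresholdNumber G := by
  intro m hm B
  let q := 4 * B + 2
  refine ⟨(Fin m → Fin (2 * q)) ⊕ (Fin m → Fin (2 * q)), inferInstance, theGraph m (2 * q),
    theGraph_dim m (2 * q) (by omega), ?_⟩
  have h := theGraph_lower m q _ hm (by omega) (isKThreshold_thresholdNumber (theGraph m (2 * q)))
  set k := thresholdNumber (theGraph m (2 * q))
  by_contra hle
  push Not at hle
  have hq : 0 < q := by omega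
  have h1 : (q * q - 1) * q ≤ (B * (4 * q)) * q := by
    calc (q * q - 1) * q ≤ k * ((2 * q) * (2 * q)) := h
      _ ≤ B * ((2 * q) * (2 * q)) := Nat.mul_le_mul_right _ hle
      _ = (B * (4 * q)) * q := by ring
  have h2 : q * q - 1 ≤ B * (4 * q) := Nat.le_of_mul_le_mul_right h1 hq
  have h3 : q * q = 4 * B * q + 2 * q := by simp only [q]; ring
  have h4 : B * (4 * q) = 4 * B * q := by ring
  omega

/-- Every finite graph is a union of finitely many threshold graphs. -/
theorem exists_cover {V : Type} [Fintype V] (G : SimpleGraph V) : ∃ k, IsThresholdCover G k := by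
  classical
  obtain ⟨k, ⟨e⟩⟩ := Finite.exists_equiv_fin {p : V × V // G.Adj p.1 p.2}
  refine ⟨k, fun i => SimpleGraph.fromEdgeSet {s(((e.symm i).1).1, ((e.symm i).1).2)}, ?_, ?_⟩
  · intro i
    set a := ((e.symm i).1).1
    set b := ((e.symm i).1).2
    have hab : a ≠ b := (e.symm i).2.ne
    refine ⟨{2}, by simp, fun v => if v = a ∨ v = b then 1 else 0, ?_⟩
    intro v w hvw
    have hodd : ∀ x : ℝ, Odd (({2} : Finset ℝ).filter (fun θ => θ ≤ x)).card ↔ 2 ≤ x := by
      intro x
      by_cases hx : 2 ≤ x
      · have : ({2} : Finset ℝ).filter (fun θ => θ ≤ x) = {2} := by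
          ext t; simp only [mem_filter, mem_singleton]
          constructor
          · exact fun h => h.1
          · rintro rfl; exact ⟨rfl, hx⟩
        rw [this]; simp [hx]
      · have : ({2} : Finset ℝ).filter (fun θ => θ ≤ x) = ∅ := by
          ext t; simp only [mem_filter, mem_singleton, notMem_empty, iff_false, not_and]
          rintro rfl; exact hx
        rw [this]; simp [hx]
    rw [hodd]
    simp only [SimpleGraph.fromEdgeSet_adj, Set.mem_singleton_iff, Sym2.eq_iff]
    constructor
    · rintro ⟨⟨h1, h2⟩ | ⟨h1, h2⟩, -⟩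
      · rw [if_pos (Or.inl h1), if_pos (Or.inr h2)]; norm_num
      · rw [if_pos (Or.inr h1), if_pos (Or.inl h2)]; norm_num
    · intro h
      refine ⟨?_, hvw⟩
      by_cases hv : v = a ∨ v = b
      · by_cases hw : w = a ∨ w = b
        · rcases hv with rfl | rfl <;> rcases hw with rfl | rfl
          · exact absurd rfl hvw
          · exact Or.inl ⟨rfl, rfl⟩
          · exact Or.inr ⟨rfl, rfl⟩
          · exact absurd rfl hvw
        · rw [if_pos hv, if_neg hw] at h; norm_num at h
      · rw [if_neg hv] at h
        by_cases hw : w = a ∨ w = b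
        · rw [if_pos hw] at h; norm_num at h
        · rw [if_neg hw] at h; norm_num at h
  · intro v w
    constructor
    · intro h
      refine ⟨e ⟨(v, w), h⟩, ?_⟩
      simp [h.ne]
    · rintro ⟨i, hi⟩
      rw [SimpleGraph.fromEdgeSet_adj, Set.mem_singleton_iff] at hi
      have h2 := (e.symm i).2
      rw [← SimpleGraph.mem_edgeSet] at h2 ⊢
      rw [hi.1]; exact h2

theorem isThresholdCover_thresholdDim {V : Type} [Fintype V] (G : SimpleGraph V) :
    IsThresholdCover G (thresholdDim G) :=
  Nat.sInf_mem (s := {k : ℕ | IsThresholdCover G k}) (exists_cover G)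

theorem bounded {V : Type} [Fintype V] (G : SimpleGraph V) (h : thresholdDim G ≤ 1) :
    thresholdNumber G ≤ 1 := by
  have hc := isThresholdCover_thresholdDim G
  rcases Nat.le_one_iff_eq_zero_or_eq_one.mp h with h0 | h1
  · rw [h0] at hc
    obtain ⟨H, -, hcov⟩ := hc
    refine (Nat.sInf_le ?_ : thresholdNumber G ≤ 0).trans (Nat.zero_le _)
    refine ⟨∅, by simp, fun _ => 0, ?_⟩
    intro v w _
    constructor
    · intro hvw
      obtain ⟨i, -⟩ := (hcov v w).mp hvw
      exact i.elim0
    · intro hodd; simp at hodd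
  · rw [h1] at hc
    obtain ⟨H, hH, hcov⟩ := hc
    refine Nat.sInf_le ?_
    have hG : G = H 0 := by
      ext v w
      rw [hcov]
      constructor
      · rintro ⟨i, hi⟩
        rwa [Subsingleton.elim i 0] at hi
      · intro hi; exact ⟨0, hi⟩
    change IsKThreshold G 1
    rw [hG]; exact hH 0

/-- **For which `m` is the threshold number bounded on the class of finite graphs of threshold
dimension `m`? Exactly for `m ≤ 1`.** In particular (take `m = 2`) there is no function `f` with
`Θ(G) ≤ f (t(G))` for all finite graphs `G`. -/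
theorem result : ∀ m : ℕ,
    (∃ B : ℕ, ∀ (V : Type) [Fintype V] (G : SimpleGraph V),
      thresholdDim G = m → thresholdNumber G ≤ B) ↔ m ≤ 1 := by
  intro m
  constructor
  · rintro ⟨B, hB⟩
    by_contra hm
    obtain ⟨V, hV, G, hdim, hnum⟩ := unbounded m (by omega) B
    exact absurd (hB V G hdim) (by omega)
  · intro hm
    exact ⟨1, fun V _ G hG => bounded G (by omega)⟩

end Pool.H24.MV.ThetaUnbounded
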